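import Mathlib

/-! The states reached by chains of contact orders: definition. -/

set_option autoImplicit false

namespace Pool.Agent.Lib.MP_ed661f_ag.G

/-- the states reached by chains: `σ` contact order, `x` slope, `k` number of steps -/
inductive Reach (a : ℕ) : ℕ → ℝ → ℕ → Prop
  | start : Reach a 0 a 0
  | step {σ : ℕ} {x : ℝ} {k : ℕ} (σ' : ℕ) : Reach a σ x k → σ < σ' → x ^ 2 + 1 / 100 ≤ σ' →
      Reach a σ' (σ' / x) (k + 1)

end Pool.Agent.Lib.MP_ed661f_ag.G
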