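import Pool.Agent.Lib.MP_ed661f_ag.G.Defs

/-!
Triangular regions of exponents and the compression along lines.
-/

set_option autoImplicit false

open Polynomial

namespace Pool.Agent.Lib.MP_ed661f_ag.G

/-- `S` lies in the triangle with vertices `(0,0)`, `(σ h, h)`, `(w, 0)` -/
def Reg (σ w h : ℝ) (S : Finset (ℕ × ℕ)) : Prop :=
  ∀ s ∈ S, σ * s.2 ≤ s.1 ∧ (s.1 : ℝ) + (w / h - σ) * s.2 ≤ w

/-- a line which contains more than `i` points of `S` contains two points whose heights differ by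
at least `i` -/
theorem Region.two_points {S : Finset (ℕ × ℕ)} {ρ E i : ℕ}
    (h : i < (S.filter fun u => u.1 + ρ * u.2 = E).card) :
    ∃ u ∈ S, ∃ v ∈ S, u.1 + ρ * u.2 = E ∧ v.1 + ρ * v.2 = E ∧ u.2 + i ≤ v.2 := by
  classical
  set T := S.filter fun u => u.1 + ρ * u.2 = E with hT
  have hinj : Set.InjOn Prod.snd (T : Set (ℕ × ℕ)) := by
    intro a ha b hb hab
    have ha' := (Finset.mem_filter.mp (Finset.mem_coe.mp ha)).2
    have hb' := (Finset.mem_filter.mp (Finset.mem_coe.mp hb)).2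
    rw [hab] at ha'
    exact Prod.ext (by omega) hab
  have hcard : (T.image Prod.snd).card = T.card := Finset.card_image_of_injOn hinj
  have hne : (T.image Prod.snd).Nonempty := by
    rw [← Finset.card_pos, hcard]
    omega
  obtain ⟨u, hu, hu1⟩ := Finset.mem_image.mp (Finset.min'_mem _ hne)
  obtain ⟨v, hv, hv1⟩ := Finset.mem_image.mp (Finset.max'_mem _ hne)
  obtain ⟨huS, huE⟩ := Finset.mem_filter.mp hu
  obtain ⟨hvS, hvE⟩ := Finset.mem_filter.mp hv
  refine ⟨u, huS, v, hvS, huE, hvE, ?_⟩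
  have hsub : T.image Prod.snd ⊆ Finset.Icc u.2 v.2 := by
    intro k hk
    rw [Finset.mem_Icc, hu1, hv1]
    exact ⟨Finset.min'_le _ _ hk, Finset.le_max' _ _ hk⟩
  have h1 := Finset.card_le_card hsub
  rw [Nat.card_Icc, hcard] at h1
  omega

theorem Reg.phi {σ w h : ℝ} {ρ : ℕ} {S : Finset (ℕ × ℕ)} (hS : Reg σ w h S) (hσ : 0 ≤ σ)
    (hw : 0 < w) (hh : 0 < h) (hr : 0 < σ + ρ) (hle : w ≤ (σ + ρ) * h) :
    Reg (σ + ρ) (h * (σ + ρ)) (w / (σ + ρ)) (Phi ρ S) := by
  have _ := hσ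
  intro s hs
  rw [mem_Phi] at hs
  obtain ⟨u, hu, v, hv, huE, hvE, huv⟩ := Region.two_points hs
  obtain ⟨-, hu2⟩ := hS u hu
  obtain ⟨hv1, -⟩ := hS v hv
  have huE' : (u.1 : ℝ) + ρ * u.2 = s.1 := by exact_mod_cast huE
  have hvE' : (v.1 : ℝ) + ρ * v.2 = s.1 := by exact_mod_cast hvE
  have huv' : (u.2 : ℝ) + s.2 ≤ v.2 := by exact_mod_cast huv
  have hu0 : (0 : ℝ) ≤ u.2 := Nat.cast_nonneg _
  set σ' := σ + ρ with hσ'
  have h1 : σ' * v.2 ≤ s.1 := by
    rw [hσ']
    linarith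
  have h2 : σ' * u.2 + σ' * s.2 ≤ s.1 := by
    have := mul_le_mul_of_nonneg_left huv' hr.le
    linarith
  refine ⟨?_, ?_⟩
  · have : 0 ≤ σ' * u.2 := by positivity
    linarith
  · -- the other side
    have hwh : w / h ≤ σ' := by
      rw [div_le_iff₀ hh]
      exact hle
    have h3 : (s.1 : ℝ) ≤ w + (σ' - w / h) * u.2 := by
      rw [hσ']
      linarith
    -- multiply by `σ'`
    have h4 : σ' * s.1 ≤ σ' * w + (σ' - w / h) * (s.1 - σ' * s.2) := by
      have h5 := mul_le_mul_of_nonneg_left h3 hr.le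
      have h6 := mul_le_mul_of_nonneg_left (show σ' * (u.2 : ℝ) ≤ s.1 - σ' * s.2 by linarith)
        (sub_nonneg.mpr hwh)
      nlinarith
    have h7 : w / h * s.1 + (σ' - w / h) * (σ' * s.2) ≤ σ' * w := by nlinarith
    have h8 : (w / h) * ((s.1 : ℝ) + (h * σ' / (w / σ') - σ') * s.2) ≤ (w / h) * (h * σ') := by
      have e1 : (w / h) * ((s.1 : ℝ) + (h * σ' / (w / σ') - σ') * s.2) =
          w / h * s.1 + (σ' - w / h) * (σ' * s.2) := by
        field_simp
      have e2 : (w / h) * (h * σ') = σ' * w := by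
        field_simp
      rw [e1, e2]
      exact h7
    exact le_of_mul_le_mul_left h8 (by positivity)

theorem Reg.final {σ w h t : ℝ} {S : Finset (ℕ × ℕ)} (hS : Reg σ w h S) (hσ : 0 ≤ σ)
    (hw : 0 < w) (hh : 0 < h) (ht : σ ≤ t) :
    ∀ s ∈ S, (s.1 : ℝ) + (t - σ) * s.2 ≤ max w (t * h) := by
  have _ := hσ
  have _ := ht
  intro s hs
  obtain ⟨h1, h2⟩ := hS s hs
  have h0 : (0 : ℝ) ≤ s.2 := Nat.cast_nonneg _
  rcases le_total t (w / h) with ht' | ht'
  · refine le_trans ?_ (le_max_left _ _)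
    have := mul_le_mul_of_nonneg_right ht' h0
    linarith
  · refine le_trans ?_ (le_max_right _ _)
    have h3 : w / h * s.2 ≤ w / h * h := by
      have e1 : w / h * h = w := by field_simp
      rw [e1]
      linarith
    have h4 : (s.2 : ℝ) ≤ h := le_of_mul_le_mul_left h3 (by positivity)
    have h5 := mul_le_mul_of_nonneg_left h4 (sub_nonneg.mpr ht')
    have e2 : (t - w / h) * h = t * h - w := by
      field_simp
    linarith

end Pool.Agent.Lib.MP_ed661f_ag.G
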