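import Pool.Agent.Lib.MP_ed661f_ag.G.Steps
import Pool.Agent.Lib.MP_ed661f_ag.G.Region
import Pool.Agent.Lib.MP_ed661f_ag.G.Reach

/-!
Chains of contact orders kill the polynomials of small degree.
-/

set_option autoImplicit false

open Polynomial

namespace Pool.Agent.Lib.MP_ed661f_ag.G

/-- the sections supported on `S` are killed by the conditions of contact order `n`, after a
contact of order `σ` -/
def Kld (n m : ℕ) (S : Finset (ℕ × ℕ)) (σ : ℕ) : Prop :=
  ∃ ξ : ℂ[X], Good S X ξ (fun i j => i + (n - σ) * j < n * m)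

theorem Kld.back {n m σ ρ : ℕ} {S : Finset (ℕ × ℕ)} (hσ : σ + ρ ≤ n)
    (h : Kld n m (Phi ρ S) (σ + ρ)) : Kld n m S σ := by
  obtain ⟨ξ, hξ⟩ := h
  obtain ⟨l, -, hl⟩ := stepA (K := ℂ) (S := S) (x := X) (ξ := ξ) (e := 1) (ρ := ρ)
    (I := fun i j => i + (n - σ) * j < n * m) (I' := fun i j => i + (n - (σ + ρ)) * j < n * m)
    (by simp) (by
      intro i j i' h1 h2
      have h3 : n - σ = (n - (σ + ρ)) + ρ := by omega
      have h4 : (n - σ) * j = (n - (σ + ρ)) * j + 1 * ρ * j := by
        rw [h3]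
        ring
      have h5 : i' + (n - σ) * j ≤ i + (n - (σ + ρ)) * j := by
        rw [h4]
        omega
      exact lt_of_le_of_lt h5 h1) hξ
  exact ⟨_, hl⟩

theorem kld_simplex {a σ k : ℕ} {x : ℝ} (h : Reach a σ x k) (ha : 1 ≤ a) :
    (a : ℝ) ≤ x ∧ ∀ (n m d : ℕ) (w : ℝ), max σ a ≤ n → 0 < w → (d : ℝ) ≤ w →
      (∀ S, Reg ((max σ a : ℕ) : ℝ) (w * x) (w / x) S → Kld n m S (max σ a)) →
        Kld n m (simplex (d + 1)) 0 := by
  have ha1 : (1 : ℝ) ≤ a := by exact_mod_cast ha
  induction h with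
  | start =>
    refine ⟨le_rfl, ?_⟩
    intro n m d w hn hw hd H
    rw [Nat.max_eq_right (Nat.zero_le a)] at hn H
    refine Kld.back (ρ := a) (by omega) ?_
    rw [Nat.zero_add]
    apply H
    have h0 : Reg 0 w w (simplex (d + 1)) := by
      intro s hs
      rw [mem_simplex] at hs
      refine ⟨by simp, ?_⟩
      rw [div_self hw.ne', sub_zero, one_mul]
      have h1 : s.1 + s.2 ≤ d := by omega
      have h2 : (s.1 : ℝ) + s.2 ≤ d := by exact_mod_cast h1
      linarith
    have h1 := h0.phi (ρ := a) le_rfl hw hw (by linarith) (by nlinarith)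
    rw [zero_add] at h1
    exact h1
  | @step σ x k σ' hr h1 h2 ih =>
    obtain ⟨hx, ih⟩ := ih
    have hx0 : 0 < x := by linarith
    have h3 : x ^ 2 ≤ σ' := by linarith
    have h4 : (a : ℝ) ≤ σ' := by nlinarith
    have h4' : a ≤ σ' := by exact_mod_cast h4
    have h5 : max σ a ≤ σ' := max_le h1.le h4'
    have hx' : x ≤ σ' / x := by
      rw [le_div_iff₀ hx0]
      nlinarith
    refine ⟨hx.trans hx', ?_⟩
    intro n m d w hn hw hd H
    rw [Nat.max_eq_left h4'] at hn H
    refine ih n m d w (h5.trans hn) hw hd fun S hS => ?_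
    have ht : 1 ≤ max σ a := ha.trans (le_max_right _ _)
    generalize max σ a = τ at h5 hS ht ⊢
    obtain ⟨ρ, rfl⟩ := Nat.exists_eq_add_of_le h5
    refine Kld.back (ρ := ρ) hn (H _ ?_)
    push_cast at h3 hx' ⊢
    have ht' : (1 : ℝ) ≤ τ := by exact_mod_cast ht
    have hr0 : (0 : ℝ) ≤ ρ := by positivity
    have hs0 : (0 : ℝ) < (τ : ℝ) + ρ := by linarith
    have h6 := hS.phi (ρ := ρ) (by positivity) (by positivity) (by positivity) hs0 (by
      rw [mul_div_assoc', le_div_iff₀ hx0]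
      nlinarith)
    have h7 : w / x * ((τ : ℝ) + ρ) = w * (((τ : ℝ) + ρ) / x) := by ring
    have h8 : w * x / ((τ : ℝ) + ρ) = w / (((τ : ℝ) + ρ) / x) := by
      rw [div_div_eq_mul_div]
    rw [h7, h8] at h6
    exact h6

/-- **chains kill polynomials**: for every multiplicity `m` the germ kills all polynomials of
degree less than `min (x, n / x) m`. -/
theorem good_of_reach {a n σ k : ℕ} {x : ℝ} (h : Reach a σ x k) (ha : 1 ≤ a) (han : a ≤ n)
    (hσ : σ ≤ n) {m d : ℕ} (hd : (d : ℝ) < min x (n / x) * m) :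
    ∃ ζ : ℂ[X], Good (simplex (d + 1)) X ζ (fun i j => i + n * j < n * m) := by
  obtain ⟨hx, H⟩ := kld_simplex h ha
  have ha1 : (1 : ℝ) ≤ a := by exact_mod_cast ha
  have hx0 : 0 < x := by linarith
  have hd0 : (0 : ℝ) ≤ d := by positivity
  obtain ⟨w, hw⟩ : ∃ w : ℝ, w = (d + min x (n / x) * m) / 2 := ⟨_, rfl⟩
  have hw0 : 0 < w := by linarith
  have hw1 : (d : ℝ) ≤ w := by linarith
  have hw2 : w < min x (n / x) * m := by linarith
  have hm : (0 : ℝ) ≤ m := by positivity
  have hw3 : w < x * m := lt_of_lt_of_le hw2 (mul_le_mul_of_nonneg_right (min_le_left _ _) hm)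
  have hw4 : w < n / x * m := lt_of_lt_of_le hw2 (mul_le_mul_of_nonneg_right (min_le_right _ _) hm)
  have h1 := H n m d w (max_le hσ han) hw0 hw1 (by
    intro S hS
    refine ⟨0, good_monomial ?_⟩
    intro s hs
    have hmax : max σ a ≤ n := max_le hσ han
    have h2 := hS.final (t := n) (by positivity) (by positivity) (by positivity)
      (by exact_mod_cast hmax) s hs
    have h3 : max (w * x) (n * (w / x)) < n * m := by
      apply max_lt
      · rw [div_mul_eq_mul_div, lt_div_iff₀ hx0] at hw4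
        exact hw4
      · have hn : (0 : ℝ) < n := by
          have : (a : ℝ) ≤ n := by exact_mod_cast han
          linarith
        refine mul_lt_mul_of_pos_left ?_ hn
        rw [div_lt_iff₀ hx0]
        linarith
    have h4 := lt_of_le_of_lt h2 h3
    rw [← Nat.cast_sub hmax] at h4
    exact_mod_cast h4)
  simpa [Kld] using h1

end Pool.Agent.Lib.MP_ed661f_ag.G
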