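import Pool.Agent.Lib.MP_ed661f_ag.G.Defs
import Pool.Agent.Lib.MP_ed661f_ag.A.Param
import Pool.Agent.Lib.MP_6b2d39_ag.Transfer

/-!
From a germ of a smooth curve to general points: the points `(t i, ζ (t i))` over `ℂ(t)`.
-/

set_option autoImplicit false

open Polynomial

namespace Pool.Agent.Lib.MP_ed661f_ag.G

open Pool.Agent.Lib.MP_6b2d39_ag

namespace Collide

/-- divisibility of the coefficients by decreasing powers is stable under translations by
multiples -/
theorem pow_dvd_taylor {R : Type*} [CommRing R] {u δ : R} (hδ : u ∣ δ) {m : ℕ} {g : R[X]}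
    (hg : ∀ k, u ^ (m - k) ∣ g.coeff k) (j : ℕ) : u ^ (m - j) ∣ (taylor δ g).coeff j := by
  rw [taylor_coeff, eval_eq_sum_range]
  refine Finset.dvd_sum fun i _ => ?_
  rw [hasseDeriv_coeff]
  obtain ⟨e, he⟩ := hg (i + j)
  obtain ⟨v, hv⟩ := hδ
  have h1 : u ^ (m - j) ∣ u ^ (m - (i + j)) * u ^ i := by
    rw [← pow_add]
    exact pow_dvd_pow _ (by omega)
  refine h1.trans ⟨((i + j).choose j : R) * e * v ^ i, ?_⟩
  rw [he, hv, mul_pow]
  ring

/-- the rows of the matrix of conditions -/
private def row {R : Type*} [CommRing R] {n d : ℕ} {m : Fin n → ℕ} (x y : Fin n → R)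
    (j : {t : Fin n × ℕ × ℕ // t.2.1 + t.2.2 < m t.1}) (i : Transfer.Ix d) : R :=
  Transfer.entry (x j.1.1) (y j.1.1) j.1.2.1 j.1.2.2 i.1.1 i.1.2

private theorem map_minor {R R' : Type*} [CommRing R] [CommRing R'] {n d : ℕ} {m : Fin n → ℕ}
    (φ : R →+* R') (x y : Fin n → R)
    (a : Transfer.Ix d → {t : Fin n × ℕ × ℕ // t.2.1 + t.2.2 < m t.1}) :
    φ (Matrix.of fun i i' => row x y (a i) i').det =
      (Matrix.of fun i i' => row (fun v => φ (x v)) (fun v => φ (y v)) (a i) i').det := by
  rw [RingHom.map_det]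
  congr 1
  ext i i'
  simp [row, Transfer.map_entry]

/-- from points over an extension field to general points -/
theorem gen_of_field {n d : ℕ} (m : Fin n → ℕ) {K : Type} [Field K] (φ : ℂ →+* K)
    (x y : Fin n → K)
    (H : ∀ f : K[X][X], InV (d + 1) f → (∀ i, Cond (Finset.Icc 1 (m i)) (x i) (y i) f) → f = 0) :
    A.Gen d m := by
  classical
  obtain ⟨a, ha⟩ := Transfer.exists_minor (K := K) (I := Transfer.Ix d)
    (J := {t : Fin n × ℕ × ℕ // t.2.1 + t.2.2 < m t.1}) (row x y) (by
    intro c hc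
    have h0 : Transfer.ofCoeffs c = 0 := by
      apply H _ (Transfer.inV_ofCoeffs c)
      intro v
      apply Transfer.cond_ofCoeffs
      intro a b hab
      exact hc ⟨(v, a, b), hab⟩
    ext i
    rw [← Transfer.ofCoeffs_coeff_self c i, h0]
    simp)
  let Xu : Fin n → MvPolynomial (Fin n × Fin 2) ℂ := fun v => MvPolynomial.X (v, 0)
  let Yu : Fin n → MvPolynomial (Fin n × Fin 2) ℂ := fun v => MvPolynomial.X (v, 1)
  refine ⟨(Matrix.of fun i i' => row Xu Yu (a i) i').det, ?_, ?_⟩
  · intro h0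
    apply ha
    have h1 := map_minor (MvPolynomial.eval₂Hom φ (fun q : Fin n × Fin 2 =>
      if q.2 = 0 then x q.1 else y q.1)) Xu Yu a
    rw [h0, map_zero] at h1
    rw [h1]
    congr 1
    ext i i'
    simp [Xu, Yu]
  · intro p hp
    rw [map_minor] at hp
    rw [eq_bot_iff]
    intro f hf
    rw [fatSystem, Submodule.mem_inf, Submodule.mem_iInf] at hf
    obtain ⟨hfd, hfm⟩ := hf
    have hc := Transfer.eq_zero_of_minor _ a hp (fun i => f.coeff (Transfer.ex i)) (by
      rintro ⟨⟨v, a, b⟩, hab⟩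
      have h3 := Transfer.coeff_Th_eq_sum hfd (p v 0) (p v 1) a b
      have h5 := hfm v
      have h6 : p v = ![p v 0, p v 1] := by
        ext i
        fin_cases i <;> rfl
      rw [Submodule.restrictScalars_mem, h6] at h5
      have h7 := Transfer.Th_mem_wt _ _ _ h5 a b hab
      rw [h3] at h7
      rw [← h7]
      refine Finset.sum_congr rfl fun i _ => ?_
      simp only [row, Xu, Yu, MvPolynomial.eval_X])
    rw [Submodule.mem_bot, Transfer.eq_sum_monomial hfd]
    refine Finset.sum_eq_zero fun i _ => ?_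
    rw [show f.coeff (Transfer.ex i) = 0 from congrFun hc i, map_zero]

/-- a section is a Taylor expansion -/
theorem F_eq_taylor {K : Type*} [Field K] (S : Finset (ℕ × ℕ)) (c : ℕ × ℕ → K) (ξ : K[X]) :
    F S c X ξ = taylor ξ (∑ s ∈ S, monomial s.2 (monomial s.1 (c s))) := by
  rw [F, map_sum]
  refine Finset.sum_congr rfl fun s _ => ?_
  rw [taylor_monomial, C_mul_X_pow_eq_monomial, add_comm (C ξ) X]

/-- a polynomial of degree at most `d` from its coefficients -/
theorem eq_sum_of_inV {K : Type*} [Field K] {d : ℕ} {f : K[X][X]} (hf : InV (d + 1) f) :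
    ∑ s ∈ simplex (d + 1), monomial s.2 (monomial s.1 ((f.coeff s.2).coeff s.1)) = f := by
  ext j i
  rw [finsetSum_coeff, finsetSum_coeff]
  have h : ∀ s ∈ simplex (d + 1),
      (((monomial s.2 (monomial s.1 ((f.coeff s.2).coeff s.1)) : K[X][X]).coeff j).coeff i) =
      if s = (i, j) then (f.coeff j).coeff i else 0 := by
    rintro ⟨a, b⟩ _
    simp only [coeff_monomial, Prod.mk.injEq]
    by_cases h1 : b = j
    · subst h1
      rw [if_pos rfl, coeff_monomial]
      by_cases h2 : a = i
      · subst h2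
        simp
      · simp [h2]
    · simp [h1]
  rw [Finset.sum_congr rfl h, Finset.sum_ite_eq']
  split_ifs with h1
  · rfl
  · rw [mem_simplex] at h1
    simp only [not_lt] at h1
    rw [hf j i (by omega)]

/-- the specialisation `t → 0` -/
theorem good_field {n m d : ℕ} {ζ : ℂ[X]}
    (h : G.Good (simplex (d + 1)) X ζ (fun i j => i + n * j < n * m))
    {L : Type} [Field L] [Algebra ℂ[X] L] [IsFractionRing ℂ[X] L]
    (f : L[X][X]) (hf : InV (d + 1) f)
    (hc : ∀ i : Fin n, Cond (Finset.Icc 1 m)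
      (algebraMap ℂ[X] L (ζ.comp (C (i : ℂ) * X))) (algebraMap ℂ[X] L (C (i : ℂ) * X)) f) :
    f = 0 := by
  by_contra hne
  have hinj : Function.Injective (algebraMap ℂ[X] L) := IsFractionRing.injective _ _
  obtain ⟨c, hc0, g, hg, hg0⟩ := exists_primitive (K := ℂ) f hne
  have hgV : InV (d + 1) g := by
    apply InV.of_map hinj
    rw [hg]
    exact hf.C_mul c
  have hgC : ∀ i : Fin n, Cond (Finset.Icc 1 m) (ζ.comp (C (i : ℂ) * X)) (C (i : ℂ) * X) g := by
    intro i
    apply Cond.of_map hinj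
    rw [hg]
    exact (hc i).C_mul c
  -- expansion along the curve
  set Z : ℂ[X][X] := ζ.map C with hZ
  have h1 : ∀ (i : Fin n) (j : ℕ), (X - C (C (i : ℂ) * X)) ^ (m - j) ∣
      (taylor Z g).coeff j := by
    intro i
    have h2 : taylor Z g =
        taylor (Z - C (ζ.comp (C (i : ℂ) * X))) (taylor (C (ζ.comp (C (i : ℂ) * X))) g) := by
      rw [taylor_taylor]
      congr 1
      rw [sub_add_cancel]
    rw [h2]
    refine pow_dvd_taylor ?_ ?_
    · rw [dvd_iff_isRoot, IsRoot.def, eval_sub, eval_C, hZ, eval_map, sub_eq_zero]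
      rfl
    · intro k
      have := hgC i k
      rwa [Transfer.colH_Icc] at this
  have h3 : ∀ j, (∏ i : Fin n, (X - C (C (i : ℂ) * X) : ℂ[X][X])) ^ (m - j) ∣
      (taylor Z g).coeff j := by
    intro j
    have hmon : ((∏ i : Fin n, (X - C (C (i : ℂ) * X) : ℂ[X][X])) ^ (m - j)).Monic :=
      (monic_prod_of_monic _ _ fun i _ => monic_X_sub_C _).pow _
    rw [← map_dvd_map (algebraMap ℂ[X] L) hinj hmon, ← Finset.prod_pow, Polynomial.map_prod]
    refine Finset.prod_dvd_of_coprime ?_ ?_
    · intro i _ i' _ hii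
      simp only [Function.onFun, Polynomial.map_pow, Polynomial.map_sub, map_X, map_C]
      refine IsCoprime.pow ?_
      refine pairwise_coprime_X_sub_C (s := fun v : Fin n => algebraMap ℂ[X] L (C (v : ℂ) * X))
        ?_ hii
      intro v w hvw
      have h4 := hinj hvw
      have h5 := congrArg (fun q : ℂ[X] => q.coeff 1) h4
      simp at h5
      exact Fin.ext h5
    · intro i _
      exact Polynomial.map_dvd (algebraMap ℂ[X] L) (h1 i j)
  -- specialisation
  set g0 : ℂ[X][X] := g.map (mapRingHom (sp ℂ)) with hg0def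
  have hg0V : InV (d + 1) g0 := hgV.map (sp ℂ)
  have h4 : ∀ j, X ^ (n * (m - j)) ∣ (taylor ζ g0).coeff j := by
    intro j
    have h5 := Polynomial.map_dvd (sp ℂ) (h3 j)
    have h6 : (taylor ζ g0).coeff j = ((taylor Z g).coeff j).map (sp ℂ) := by
      have h7 : taylor ζ g0 = (taylor Z g).map (mapRingHom (sp ℂ)) := by
        rw [map_taylor, hg0def]
        congr 1
        rw [hZ, coe_mapRingHom, Polynomial.map_map]
        have : (sp ℂ).comp C = RingHom.id ℂ := by
          ext <;> simp
        rw [this, Polynomial.map_id]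
      rw [h7, coeff_map, coe_mapRingHom]
    rw [h6]
    refine dvd_trans (dvd_of_eq ?_) h5
    rw [Polynomial.map_pow, Polynomial.map_prod]
    simp only [Polynomial.map_sub, map_X, map_C]
    have : ∀ i : Fin n, (X - C (sp ℂ (C (i : ℂ) * X)) : ℂ[X]) = X := by
      intro i
      simp
    simp only [this, Finset.prod_const, Finset.card_univ, Fintype.card_fin, ← pow_mul]
  apply hg0
  have h5 := h (fun s => (g0.coeff s.2).coeff s.1) ?_
  · rw [← eq_sum_of_inV hg0V]
    refine Finset.sum_eq_zero fun s hs => ?_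
    rw [h5 s hs]
    simp
  · intro i j hij
    rw [F_eq_taylor, eq_sum_of_inV hg0V]
    obtain ⟨q, hq⟩ := h4 j
    rw [hq]
    rw [coeff_X_pow_mul', if_neg]
    rw [not_le]
    rcases le_or_gt m j with hmj | hmj
    · have := Nat.mul_le_mul_left n hmj
      omega
    · rw [Nat.mul_sub]
      omega

end Collide

/-- **from germs to general points** -/
theorem gen_of_good {n m d : ℕ} {ζ : ℂ[X]}
    (h : Good (simplex (d + 1)) X ζ (fun i j => i + n * j < n * m)) :
    A.Gen d (fun _ : Fin n => m) :=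
  Collide.gen_of_field (K := FractionRing ℂ[X]) _ ((algebraMap ℂ[X] _).comp C) _ _
    fun f hf hc => Collide.good_field h f hf hc

end Pool.Agent.Lib.MP_ed661f_ag.G
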