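import Mathlib

/-! Iterated differences of the logarithms of the elementary moves: definitions. -/

set_option autoImplicit false

namespace Pool.Agent.Lib.MP_ed661f_ag.G

/-- `log` of the quotient of the two elementary moves at `z` -/
noncomputable def gz (z : ℝ) : ℝ := Real.log ((z + 2) * (z + 3) / ((z + 1) * (z + 4)))

/-- iterated differences with the steps `D, 2D, 4D, …` -/
noncomputable def cub (h : ℕ → ℝ) (D : ℕ) : ℕ → ℕ → ℝ
  | 0, b => h b
  | j + 1, b => cub h D j b - cub h D j (b + 2 ^ j * D)

end Pool.Agent.Lib.MP_ed661f_ag.G
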