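import Mathlib
import Pool.Agent.Lib.MP_ed661f_ag.G.Cub

/-! Bounds for the iterated differences of the logarithm. -/

set_option autoImplicit false

namespace Pool.Agent.Lib.MP_ed661f_ag.G

/-- iterated differences with the steps of the list -/
noncomputable def dl : List ℝ → (ℝ → ℝ) → ℝ → ℝ
  | [], f, z => f z
  | t :: hs, f, z => dl hs f z - dl hs f (z + t)

theorem dl_hasDerivAt {f f' : ℝ → ℝ} (hf : ∀ z, 0 < z → HasDerivAt f (f' z) z) (hs : List ℝ)
    (h0 : ∀ t ∈ hs, 0 ≤ t) : ∀ z, 0 < z → HasDerivAt (dl hs f) (dl hs f' z) z := by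
  induction hs with
  | nil => exact hf
  | cons t hs ih =>
    intro z hz
    have h1 := ih (fun t' ht' => h0 t' (List.mem_cons_of_mem _ ht'))
    have ht : 0 ≤ t := h0 t List.mem_cons_self
    have h2 := h1 (z + t) (by linarith)
    have h3 : HasDerivAt (fun y => dl hs f (y + t)) (dl hs f' (z + t)) z := by
      have := h2.comp_add_const z t
      exact this
    exact (h1 z hz).sub h3

theorem dl_const_mul (c : ℝ) (f : ℝ → ℝ) (hs : List ℝ) :
    ∀ z, dl hs (fun y => c * f y) z = c * dl hs f z := by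
  induction hs with
  | nil => intro z; rfl
  | cons t hs ih =>
    intro z
    simp only [dl, ih]
    ring

/-- mean value theorem for the outer difference -/
theorem dl_cons {f f' : ℝ → ℝ} (hf : ∀ z, 0 < z → HasDerivAt f (f' z) z) {hs : List ℝ}
    (h0 : ∀ t ∈ hs, 0 ≤ t) {t : ℝ} (ht : 0 < t) {z : ℝ} (hz : 0 < z) :
    ∃ c, z ≤ c ∧ c ≤ z + t ∧ dl (t :: hs) f z = -(t * dl hs f' c) := by
  have hd := dl_hasDerivAt hf hs h0
  obtain ⟨c, hc, hc'⟩ := exists_hasDerivAt_eq_slope (dl hs f) (dl hs f') (a := z) (b := z + t)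
    (by linarith) (fun x hx => (hd x (lt_of_lt_of_le hz hx.1)).continuousAt.continuousWithinAt)
    (fun x hx => hd x (lt_trans hz hx.1))
  refine ⟨c, hc.1.le, hc.2.le, ?_⟩
  rw [eq_div_iff (by linarith)] at hc'
  simp only [dl]
  linarith

theorem hasDerivAt_inv_pow (p : ℕ) {z : ℝ} (hz : 0 < z) :
    HasDerivAt (fun y : ℝ => (y ^ p)⁻¹) (-(p : ℝ) * (z ^ (p + 1))⁻¹) z := by
  have h1 : HasDerivAt (fun y : ℝ => y ^ p) ((p : ℝ) * z ^ (p - 1)) z := by
    simpa using hasDerivAt_pow p z
  have h2 : HasDerivAt (fun y : ℝ => (y ^ p)⁻¹) (-((p : ℝ) * z ^ (p - 1)) / (z ^ p) ^ 2) z :=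
    h1.inv (pow_ne_zero p hz.ne')
  have h3 : -(p : ℝ) * (z ^ (p + 1))⁻¹ = -((p : ℝ) * z ^ (p - 1)) / (z ^ p) ^ 2 := by
    rcases Nat.eq_zero_or_pos p with rfl | hp
    · simp
    · obtain ⟨q, rfl⟩ : ∃ q, p = q + 1 := ⟨p - 1, by omega⟩
      have hz' := hz.ne'
      rw [Nat.add_sub_cancel]
      field_simp
      ring
  rw [h3]
  exact h2

theorem dl_pow_bounds (hs : List ℝ) (h0 : ∀ t ∈ hs, 0 ≤ t) : ∀ (p : ℕ) (z : ℝ), 0 < z →
    (p.ascFactorial hs.length : ℝ) * hs.prod / (z + hs.sum) ^ (p + hs.length) ≤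
        dl hs (fun y => (y ^ p)⁻¹) z ∧
      dl hs (fun y => (y ^ p)⁻¹) z ≤
        (p.ascFactorial hs.length : ℝ) * hs.prod / z ^ (p + hs.length) := by
  induction hs with
  | nil =>
    intro p z hz
    simp [dl]
  | cons t hs ih =>
    intro p z hz
    have ht : 0 ≤ t := h0 t List.mem_cons_self
    have h0' : ∀ t ∈ hs, 0 ≤ t := fun t' ht' => h0 t' (List.mem_cons_of_mem _ ht')
    have hsum : 0 ≤ hs.sum := List.sum_nonneg h0'
    have hprod : 0 ≤ hs.prod := List.prod_nonneg h0'
    rcases ht.eq_or_lt with rfl | ht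
    · simp [dl]
    obtain ⟨c, hc1, hc2, hc⟩ := dl_cons (f := fun y : ℝ => (y ^ p)⁻¹)
      (f' := fun z => -(p : ℝ) * (z ^ (p + 1))⁻¹) (fun z hz => hasDerivAt_inv_pow p hz) h0' ht hz
    have hcpos : 0 < c := lt_of_lt_of_le hz hc1
    obtain ⟨h1, h2⟩ := ih h0' (p + 1) c hcpos
    rw [hc, dl_const_mul]
    have hasc : ((p.ascFactorial (t :: hs).length : ℕ) : ℝ) =
        p * ((p + 1).ascFactorial hs.length : ℕ) := by
      rw [List.length_cons, Nat.ascFactorial_succ, ← Nat.succ_ascFactorial p hs.length]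
      push_cast
      ring
    have hlen : p + (t :: hs).length = p + 1 + hs.length := by
      rw [List.length_cons]
      omega
    have hpt : 0 ≤ (p : ℝ) * t := by positivity
    rw [hasc, hlen, List.prod_cons, List.sum_cons]
    constructor
    · have h3 : ((p + 1).ascFactorial hs.length : ℝ) * hs.prod /
          (z + (t + hs.sum)) ^ (p + 1 + hs.length) ≤
          ((p + 1).ascFactorial hs.length : ℝ) * hs.prod / (c + hs.sum) ^ (p + 1 + hs.length) := by
        apply div_le_div_of_nonneg_left (by positivity) (by positivity)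
        apply pow_le_pow_left₀ (by positivity)
        linarith
      calc (p : ℝ) * ((p + 1).ascFactorial hs.length : ℝ) * (t * hs.prod) /
            (z + (t + hs.sum)) ^ (p + 1 + hs.length) =
            (p : ℝ) * t * (((p + 1).ascFactorial hs.length : ℝ) * hs.prod /
              (z + (t + hs.sum)) ^ (p + 1 + hs.length)) := by ring
        _ ≤ (p : ℝ) * t * dl hs (fun y => (y ^ (p + 1))⁻¹) c :=
            mul_le_mul_of_nonneg_left (h3.trans h1) hpt
        _ = -(t * (-(p : ℝ) * dl hs (fun y => (y ^ (p + 1))⁻¹) c)) := by ring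
    · have h3 : ((p + 1).ascFactorial hs.length : ℝ) * hs.prod / c ^ (p + 1 + hs.length) ≤
          ((p + 1).ascFactorial hs.length : ℝ) * hs.prod / z ^ (p + 1 + hs.length) := by
        apply div_le_div_of_nonneg_left (by positivity) (by positivity)
        exact pow_le_pow_left₀ hz.le hc1 _
      calc -(t * (-(p : ℝ) * dl hs (fun y => (y ^ (p + 1))⁻¹) c)) =
            (p : ℝ) * t * dl hs (fun y => (y ^ (p + 1))⁻¹) c := by ring
        _ ≤ (p : ℝ) * t * (((p + 1).ascFactorial hs.length : ℝ) * hs.prod /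
              z ^ (p + 1 + hs.length)) := mul_le_mul_of_nonneg_left (h2.trans h3) hpt
        _ = _ := by ring

theorem dl_log_bounds {t : ℝ} {hs : List ℝ} (ht : 0 ≤ t) (h0 : ∀ t ∈ hs, 0 ≤ t) {z : ℝ}
    (hz : 0 < z) :
    (hs.length.factorial : ℝ) * (t :: hs).prod / (z + (t :: hs).sum) ^ (hs.length + 1) ≤
        -dl (t :: hs) Real.log z ∧
      -dl (t :: hs) Real.log z ≤
        (hs.length.factorial : ℝ) * (t :: hs).prod / z ^ (hs.length + 1) := by
  have hsum : 0 ≤ hs.sum := List.sum_nonneg h0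
  have hprod : 0 ≤ hs.prod := List.prod_nonneg h0
  rcases ht.eq_or_lt with rfl | ht
  · simp [dl]
  obtain ⟨c, hc1, hc2, hc⟩ := dl_cons (f := Real.log) (f' := fun z => (z ^ 1)⁻¹)
    (fun z hz => by simpa using Real.hasDerivAt_log hz.ne') h0 ht hz
  have hcpos : 0 < c := lt_of_lt_of_le hz hc1
  obtain ⟨h1, h2⟩ := dl_pow_bounds hs h0 1 c hcpos
  rw [hc, neg_neg, List.prod_cons, List.sum_cons]
  rw [Nat.one_ascFactorial, add_comm 1 hs.length] at h1 h2
  constructor
  · have h3 : (hs.length.factorial : ℝ) * hs.prod / (z + (t + hs.sum)) ^ (hs.length + 1) ≤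
        (hs.length.factorial : ℝ) * hs.prod / (c + hs.sum) ^ (hs.length + 1) := by
      apply div_le_div_of_nonneg_left (by positivity) (by positivity)
      apply pow_le_pow_left₀ (by positivity)
      linarith
    calc (hs.length.factorial : ℝ) * (t * hs.prod) / (z + (t + hs.sum)) ^ (hs.length + 1) =
          t * ((hs.length.factorial : ℝ) * hs.prod / (z + (t + hs.sum)) ^ (hs.length + 1)) := by
            ring
      _ ≤ _ := mul_le_mul_of_nonneg_left (h3.trans h1) ht.le
  · have h3 : (hs.length.factorial : ℝ) * hs.prod / c ^ (hs.length + 1) ≤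
        (hs.length.factorial : ℝ) * hs.prod / z ^ (hs.length + 1) := by
      apply div_le_div_of_nonneg_left (by positivity) (by positivity)
      exact pow_le_pow_left₀ hz.le hc1 _
    calc t * dl hs (fun z => (z ^ 1)⁻¹) c ≤
          t * ((hs.length.factorial : ℝ) * hs.prod / z ^ (hs.length + 1)) :=
            mul_le_mul_of_nonneg_left (h2.trans h3) ht.le
      _ = _ := by ring

/-- the outer step of `cub` at the level `j` -/
noncomputable def cubHead (D : ℕ) : ℕ → ℝ
  | 0 => 1
  | j + 1 => 4 * 2 ^ j * (D : ℝ)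

/-- the other steps of `cub` at the level `j` -/
noncomputable def cubTail (D : ℕ) : ℕ → List ℝ
  | 0 => [2]
  | j + 1 => cubHead D j :: cubTail D j

theorem cubHead_nonneg (D j : ℕ) : 0 ≤ cubHead D j := by
  cases j with
  | zero => exact zero_le_one
  | succ j =>
    simp only [cubHead]
    positivity

theorem cubTail_nonneg (D j : ℕ) : ∀ t ∈ cubTail D j, 0 ≤ t := by
  induction j with
  | zero =>
    intro t ht
    simp only [cubTail, List.mem_singleton] at ht
    rw [ht]
    norm_num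
  | succ j ih =>
    intro t ht
    simp only [cubTail, List.mem_cons] at ht
    rcases ht with rfl | ht
    · exact cubHead_nonneg D j
    · exact ih t ht

theorem cubTail_length (D j : ℕ) : (cubTail D j).length = j + 1 := by
  induction j with
  | zero => rfl
  | succ j ih => simp [cubTail, ih]

theorem cub_prod (D j : ℕ) : (cubHead D j :: cubTail D j).prod =
    2 * (4 * (D : ℝ)) ^ j * 2 ^ (j * (j - 1) / 2) := by
  induction j with
  | zero => simp [cubHead, cubTail]
  | succ j ih =>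
    rw [List.prod_cons]
    have h1 : cubTail D (j + 1) = cubHead D j :: cubTail D j := rfl
    rw [h1, ih, Nat.triangle_succ]
    simp only [cubHead]
    rw [pow_add, pow_succ]
    ring

theorem cub_sum (D j : ℕ) : (cubHead D j :: cubTail D j).sum =
    3 + 4 * (D : ℝ) * (2 ^ j - 1) := by
  induction j with
  | zero =>
    simp [cubHead, cubTail]
    norm_num
  | succ j ih =>
    rw [List.sum_cons]
    have h1 : cubTail D (j + 1) = cubHead D j :: cubTail D j := rfl
    rw [h1, ih]
    simp only [cubHead]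
    rw [pow_succ]
    ring

theorem gz_eq {z : ℝ} (hz : 0 ≤ z) : gz z = -dl [1, 2] Real.log (z + 1) := by
  unfold gz
  simp only [dl]
  rw [Real.log_div (by positivity) (by positivity), Real.log_mul (by positivity) (by positivity),
    Real.log_mul (by positivity) (by positivity)]
  have h1 : z + 1 + 1 = z + 2 := by ring
  have h2 : z + 1 + 2 = z + 3 := by ring
  have h3 : z + 2 + 2 = z + 4 := by ring
  rw [h1, h2, h3]
  ring

theorem cub_eq (z0 D j : ℕ) : ∀ b : ℕ, cub (fun b => gz (z0 + 4 * b)) D j b =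
    -dl (cubHead D j :: cubTail D j) Real.log ((z0 : ℝ) + 4 * b + 1) := by
  induction j with
  | zero =>
    intro b
    simp only [cub, cubHead, cubTail]
    exact gz_eq (by positivity)
  | succ j ih =>
    intro b
    have h1 : cubTail D (j + 1) = cubHead D j :: cubTail D j := rfl
    have h2 : (z0 : ℝ) + 4 * ((b + 2 ^ j * D : ℕ) : ℝ) + 1 =
        (z0 : ℝ) + 4 * b + 1 + 4 * 2 ^ j * (D : ℝ) := by
      push_cast
      ring
    simp only [cub]
    rw [ih, ih, h1, h2]
    simp only [dl, cubHead]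
    ring

theorem cub_bounds (z0 D j b : ℕ) :
    ((j + 1).factorial : ℝ) * (2 * (4 * (D : ℝ)) ^ j * 2 ^ (j * (j - 1) / 2)) /
        ((z0 : ℝ) + 4 * b + 4 + 4 * D * (2 ^ j - 1)) ^ (j + 2) ≤
      cub (fun b => gz (z0 + 4 * b)) D j b ∧
    cub (fun b => gz (z0 + 4 * b)) D j b ≤
      ((j + 1).factorial : ℝ) * (2 * (4 * (D : ℝ)) ^ j * 2 ^ (j * (j - 1) / 2)) /
        ((z0 : ℝ) + 4 * b + 1) ^ (j + 2) := by
  have h := dl_log_bounds (cubHead_nonneg D j) (cubTail_nonneg D j)
    (z := (z0 : ℝ) + 4 * b + 1) (by positivity)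
  rw [← cub_eq, cub_prod, cub_sum, cubTail_length] at h
  have h1 : (z0 : ℝ) + 4 * b + 1 + (3 + 4 * (D : ℝ) * (2 ^ j - 1)) =
      (z0 : ℝ) + 4 * b + 4 + 4 * D * (2 ^ j - 1) := by ring
  rw [h1] at h
  exact h

end Pool.Agent.Lib.MP_ed661f_ag.G
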