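import Mathlib
import Pool.Agent.Lib.MP_6b2d39_ag.Transfer

/-! The abstract compression step. -/

set_option autoImplicit false

open Polynomial

namespace Pool.Agent.Lib.MP_ed661f_ag.G

open Pool.Agent.Lib.MP_6b2d39_ag

section vandermonde

variable {K : Type*} [Field K] [CharZero K] {α : Type*}

omit [CharZero K] in
private theorem mul_choose' (s j : ℕ) :
    (s : K) * (s.choose j : K) = (j + 1 : K) * (s.choose (j + 1) : K) + j * (s.choose j : K) := by
  have h := Nat.choose_succ_right_eq s j
  rcases le_or_gt j s with hj | hj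
  · have h2 : (s.choose (j + 1) : K) * (j + 1) = s.choose j * ((s : K) - j) := by
      rw [← Nat.cast_sub hj]
      exact_mod_cast congrArg (fun t : ℕ => (t : K)) h
    linear_combination -h2
  · rw [Nat.choose_eq_zero_of_lt hj, Nat.choose_eq_zero_of_lt (by omega)]
    simp

omit [CharZero K] in
private theorem sum_pow_choose' (T : Finset α) (s : α → ℕ) (w : α → K) (M : ℕ)
    (h : ∀ a : ℕ, a < M → ∑ i ∈ T, ((s i).choose a : K) * w i = 0) :
    ∀ a j : ℕ, a + j < M →
      ∑ i ∈ T, (s i : K) ^ a * ((s i).choose j : K) * w i = 0 := by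
  intro a
  induction a with
  | zero =>
    intro j hj
    simpa using h j (by omega)
  | succ a ih =>
    intro j hj
    have h1 := ih (j + 1) (by omega)
    have h2 := ih j (by omega)
    have : ∑ i ∈ T, (s i : K) ^ (a + 1) * ((s i).choose j : K) * w i =
        (j + 1 : K) * ∑ i ∈ T, (s i : K) ^ a * ((s i).choose (j + 1) : K) * w i +
        j * ∑ i ∈ T, (s i : K) ^ a * ((s i).choose j : K) * w i := by
      rw [Finset.mul_sum, Finset.mul_sum, ← Finset.sum_add_distrib]
      refine Finset.sum_congr rfl fun i _ => ?_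
      linear_combination (s i : K) ^ a * w i * mul_choose' (K := K) (s i) j
    rw [this, h1, h2]
    simp

/-- a vector on `T` killed by the first `card T` binomial functionals vanishes -/
theorem eq_zero_of_choose (T : Finset α) (k : α → ℕ)
    (hk : ∀ s ∈ T, ∀ s' ∈ T, k s = k s' → s = s') (w : α → K)
    (h : ∀ a : ℕ, a < T.card → ∑ s ∈ T, ((k s).choose a : K) * w s = 0) :
    ∀ s ∈ T, w s = 0 := by
  have h1 : ∀ a : ℕ, a < T.card → ∑ s ∈ T, (k s : K) ^ a * w s = 0 := by
    intro a ha
    simpa using sum_pow_choose' T k w T.card h a 0 (by omega)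
  let e : Fin T.card ≃ T := T.equivFin.symm
  have h2 : (fun j => w (e j)) = (0 : Fin T.card → K) := by
    refine Matrix.eq_zero_of_forall_pow_sum_mul_pow_eq_zero (f := fun j => (k (e j) : K)) ?_ ?_
    · intro i j hij
      have h3 : k (e i) = k (e j) := Nat.cast_injective (R := K) hij
      exact e.injective (Subtype.ext (hk _ (e i).2 _ (e j).2 h3))
    · intro i
      have h3 := h1 i i.2
      rw [← Finset.sum_coe_sort, ← e.sum_comp] at h3
      rw [← h3]
      exact Finset.sum_congr rfl fun j _ => mul_comm _ _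
  intro s hs
  have h3 := congrFun h2 (e.symm ⟨s, hs⟩)
  simpa using h3

/-- all binomial functions on `T` are combinations of the first `card T` ones -/
theorem exists_choose_comb (T : Finset α) (k : α → ℕ)
    (hk : ∀ s ∈ T, ∀ s' ∈ T, k s = k s' → s = s') (l : ℕ) :
    ∃ u : ℕ → K, ∀ s ∈ T,
      ((k s).choose l : K) = ∑ i ∈ Finset.range T.card, u i * ((k s).choose i : K) := by
  classical
  let e : Fin T.card ≃ T := T.equivFin.symm
  let M : Matrix (Fin T.card) (Fin T.card) K := fun j i => ((k (e j)).choose i : K)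
  have hM : M.det ≠ 0 := by
    intro h0
    obtain ⟨v, hv, hv0⟩ := Matrix.exists_vecMul_eq_zero_iff.2 h0
    apply hv
    have h1 := eq_zero_of_choose (K := K) T k hk
      (fun s => if hs : s ∈ T then v (e.symm ⟨s, hs⟩) else 0) (by
        intro a ha
        have h2 := congrFun hv0 ⟨a, ha⟩
        rw [Matrix.vecMul, dotProduct] at h2
        rw [← Finset.sum_coe_sort, ← e.sum_comp]
        rw [Pi.zero_apply] at h2
        rw [← h2]
        refine Finset.sum_congr rfl fun j _ => ?_
        simp [M, mul_comm])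
    ext j
    have h3 := h1 (e j) (e j).2
    simpa using h3
  have hu : IsUnit M.det := isUnit_iff_ne_zero.2 hM
  let b : Fin T.card → K := fun j => ((k (e j)).choose l : K)
  have hb : M.mulVec (M⁻¹.mulVec b) = b := by
    rw [Matrix.mulVec_mulVec, Matrix.mul_nonsing_inv _ hu, Matrix.one_mulVec]
  refine ⟨fun i => if hi : i < T.card then M⁻¹.mulVec b ⟨i, hi⟩ else 0, fun s hs => ?_⟩
  have h1 := congrFun hb (e.symm ⟨s, hs⟩)
  simp only [b, Equiv.apply_symm_apply] at h1
  rw [← h1, Matrix.mulVec, dotProduct, Finset.sum_range]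
  refine Finset.sum_congr rfl fun i _ => ?_
  simp [M, mul_comm, b]

end vandermonde

/-- abstract compression step -/
theorem abstract_step {K : Type*} [Field K] [CharZero K] {α β J : Type*} [DecidableEq β]
    (S : Finset α) (g : α → β) (k : α → ℕ)
    (hk : ∀ s ∈ S, ∀ s' ∈ S, g s = g s' → k s = k s' → s = s') (ψ : J → β → ℕ → K)
    (h : ∀ a : β → ℕ → K,
      (∀ j, ∑ E ∈ S.image g, ∑ i ∈ Finset.range (S.filter fun s => g s = E).card,
        ψ j E i * a E i = 0) →
      ∀ E ∈ S.image g, ∀ i < (S.filter fun s => g s = E).card, a E i = 0) :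
    ∃ l : K, l ≠ 0 ∧ ∀ c : α → K,
      (∀ j, ∑ s ∈ S, c s * ∑ i ∈ Finset.range (k s + 1),
        ((k s).choose i : K) * l ^ i * ψ j (g s) i = 0) → ∀ s ∈ S, c s = 0 := by
  classical
  obtain ⟨n, hn⟩ : ∃ n : β → ℕ, n = fun E => (S.filter fun s => g s = E).card := ⟨_, rfl⟩
  have hn' : ∀ E, (S.filter fun s => g s = E).card = n E := fun E => by rw [hn]
  simp only [hn'] at h
  have hk' : ∀ E, ∀ s ∈ S.filter (fun s => g s = E), ∀ s' ∈ S.filter (fun s => g s = E),
      k s = k s' → s = s' := by
    intro E s hs s' hs' hss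
    rw [Finset.mem_filter] at hs hs'
    exact hk s hs.1 s' hs'.1 (hs.2.trans hs'.2.symm) hss
  -- the interpolation coefficients
  have hex : ∀ (E : β) (l : ℕ), ∃ u : ℕ → K, (∀ s ∈ S.filter (fun s => g s = E),
      ((k s).choose l : K) = ∑ i ∈ Finset.range (n E), u i * ((k s).choose i : K)) ∧
      (l < n E → ∀ i, u i = if i = l then 1 else 0) := by
    intro E l
    by_cases hl : l < n E
    · refine ⟨fun i => if i = l then 1 else 0, fun s _ => ?_, fun _ i => rfl⟩
      simp [hl]
    · obtain ⟨u, hu⟩ := exists_choose_comb (K := K) _ k (hk' E) l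
      rw [hn'] at hu
      exact ⟨u, hu, fun h => absurd h hl⟩
  choose u hu hu1 using hex
  obtain ⟨L, hL⟩ : ∃ L : ℕ, L = S.sup k + 1 + S.card := ⟨_, rfl⟩
  have hLk : ∀ s ∈ S, k s + 1 ≤ L := by
    intro s hs
    have := Finset.le_sup (f := k) hs
    omega
  have hLn : ∀ E, n E ≤ L := by
    intro E
    have : n E ≤ S.card := by
      rw [← hn']
      exact Finset.card_filter_le _ _
    omega
  let I : Finset (Σ _ : β, ℕ) := (S.image g).sigma fun E => Finset.range (n E)
  let P : J → I → K[X] := fun j p =>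
    ∑ l ∈ Finset.range L, C (u p.1.1 l p.1.2 * ψ j p.1.1 l) * X ^ (l - p.1.2)
  have hmem : ∀ p : I, p.1.1 ∈ S.image g ∧ p.1.2 < n p.1.1 := by
    intro p
    have := p.2
    rw [Finset.mem_sigma, Finset.mem_range] at this
    exact this
  have hPe : ∀ (j : J) (p : I) (z : K), (P j p).eval z =
      ∑ l ∈ Finset.range L, u p.1.1 l p.1.2 * ψ j p.1.1 l * z ^ (l - p.1.2) := by
    intro j p z
    simp only [P, eval_finsetSum, eval_mul, eval_C, eval_pow, eval_X]
  have hP0 : ∀ (j : J) (p : I), (P j p).eval 0 = ψ j p.1.1 p.1.2 := by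
    intro j p
    rw [hPe, Finset.sum_eq_single p.1.2]
    · rw [hu1 _ _ (hmem p).2, if_pos rfl, Nat.sub_self, pow_zero]
      ring
    · intro l _ hl
      rcases lt_or_gt_of_ne hl with h1 | h1
      · rw [hu1 _ _ (h1.trans (hmem p).2), if_neg (Ne.symm hl)]
        ring
      · rw [zero_pow (by omega)]
        ring
    · intro h1
      exact absurd (Finset.mem_range.2 (lt_of_lt_of_le (hmem p).2 (hLn _))) h1
  have hsum : ∀ f : β → ℕ → K, ∑ p : I, f p.1.1 p.1.2 =
      ∑ E ∈ S.image g, ∑ i ∈ Finset.range (n E), f E i := by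
    intro f
    rw [Finset.sum_coe_sort I fun q => f q.1 q.2, Finset.sum_sigma]
  -- a nonzero minor at `0`
  obtain ⟨a, ha⟩ := Transfer.exists_minor (K := K) (I := I) (J := J)
    (fun j p => (P j p).eval 0) (by
    intro c hc
    have h1 := h (fun E i => if hp : (⟨E, i⟩ : Σ _ : β, ℕ) ∈ I then c ⟨⟨E, i⟩, hp⟩ else 0) (by
      intro j
      rw [← hsum]
      refine Eq.trans (Finset.sum_congr rfl fun p _ => ?_) (hc j)
      rw [hP0, dif_pos p.2])
    ext p
    have h2 := h1 p.1.1 (hmem p).1 p.1.2 (hmem p).2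
    rw [dif_pos p.2] at h2
    exact h2)
  -- the minor as a polynomial
  let Δ : K[X] := (Matrix.of fun i i' => P (a i) i').det
  have hΔ : ∀ z : K, Δ.eval z = (Matrix.of fun i i' => (P (a i) i').eval z).det := by
    intro z
    have := RingHom.map_det (Polynomial.evalRingHom z) (Matrix.of fun i i' => P (a i) i')
    rw [Polynomial.coe_evalRingHom] at this
    rw [this]
    rfl
  have hΔ0 : Δ ≠ 0 := by
    intro h0
    apply ha
    rw [← hΔ, h0, eval_zero]
  obtain ⟨z, hz⟩ : ∃ z, (X * Δ).eval z ≠ 0 := by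
    by_contra hcon
    push Not at hcon
    exact mul_ne_zero X_ne_zero hΔ0 (Polynomial.funext fun z => by simpa using hcon z)
  rw [eval_mul, eval_X] at hz
  have hz0 : z ≠ 0 := left_ne_zero_of_mul hz
  have hz1 := right_ne_zero_of_mul hz
  rw [hΔ] at hz1
  refine ⟨z, hz0, fun c hc => ?_⟩
  -- the Taylor coefficients
  let B : β → ℕ → K := fun E i =>
    ∑ s ∈ S.filter (fun s => g s = E), ((k s).choose i : K) * c s
  have hB : ∀ E l, B E l = ∑ i ∈ Finset.range (n E), u E l i * B E i := by
    intro E l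
    simp only [B, Finset.mul_sum]
    rw [Finset.sum_comm]
    refine Finset.sum_congr rfl fun s hs => ?_
    rw [hu E l s hs, Finset.sum_mul]
    exact Finset.sum_congr rfl fun i _ => by ring
  have hkey : (fun p : I => z ^ p.1.2 * B p.1.1 p.1.2) = 0 := by
    refine Transfer.eq_zero_of_minor (K := K) (fun j p => (P j p).eval z) a hz1 _ fun j => ?_
    rw [← hc j]
    have h1 : ∑ p : I, (P j p).eval z * (z ^ p.1.2 * B p.1.1 p.1.2) =
        ∑ p : I, (fun E i => ∑ l ∈ Finset.range L,
          u E l i * ψ j E l * z ^ l * B E i) p.1.1 p.1.2 := by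
      refine Finset.sum_congr rfl fun p _ => ?_
      rw [hPe, Finset.sum_mul]
      refine Finset.sum_congr rfl fun l _ => ?_
      rcases lt_or_ge l p.1.2 with hl | hl
      · rw [hu1 _ _ (hl.trans (hmem p).2), if_neg (by omega)]
        ring
      · rw [show z ^ l = z ^ (l - p.1.2) * z ^ p.1.2 by rw [← pow_add, Nat.sub_add_cancel hl]]
        ring
    refine (h1.trans (hsum (fun E i => ∑ l ∈ Finset.range L,
      u E l i * ψ j E l * z ^ l * B E i))).trans ?_
    have h2 : ∑ s ∈ S, c s * ∑ i ∈ Finset.range (k s + 1),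
        ((k s).choose i : K) * z ^ i * ψ j (g s) i =
        ∑ s ∈ S, ∑ l ∈ Finset.range L, c s * (((k s).choose l : K) * z ^ l * ψ j (g s) l) := by
      refine Finset.sum_congr rfl fun s hs => ?_
      rw [Finset.mul_sum]
      refine Finset.sum_subset (Finset.range_subset_range.2 (hLk s hs)) fun i _ hi => ?_
      rw [Finset.mem_range, not_lt] at hi
      rw [Nat.choose_eq_zero_of_lt (by omega)]
      simp
    rw [h2, ← Finset.sum_fiberwise_of_maps_to (fun s hs => Finset.mem_image_of_mem g hs)]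
    refine Finset.sum_congr rfl fun E _ => ?_
    rw [Finset.sum_comm]
    have h3 : ∀ l, ∑ s ∈ S.filter (fun s => g s = E),
        c s * (((k s).choose l : K) * z ^ l * ψ j (g s) l) = z ^ l * ψ j E l * B E l := by
      intro l
      simp only [B, Finset.mul_sum]
      refine Finset.sum_congr rfl fun s hs => ?_
      rw [(Finset.mem_filter.1 hs).2]
      ring
    rw [Finset.sum_comm (s := S.filter fun s => g s = E)]
    refine Finset.sum_congr rfl fun l _ => ?_
    rw [h3, hB, Finset.mul_sum]
    exact Finset.sum_congr rfl fun i _ => by ring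
  intro s hs
  have hE : g s ∈ S.image g := Finset.mem_image_of_mem g hs
  refine eq_zero_of_choose (K := K) (S.filter fun s' => g s' = g s) k (hk' (g s)) c ?_ s
    (Finset.mem_filter.2 ⟨hs, rfl⟩)
  intro i hi
  rw [hn'] at hi
  have h4 := congrFun hkey ⟨⟨g s, i⟩, Finset.mem_sigma.2 ⟨hE, Finset.mem_range.2 hi⟩⟩
  simp only [Pi.zero_apply, mul_eq_zero] at h4
  rcases h4 with h4 | h4
  · exact absurd h4 (pow_ne_zero _ hz0)
  · exact h4

end Pool.Agent.Lib.MP_ed661f_ag.G
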