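import Pool.Agent.Lib.MP_ed661f_ag.G.Cub

/-! Greedy subset sums over hypercubes (task N2). -/

set_option autoImplicit false

namespace Pool.Agent.Lib.MP_ed661f_ag.G

/-- every target in `[lo, hi]` is approximated from below, up to `η`, by a subset sum -/
def Complete (h : ℕ → ℝ) (η : ℝ) (U : Finset ℕ) (lo hi : ℝ) : Prop :=
  ∀ τ, lo ≤ τ → τ ≤ hi → ∃ E ⊆ U, τ - η ≤ ∑ b ∈ E, h b ∧ ∑ b ∈ E, h b ≤ τ

namespace Complete

/-- the two colour classes of a cube -/
theorem cube (h : ℕ → ℝ) {D : ℕ} (hD : 1 ≤ D) : ∀ j b : ℕ, ∃ P Q : Finset ℕ, Disjoint P Q ∧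
    (∀ x ∈ P ∪ Q, ∃ m < 2 ^ j, x = b + D * m) ∧
    ∑ x ∈ P, h x - ∑ x ∈ Q, h x = cub h D j b ∧
    ∑ x ∈ P, h x + ∑ x ∈ Q, h x = ∑ m ∈ Finset.range (2 ^ j), h (b + D * m) := by
  intro j
  induction j with
  | zero =>
    intro b
    refine ⟨{b}, ∅, Finset.disjoint_empty_right _, ?_, ?_, ?_⟩
    · intro x hx
      rw [Finset.union_empty, Finset.mem_singleton] at hx
      exact ⟨0, by norm_num, by rw [hx]; ring⟩
    · simp [cub]
    · simp
  | succ j ih =>
    intro b
    obtain ⟨P1, Q1, hd1, hm1, hs1, ht1⟩ := ih b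
    obtain ⟨P2, Q2, hd2, hm2, hs2, ht2⟩ := ih (b + 2 ^ j * D)
    have hdd : Disjoint (P1 ∪ Q1) (P2 ∪ Q2) := by
      rw [Finset.disjoint_left]
      intro x hx hx'
      obtain ⟨m, hm, hxm⟩ := hm1 x hx
      obtain ⟨m', hm', hxm'⟩ := hm2 x hx'
      have h1 : D * m < D * 2 ^ j := Nat.mul_lt_mul_of_pos_left hm hD
      have h2 : 2 ^ j * D = D * 2 ^ j := Nat.mul_comm _ _
      omega
    rw [Finset.disjoint_union_left, Finset.disjoint_union_right, Finset.disjoint_union_right]
      at hdd
    obtain ⟨⟨hPP, hPQ⟩, hQP, hQQ⟩ := hdd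
    refine ⟨P1 ∪ Q2, Q1 ∪ P2, ?_, ?_, ?_, ?_⟩
    · rw [Finset.disjoint_union_left, Finset.disjoint_union_right, Finset.disjoint_union_right]
      exact ⟨⟨hd1, hPP⟩, hQQ.symm, hd2.symm⟩
    · intro x hx
      have hx' : x ∈ P1 ∪ Q1 ∨ x ∈ P2 ∪ Q2 := by
        simp only [Finset.mem_union] at hx ⊢
        tauto
      rcases hx' with hx' | hx'
      · obtain ⟨m, hm, hxm⟩ := hm1 x hx'
        exact ⟨m, by rw [pow_succ]; omega, hxm⟩
      · obtain ⟨m, hm, hxm⟩ := hm2 x hx'
        exact ⟨2 ^ j + m, by rw [pow_succ]; omega, by rw [hxm]; ring⟩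
    · rw [Finset.sum_union hPQ, Finset.sum_union hQP, cub, ← hs1, ← hs2]
      ring
    · rw [Finset.sum_union hPQ, Finset.sum_union hQP, pow_succ, mul_two, Finset.sum_range_add,
        ← ht1]
      have h3 : ∑ x ∈ Finset.range (2 ^ j), h (b + D * (2 ^ j + x)) =
          ∑ m ∈ Finset.range (2 ^ j), h (b + 2 ^ j * D + D * m) := by
        apply Finset.sum_congr rfl
        intro m _
        congr 1
        ring
      rw [h3, ← ht2]
      ring

theorem sum_blocks (g : ℕ → ℝ) (D M : ℕ) :
    ∑ i ∈ Finset.range (M * D), g i =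
      ∑ l ∈ Finset.range D, ∑ m ∈ Finset.range M, g (l + D * m) := by
  induction M with
  | zero => simp
  | succ M ih =>
    rw [Nat.succ_mul, Finset.sum_range_add, ih, ← Finset.sum_add_distrib]
    apply Finset.sum_congr rfl
    intro l _
    rw [Finset.sum_range_succ]
    congr 2
    ring

theorem sum_Ico (h : ℕ → ℝ) (j D B : ℕ) :
    ∑ b ∈ Finset.Ico B (B + 2 ^ j * D), h b =
      ∑ l ∈ Finset.range D, ∑ m ∈ Finset.range (2 ^ j), h (B + l + D * m) := by
  rw [Finset.sum_Ico_eq_sum_range, Nat.add_sub_cancel_left, sum_blocks]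
  apply Finset.sum_congr rfl
  intro l _
  apply Finset.sum_congr rfl
  intro m _
  congr 1
  ring

/-- adding one cube -/
theorem add_cube {h : ℕ → ℝ} {η : ℝ} {V P Q : Finset ℕ} {lo hi : ℝ}
    (hc : Complete h η V lo hi) (hVP : Disjoint V P) (hVQ : Disjoint V Q)
    (hle : ∑ x ∈ P, h x - ∑ x ∈ Q, h x ≤ hi - lo) :
    Complete h η (V ∪ (P ∪ Q)) (lo + ∑ x ∈ Q, h x) (hi + ∑ x ∈ P, h x) := by
  intro τ h1 h2
  rcases le_total τ (hi + ∑ x ∈ Q, h x) with h3 | h3
  · obtain ⟨E, hE, h4, h5⟩ := hc (τ - ∑ x ∈ Q, h x) (by linarith) (by linarith)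
    refine ⟨E ∪ Q, Finset.union_subset_union hE Finset.subset_union_right, ?_, ?_⟩
    · rw [Finset.sum_union (hVQ.mono_left hE)]
      linarith
    · rw [Finset.sum_union (hVQ.mono_left hE)]
      linarith
  · obtain ⟨E, hE, h4, h5⟩ := hc (τ - ∑ x ∈ P, h x) (by linarith) (by linarith)
    refine ⟨E ∪ P, Finset.union_subset_union hE Finset.subset_union_left, ?_, ?_⟩
    · rw [Finset.sum_union (hVP.mono_left hE)]
      linarith
    · rw [Finset.sum_union (hVP.mono_left hE)]
      linarith

theorem mono {h : ℕ → ℝ} {η : ℝ} {V V' : Finset ℕ} {lo hi lo' hi' : ℝ}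
    (hc : Complete h η V lo hi) (hV : V ⊆ V') (h1 : lo ≤ lo') (h2 : hi' ≤ hi) :
    Complete h η V' lo' hi' := by
  intro τ h3 h4
  obtain ⟨E, hE, h5⟩ := hc τ (h1.trans h3) (h4.trans h2)
  exact ⟨E, hE.trans hV, h5⟩

end Complete

theorem complete_level {h : ℕ → ℝ} (hh : ∀ b, 0 ≤ h b) {η : ℝ} {U : Finset ℕ} {lo hi : ℝ}
    (hc : Complete h η U lo hi) (hlo : lo ≤ hi) (j D B : ℕ)
    (hU : ∀ u ∈ U, B + 2 ^ j * D ≤ u)
    (hG : ∀ l < D, 0 ≤ cub h D j (B + l) ∧ cub h D j (B + l) ≤ hi - lo) :
    Complete h η (Finset.Ico B (B + 2 ^ j * D) ∪ U)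
      (lo + (∑ b ∈ Finset.Ico B (B + 2 ^ j * D), h b -
        ∑ l ∈ Finset.range D, cub h D j (B + l)) / 2)
      (hi + (∑ b ∈ Finset.Ico B (B + 2 ^ j * D), h b +
        ∑ l ∈ Finset.range D, cub h D j (B + l)) / 2) := by
  have _ := hh
  have _ := hlo
  rcases Nat.eq_zero_or_pos D with hD | hD
  · subst hD
    simpa using hc
  · have key : ∀ n ≤ D, Complete h η
        ((Finset.Ico B (B + 2 ^ j * D)).filter (fun x => (x - B) % D < n) ∪ U)
        (lo + ∑ l ∈ Finset.range n,
          (∑ m ∈ Finset.range (2 ^ j), h (B + l + D * m) - cub h D j (B + l)) / 2)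
        (hi + ∑ l ∈ Finset.range n,
          (∑ m ∈ Finset.range (2 ^ j), h (B + l + D * m) + cub h D j (B + l)) / 2) := by
      intro n hn
      induction n with
      | zero =>
        refine hc.mono Finset.subset_union_right ?_ ?_
        · simp
        · simp
      | succ n ih =>
        have ih' := ih (by omega)
        obtain ⟨P, Q, -, hm, hs, ht⟩ := Complete.cube h hD j (B + n)
        have hPQ : ∀ x ∈ P ∪ Q, x ∈ Finset.Ico B (B + 2 ^ j * D) ∧ (x - B) % D = n := by
          intro x hx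
          obtain ⟨m, hm', rfl⟩ := hm x hx
          have h1 : D * (m + 1) ≤ D * 2 ^ j := Nat.mul_le_mul_left D hm'
          have h2 : 2 ^ j * D = D * 2 ^ j := Nat.mul_comm _ _
          have h3 : D * (m + 1) = D * m + D := by ring
          constructor
          · rw [Finset.mem_Ico]
            omega
          · have h4 : B + n + D * m - B = n + D * m := by omega
            rw [h4, Nat.add_mul_mod_self_left, Nat.mod_eq_of_lt (by omega)]
        have hdisj : Disjoint
            ((Finset.Ico B (B + 2 ^ j * D)).filter (fun x => (x - B) % D < n) ∪ U) (P ∪ Q) := by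
          rw [Finset.disjoint_left]
          intro x hx hx'
          obtain ⟨h1, h2⟩ := hPQ x hx'
          rw [Finset.mem_union, Finset.mem_filter] at hx
          rw [Finset.mem_Ico] at h1
          rcases hx with hx | hx
          · omega
          · have := hU x hx
            omega
        rw [Finset.disjoint_union_right] at hdisj
        have hge : ∑ l ∈ Finset.range n,
            (∑ m ∈ Finset.range (2 ^ j), h (B + l + D * m) - cub h D j (B + l)) / 2 ≤
            ∑ l ∈ Finset.range n,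
            (∑ m ∈ Finset.range (2 ^ j), h (B + l + D * m) + cub h D j (B + l)) / 2 := by
          apply Finset.sum_le_sum
          intro l hl
          rw [Finset.mem_range] at hl
          have := (hG l (by omega)).1
          linarith
        have hcub := hG n (by omega)
        have h5 := Complete.add_cube ih' hdisj.1 hdisj.2 (by rw [hs]; linarith)
        refine h5.mono ?_ ?_ ?_
        · intro x hx
          rw [Finset.mem_union, Finset.mem_union] at hx
          rw [Finset.mem_union]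
          rcases hx with (hx | hx) | hx
          · left
            rw [Finset.mem_filter] at hx ⊢
            exact ⟨hx.1, by omega⟩
          · exact Or.inr hx
          · left
            obtain ⟨h1, h2⟩ := hPQ x hx
            rw [Finset.mem_filter]
            exact ⟨h1, by omega⟩
        · rw [Finset.sum_range_succ]
          linarith
        · rw [Finset.sum_range_succ]
          linarith
    refine (key D le_rfl).mono ?_ ?_ ?_
    · exact Finset.union_subset_union (Finset.filter_subset _ _) (Finset.Subset.refl _)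
    · rw [Complete.sum_Ico, ← Finset.sum_div, Finset.sum_sub_distrib]
    · rw [Complete.sum_Ico, ← Finset.sum_div, Finset.sum_add_distrib]

theorem cub_sum_le {h : ℕ → ℝ} (hh : ∀ b, 0 ≤ h b) (j D B : ℕ) :
    ∑ l ∈ Finset.range D, cub h D j (B + l) ≤ ∑ b ∈ Finset.Ico B (B + 2 ^ j * D), h b := by
  rcases Nat.eq_zero_or_pos D with hD | hD
  · subst hD
    simp
  · rw [Complete.sum_Ico]
    apply Finset.sum_le_sum
    intro l _
    obtain ⟨P, Q, -, -, hs, ht⟩ := Complete.cube h hD j (B + l)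
    rw [← hs, ← ht]
    have : 0 ≤ ∑ x ∈ Q, h x := Finset.sum_nonneg (fun x _ => hh x)
    linarith

end Pool.Agent.Lib.MP_ed661f_ag.G
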