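import Pool.Agent.Lib.MP_ed661f_ag.G.Complete

/-! Adding the levels one after the other. -/

set_option autoImplicit false

namespace Pool.Agent.Lib.MP_ed661f_ag.G

private lemma levels_aux {h : ℕ → ℝ} (hh : ∀ b, 0 ≤ h b) (D J nb : ℕ) (mx mn : ℕ → ℝ)
    (hmx : ∀ j b, j ≤ J → b + (2 ^ j - 1) * D < nb → cub h D j b ≤ mx j)
    (hmn : ∀ j b, j ≤ J → b + (2 ^ j - 1) * D < nb → mn j ≤ cub h D j b)
    (hmn0 : ∀ j, 0 ≤ mn j) (hlev : ∀ j < J, mx j ≤ D * mn (j + 1))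
    (hn : 2 ^ (J + 1) * D ≤ nb) (hmxJ : 0 ≤ mx J) (k : ℕ) :
    ∀ j : ℕ, j + k = J → ∃ lo hi : ℝ,
      Complete h (mx J) (Finset.Ico (nb - (2 ^ (J + 1) - 2 ^ (j + 1)) * D) nb) lo hi ∧
      lo ≤ ∑ b ∈ Finset.Ico (nb - (2 ^ (J + 1) - 2 ^ (j + 1)) * D) nb, h b ∧
      0 ≤ hi ∧ mx j ≤ hi - lo ∧ lo ≤ hi := by
  induction k with
  | zero =>
    intro j hj
    have hjJ : j = J := by omega
    subst hjJ
    refine ⟨0, mx j, ?_, ?_, hmxJ, by simp, hmxJ⟩
    · intro τ h0 h1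
      exact ⟨∅, Finset.empty_subset _, by simpa using h1, by simpa using h0⟩
    · exact Finset.sum_nonneg fun b _ => hh b
  | succ k ih =>
    intro j hj
    obtain ⟨lo, hi, hc, hlo, hhi, hd, hle⟩ := ih (j + 1) (by omega)
    have hjJ : j + 1 ≤ J := by omega
    -- arithmetic of the positions
    obtain ⟨r, hr⟩ : ∃ r, 2 ^ (J + 1) = 2 * 2 ^ (j + 1) + r := by
      have : 2 ^ (j + 1 + 1) ≤ 2 ^ (J + 1) := Nat.pow_le_pow_right (by norm_num) (by omega)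
      exact ⟨2 ^ (J + 1) - 2 ^ (j + 1 + 1), by rw [pow_succ] at this ⊢; omega⟩
    obtain ⟨s, hs⟩ := Nat.exists_eq_add_of_le hn
    have hB : nb - (2 ^ (J + 1) - 2 ^ (j + 1)) * D = 2 ^ (j + 1) * D + s := by
      have e1 : 2 ^ (J + 1) - 2 ^ (j + 1) = 2 ^ (j + 1) + r := by omega
      rw [e1, hs, hr]
      have : (2 * 2 ^ (j + 1) + r) * D + s = (2 ^ (j + 1) + r) * D + (2 ^ (j + 1) * D + s) := by
        ring
      omega
    have hB2 : nb - (2 ^ (J + 1) - 2 ^ (j + 1 + 1)) * D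
        = 2 ^ (j + 1) * D + s + 2 ^ (j + 1) * D := by
      have e1 : 2 ^ (J + 1) - 2 ^ (j + 1 + 1) = r := by
        rw [pow_succ 2 (j + 1)]; omega
      rw [e1, hs, hr]
      have : (2 * 2 ^ (j + 1) + r) * D + s
          = r * D + (2 ^ (j + 1) * D + s + 2 ^ (j + 1) * D) := by ring
      omega
    have hBnb : 2 ^ (j + 1) * D + s + 2 ^ (j + 1) * D ≤ nb := by
      rw [← hB2]; exact Nat.sub_le _ _
    rw [hB2] at hc hlo
    rw [hB]
    set B := 2 ^ (j + 1) * D + s with hBdef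
    -- the cubes of level `j + 1` based in `[B, B + D)`
    have hpos : ∀ l < D, B + l + (2 ^ (j + 1) - 1) * D < nb := by
      intro l hl
      have h2 : 1 ≤ 2 ^ (j + 1) := Nat.one_le_two_pow
      have e : 2 ^ (j + 1) * D = (2 ^ (j + 1) - 1) * D + D := by
        conv_lhs => rw [show 2 ^ (j + 1) = (2 ^ (j + 1) - 1) + 1 by omega]
        ring
      omega
    have hGmn : ∀ l < D, mn (j + 1) ≤ cub h D (j + 1) (B + l) := fun l hl =>
      hmn (j + 1) (B + l) hjJ (hpos l hl)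
    have hG : ∀ l < D, 0 ≤ cub h D (j + 1) (B + l) ∧
        cub h D (j + 1) (B + l) ≤ hi - lo := fun l hl =>
      ⟨(hmn0 _).trans (hGmn l hl), (hmx (j + 1) (B + l) hjJ (hpos l hl)).trans hd⟩
    have hlevel := complete_level hh hc hle (j + 1) D B
      (fun u hu => (Finset.mem_Ico.mp hu).1) hG
    have hU : Finset.Ico B (B + 2 ^ (j + 1) * D) ∪ Finset.Ico (B + 2 ^ (j + 1) * D) nb
        = Finset.Ico B nb := Finset.Ico_union_Ico_eq_Ico (by omega) hBnb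
    rw [hU] at hlevel
    have hGsum : D * mn (j + 1) ≤ ∑ l ∈ Finset.range D, cub h D (j + 1) (B + l) := by
      have := Finset.card_nsmul_le_sum (Finset.range D) (fun l => cub h D (j + 1) (B + l))
        (mn (j + 1)) (fun l hl => hGmn l (Finset.mem_range.mp hl))
      simpa using this
    have hG0 : 0 ≤ ∑ l ∈ Finset.range D, cub h D (j + 1) (B + l) :=
      Finset.sum_nonneg fun l hl => (hG l (Finset.mem_range.mp hl)).1
    have hS0 : 0 ≤ ∑ b ∈ Finset.Ico B (B + 2 ^ (j + 1) * D), h b :=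
      Finset.sum_nonneg fun b _ => hh b
    have hsplit : ∑ b ∈ Finset.Ico B nb, h b = ∑ b ∈ Finset.Ico B (B + 2 ^ (j + 1) * D), h b
        + ∑ b ∈ Finset.Ico (B + 2 ^ (j + 1) * D) nb, h b :=
      (Finset.sum_Ico_consecutive h (by omega) hBnb).symm
    have hlv := hlev j (by omega)
    refine ⟨_, _, hlevel, ?_, ?_, ?_, ?_⟩
    · rw [hsplit]; linarith
    · linarith
    · linarith
    · linarith

theorem complete_all {h : ℕ → ℝ} (hh : ∀ b, 0 ≤ h b) (D J nb : ℕ) (mx mn : ℕ → ℝ)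
    (hmx : ∀ j b, j ≤ J → b + (2 ^ j - 1) * D < nb → cub h D j b ≤ mx j)
    (hmn : ∀ j b, j ≤ J → b + (2 ^ j - 1) * D < nb → mn j ≤ cub h D j b)
    (hmn0 : ∀ j, 0 ≤ mn j) (hlev : ∀ j < J, mx j ≤ D * mn (j + 1))
    (hn : 2 ^ (J + 1) * D ≤ nb) (hD : 1 ≤ D) :
    ∃ lo hi : ℝ, Complete h (mx J) (Finset.range nb) lo hi ∧
      lo ≤ ∑ b ∈ Finset.Ico (nb - (2 ^ (J + 1) - 2) * D) nb, h b ∧
      ∑ b ∈ Finset.range (nb - (2 ^ (J + 1) - 2) * D), h b ≤ hi := by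
  have hmxJ : 0 ≤ mx J := by
    have hp : 0 + (2 ^ J - 1) * D < nb := by
      have h2 : 1 ≤ 2 ^ J := Nat.one_le_two_pow
      have h3 : (2 ^ J - 1) * D < 2 ^ (J + 1) * D :=
        Nat.mul_lt_mul_of_pos_right (by rw [pow_succ]; omega) hD
      omega
    exact (hmn0 J).trans ((hmn J 0 le_rfl hp).trans (hmx J 0 le_rfl hp))
  obtain ⟨lo, hi, hc, hlo, hhi, hd, hle⟩ :=
    levels_aux hh D J nb mx mn hmx hmn hmn0 hlev hn hmxJ J 0 (by omega)
  rw [show (2 : ℕ) ^ (0 + 1) = 2 by norm_num] at hc hlo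
  set nc := nb - (2 ^ (J + 1) - 2) * D with hnc
  have hncnb : nc ≤ nb := Nat.sub_le _ _
  have hlevel := complete_level hh hc hle 0 nc 0
    (fun u hu => by
      have := (Finset.mem_Ico.mp hu).1
      simpa using this)
    (fun l hl => by
      refine ⟨by simpa [cub] using hh l, ?_⟩
      have h1 := hmx 0 l (Nat.zero_le _) (by simpa using lt_of_lt_of_le hl hncnb)
      simp only [cub, Nat.zero_add] at h1 ⊢
      exact h1.trans hd)
  have hU : Finset.Ico 0 (0 + 2 ^ 0 * nc) ∪ Finset.Ico nc nb = Finset.range nb := by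
    rw [show 0 + 2 ^ 0 * nc = nc by simp, Finset.Ico_union_Ico_eq_Ico (Nat.zero_le _) hncnb]
    simp
  rw [hU] at hlevel
  have hs1 : ∑ b ∈ Finset.Ico 0 (0 + 2 ^ 0 * nc), h b = ∑ b ∈ Finset.range nc, h b := by
    rw [show 0 + 2 ^ 0 * nc = nc by simp]; simp
  have hs2 : ∑ l ∈ Finset.range nc, cub h nc 0 (0 + l) = ∑ b ∈ Finset.range nc, h b := by
    simp [cub]
  rw [hs1, hs2] at hlevel
  refine ⟨_, _, hlevel, ?_, ?_⟩
  · linarith
  · linarith

end Pool.Agent.Lib.MP_ed661f_ag.G
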