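import Mathlib

/-!
Sections supported on a finite set of exponents, germs of smooth curves, and the two compression
operations (multi-level germ criterion).
-/

set_option autoImplicit false

open Polynomial

namespace Pool.Agent.Lib.MP_ed661f_ag.G

/-- The section with coefficients `c` on the exponent set `S`, written in the coordinates
`(x, ξ + w)`: an element of `K[τ][w]`; here `x` and `ξ` are polynomials in `τ`. -/
noncomputable def F {K : Type*} [Field K] (S : Finset (ℕ × ℕ)) (c : ℕ × ℕ → K) (x ξ : K[X]) :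
    K[X][X] :=
  ∑ s ∈ S, C (C (c s) * x ^ s.1) * (C ξ + X) ^ s.2

/-- The conditions `I` (on the exponents `(i, j)` of `τ^i w^j`) kill every section supported on
`S`. -/
def Good {K : Type*} [Field K] (S : Finset (ℕ × ℕ)) (x ξ : K[X]) (I : ℕ → ℕ → Prop) : Prop :=
  ∀ c : ℕ × ℕ → K, (∀ i j, I i j → ((F S c x ξ).coeff j).coeff i = 0) → ∀ s ∈ S, c s = 0

/-- Compression along the lines `D + ρ k = E`: the points on each line are replaced by
`(E, 0), …, (E, n_E - 1)`. -/
def Phi (ρ : ℕ) (S : Finset (ℕ × ℕ)) : Finset (ℕ × ℕ) :=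
  (S.image fun s => s.1 + ρ * s.2).biUnion fun E =>
    (Finset.range (S.filter fun s => s.1 + ρ * s.2 = E).card).image fun i => (E, i)

/-- Compression of the rows: the points of height `b` are replaced by `(0, b), …, (s_b - 1, b)`. -/
def Psi (S : Finset (ℕ × ℕ)) : Finset (ℕ × ℕ) :=
  (S.image Prod.snd).biUnion fun b =>
    (Finset.range (S.filter fun s => s.2 = b).card).image fun i => (i, b)

/-- the exponents of the polynomials of degree `< N` -/
def simplex (N : ℕ) : Finset (ℕ × ℕ) :=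
  (Finset.range N ×ˢ Finset.range N).filter fun s => s.1 + s.2 < N

theorem mem_simplex {N : ℕ} {s : ℕ × ℕ} : s ∈ simplex N ↔ s.1 + s.2 < N := by
  simp only [simplex, Finset.mem_filter, Finset.mem_product, Finset.mem_range]
  omega

theorem mem_Phi {ρ : ℕ} {S : Finset (ℕ × ℕ)} {s : ℕ × ℕ} :
    s ∈ Phi ρ S ↔ s.2 < (S.filter fun u => u.1 + ρ * u.2 = s.1).card := by
  obtain ⟨E, i⟩ := s
  simp only [Phi, Finset.mem_biUnion, Finset.mem_image, Finset.mem_range, Prod.mk.injEq]
  constructor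
  · rintro ⟨E', -, i', hi', rfl, rfl⟩
    exact hi'
  · intro h
    refine ⟨E, ?_, i, h, rfl, rfl⟩
    obtain ⟨u, hu⟩ := Finset.card_pos.1 (lt_of_le_of_lt (Nat.zero_le _) h)
    rw [Finset.mem_filter] at hu
    exact ⟨u, hu.1, hu.2⟩

theorem mem_Psi {S : Finset (ℕ × ℕ)} {s : ℕ × ℕ} :
    s ∈ Psi S ↔ s.1 < (S.filter fun u => u.2 = s.2).card := by
  obtain ⟨i, b⟩ := s
  simp only [Psi, Finset.mem_biUnion, Finset.mem_image, Finset.mem_range, Prod.mk.injEq]
  constructor
  · rintro ⟨b', -, i', hi', rfl, rfl⟩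
    exact hi'
  · intro h
    refine ⟨b, ?_, i, h, rfl, rfl⟩
    obtain ⟨u, hu⟩ := Finset.card_pos.1 (lt_of_le_of_lt (Nat.zero_le _) h)
    rw [Finset.mem_filter] at hu
    exact ⟨u, hu.1, hu.2⟩

theorem F_congr {K : Type*} [Field K] {S : Finset (ℕ × ℕ)} {c c' : ℕ × ℕ → K} {x ξ : K[X]}
    (h : ∀ s ∈ S, c s = c' s) : F S c x ξ = F S c' x ξ := by
  unfold F
  exact Finset.sum_congr rfl fun s hs => by rw [h s hs]

/-- the coefficients of a section are linear in `c` -/
theorem coeff_F {K : Type*} [Field K] (S : Finset (ℕ × ℕ)) (c : ℕ × ℕ → K) (x ξ : K[X])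
    (i j : ℕ) : ((F S c x ξ).coeff j).coeff i =
      ∑ s ∈ S, c s * ((C (x ^ s.1) * (C ξ + X) ^ s.2 : K[X][X]).coeff j).coeff i := by
  unfold F
  rw [finset_sum_coeff, finset_sum_coeff]
  refine Finset.sum_congr rfl fun s _ => ?_
  rw [C_mul, mul_assoc, coeff_C_mul, coeff_C_mul]

theorem Good.mono {K : Type*} [Field K] {S S' : Finset (ℕ × ℕ)} {x ξ : K[X]} {I : ℕ → ℕ → Prop}
    (h : Good S x ξ I) (hS : S' ⊆ S) : Good S' x ξ I := by
  classical
  intro c hc s hs
  have h1 := h (fun s => if s ∈ S' then c s else 0) (fun i j hij => ?_) s (hS hs)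
  · simpa [hs] using h1
  · refine Eq.trans ?_ (hc i j hij)
    rw [coeff_F, coeff_F]
    have h2 : ∑ s ∈ S', c s * ((C (x ^ s.1) * (C ξ + X) ^ s.2 : K[X][X]).coeff j).coeff i =
        ∑ s ∈ S', (if s ∈ S' then c s else 0) *
          ((C (x ^ s.1) * (C ξ + X) ^ s.2 : K[X][X]).coeff j).coeff i :=
      Finset.sum_congr rfl fun s hs => by rw [if_pos hs]
    rw [h2]
    exact (Finset.sum_subset hS fun s _ hs => by rw [if_neg hs, zero_mul]).symm

theorem Good.mono_right {K : Type*} [Field K] {S : Finset (ℕ × ℕ)} {x ξ : K[X]}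
    {I I' : ℕ → ℕ → Prop} (h : Good S x ξ I) (hI : ∀ i j, I i j → I' i j) : Good S x ξ I' :=
  fun c hc => h c fun i j hij => hc i j (hI i j hij)

end Pool.Agent.Lib.MP_ed661f_ag.G
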