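import Mathlib

/-! The level conditions. -/

set_option autoImplicit false

namespace Pool.Agent.Lib.MP_ed661f_ag.G

theorem levels_aux1 (k : ℕ) : 64 * (k + 26) ^ 2 ≤ 2 ^ (k + 25) := by
  induction k with
  | zero => norm_num
  | succ k ih =>
    have h1 : 2 ^ (k + 1 + 25) = 2 * 2 ^ (k + 25) := by
      rw [show k + 1 + 25 = (k + 25) + 1 by ring, pow_succ]
      ring
    rw [h1]
    have h2 : 64 * (k + 1 + 26) ^ 2 ≤ 2 * (64 * (k + 26) ^ 2) := by
      have h3 : 2 * (64 * (k + 26) ^ 2) = 64 * (k + 1 + 26) ^ 2 + (64 * k ^ 2 + 3200 * k + 39872) := by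
        ring
      omega
    exact h2.trans (Nat.mul_le_mul_left 2 ih)

theorem levels_factorial (k : ℕ) : (k + 1).factorial ≤ (k + 1) ^ k := by
  induction k with
  | zero => simp
  | succ k ih =>
    rw [Nat.factorial_succ, pow_succ, mul_comm]
    exact Nat.mul_le_mul_right _ (ih.trans (Nat.pow_le_pow_left (Nat.le_succ _) k))

theorem levels_ratio (j : ℕ) : (17 / 10 : ℝ) ^ (j + 3) ≤ 4 * ((j : ℝ) + 2) * 2 ^ j := by
  have h1 : (17 / 10 : ℝ) ^ j ≤ 2 ^ j := pow_le_pow_left₀ (by norm_num) (by norm_num) j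
  have h2 : (0 : ℝ) ≤ (j : ℝ) := Nat.cast_nonneg j
  have h3 : (0 : ℝ) < 2 ^ j := by positivity
  rw [pow_add]
  nlinarith [mul_nonneg h2 h3.le]

/-- the level conditions, with `J = log₂ z0 / 4`, `D = √z0 + 1` -/
theorem levels (z0 nb J D : ℕ) (hz : 2 ^ 100 ≤ z0) (hJ : J = Nat.log 2 z0 / 4)
    (hD : D = Nat.sqrt z0 + 1) (h5 : 16 * z0 ≤ 10 * (z0 + 4 * nb))
    (h6 : 3 * (z0 + 4 * nb) ≤ 5 * z0) (mx mn : ℕ → ℝ)
    (hmx : mx = fun j => ((j + 1).factorial : ℝ) * (2 * (4 * (D : ℝ)) ^ j *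
      2 ^ (j * (j - 1) / 2)) / ((z0 : ℝ) + 1) ^ (j + 2))
    (hmn : mn = fun j => ((j + 1).factorial : ℝ) * (2 * (4 * (D : ℝ)) ^ j *
      2 ^ (j * (j - 1) / 2)) / ((z0 : ℝ) + 4 * nb + 4) ^ (j + 2)) :
    (∀ j < J, mx j ≤ D * mn (j + 1)) ∧ 100 * (2 ^ (J + 1) * D) ≤ z0 ∧
      mx J ≤ Real.exp (-(Real.log z0) ^ 2 / 12) := by
  have hz0 : z0 ≠ 0 := by
    intro h
    rw [h] at hz
    norm_num at hz
  have hzR : (2 : ℝ) ^ 100 ≤ z0 := by exact_mod_cast hz
  have hzpos : (0 : ℝ) < z0 := lt_of_lt_of_le (by norm_num) hzR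
  have hz1000 : (1000 : ℝ) ≤ z0 := le_trans (by norm_num) hzR
  set s := Nat.sqrt z0 with hs
  have hs1 : s * s ≤ z0 := Nat.sqrt_le z0
  have hs2 : z0 < (s + 1) * (s + 1) := Nat.lt_succ_sqrt z0
  have hlog : 100 ≤ Nat.log 2 z0 := by
    exact Nat.le_log_of_pow_le (by norm_num) hz
  have hJ25 : 25 ≤ J := by omega
  have hu4 : (2 ^ J) ^ 4 ≤ z0 := by
    rw [← pow_mul]
    exact (Nat.pow_le_pow_right (by norm_num) (by omega)).trans (Nat.pow_log_le_self 2 hz0)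
  have hu2 : 2 ^ J * 2 ^ J ≤ s := by
    rw [hs, Nat.le_sqrt]
    calc 2 ^ J * 2 ^ J * (2 ^ J * 2 ^ J) = (2 ^ J) ^ 4 := by ring
      _ ≤ z0 := hu4
  have hu400 : 400 ≤ 2 ^ J := (show 400 ≤ 2 ^ 25 by norm_num).trans
    (Nat.pow_le_pow_right (by norm_num) hJ25)
  have hs1' : 1 ≤ s := le_trans (by nlinarith) hu2
  have hD2 : (z0 : ℝ) + 1 ≤ (D : ℝ) ^ 2 := by
    have : z0 + 1 ≤ D ^ 2 := by
      rw [hD, pow_two]
      exact hs2
    exact_mod_cast this
  have hDpos : (0 : ℝ) < D := by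
    have : 0 < D := by omega
    exact_mod_cast this
  refine ⟨?_, ?_, ?_⟩
  · intro j _
    subst hmx hmn
    dsimp only
    set W : ℝ := (z0 : ℝ) + 4 * nb + 4 with hW
    have hWpos : 0 < W := by positivity
    have hWle : W ≤ 17 / 10 * ((z0 : ℝ) + 1) := by
      have h7 : (3 : ℝ) * (z0 + 4 * nb) ≤ 5 * z0 := by exact_mod_cast h6
      rw [hW]
      linarith
    have htri : (j + 1) * (j + 1 - 1) / 2 = j * (j - 1) / 2 + j := Nat.triangle_succ j
    have hfac : ((j + 1 + 1).factorial : ℝ) = ((j : ℝ) + 2) * ((j + 1).factorial : ℝ) := by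
      rw [Nat.factorial_succ (j + 1)]
      push_cast
      ring
    rw [htri, hfac]
    set G : ℝ := ((j + 1).factorial : ℝ) * (2 * (4 * (D : ℝ)) ^ j * 2 ^ (j * (j - 1) / 2)) with hG
    have hGpos : 0 < G := by positivity
    have h8 : (D : ℝ) * (((j : ℝ) + 2) * ((j + 1).factorial : ℝ) *
        (2 * (4 * (D : ℝ)) ^ (j + 1) * 2 ^ (j * (j - 1) / 2 + j)) / W ^ (j + 1 + 2)) =
        G * (4 * ((j : ℝ) + 2) * 2 ^ j * (D : ℝ) ^ 2) / W ^ (j + 3) := by
      rw [hG, pow_succ (4 * (D : ℝ)), pow_add 2 (j * (j - 1) / 2) j]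
      ring
    rw [h8, div_le_div_iff₀ (by positivity) (by positivity)]
    have h9 : W ^ (j + 3) ≤ (4 * ((j : ℝ) + 2) * 2 ^ j * (D : ℝ) ^ 2) * ((z0 : ℝ) + 1) ^ (j + 2) := by
      calc W ^ (j + 3) ≤ (17 / 10 * ((z0 : ℝ) + 1)) ^ (j + 3) :=
            pow_le_pow_left₀ hWpos.le hWle _
        _ = (17 / 10) ^ (j + 3) * (((z0 : ℝ) + 1) * ((z0 : ℝ) + 1) ^ (j + 2)) := by
            rw [mul_pow]
            ring
        _ ≤ (4 * ((j : ℝ) + 2) * 2 ^ j) * ((D : ℝ) ^ 2 * ((z0 : ℝ) + 1) ^ (j + 2)) := by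
            apply mul_le_mul (levels_ratio j) _ (by positivity) (by positivity)
            exact mul_le_mul_of_nonneg_right hD2 (by positivity)
        _ = _ := by ring
    calc G * W ^ (j + 3) ≤ G * ((4 * ((j : ℝ) + 2) * 2 ^ j * (D : ℝ) ^ 2) *
          ((z0 : ℝ) + 1) ^ (j + 2)) := mul_le_mul_of_nonneg_left h9 hGpos.le
      _ = _ := by ring
  · have h7 : D ≤ 2 * s := by omega
    calc 100 * (2 ^ (J + 1) * D) = 200 * 2 ^ J * D := by rw [pow_succ]; ring
      _ ≤ 200 * 2 ^ J * (2 * s) := Nat.mul_le_mul_left _ h7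
      _ = (400 * 2 ^ J) * s := by ring
      _ ≤ (2 ^ J * 2 ^ J) * s := Nat.mul_le_mul_right _ (Nat.mul_le_mul_right _ hu400)
      _ ≤ s * s := Nat.mul_le_mul_right _ hu2
      _ ≤ z0 := hs1
  · subst hmx
    dsimp only
    have hpos : 0 < ((J + 1).factorial : ℝ) * (2 * (4 * (D : ℝ)) ^ J *
      2 ^ (J * (J - 1) / 2)) / ((z0 : ℝ) + 1) ^ (J + 2) := by positivity
    rw [← Real.log_le_iff_le_exp hpos]
    set ℓ := Real.log z0 with hℓ
    have hl1 : 1 ≤ ℓ := by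
      rw [hℓ, Real.le_log_iff_exp_le hzpos]
      exact (Real.exp_one_lt_d9.le.trans (by norm_num)).trans hz1000
    have hJ0 : (0 : ℝ) ≤ J := Nat.cast_nonneg J
    have hlog2 : 0 < Real.log 2 := Real.log_pos one_lt_two
    have hlog2' : Real.log 2 < 0.6931471808 := Real.log_two_lt_d9
    rw [Real.log_div (by positivity) (by positivity), Real.log_mul (by positivity) (by positivity),
      Real.log_mul (by positivity) (by positivity), Real.log_mul (by positivity) (by positivity),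
      Real.log_pow, Real.log_pow, Real.log_pow]
    -- the factorial
    have hf : Real.log ((J + 1).factorial : ℝ) ≤ J * Real.log ((J : ℝ) + 1) := by
      have h1 : (J + 1).factorial ≤ (J + 1) ^ J := levels_factorial J
      have h2 : ((J + 1).factorial : ℝ) ≤ ((J : ℝ) + 1) ^ J := by exact_mod_cast h1
      rw [← Real.log_pow]
      exact Real.log_le_log (by positivity) h2
    -- 4 D
    have h4D : Real.log (4 * (D : ℝ)) ≤ 3 * Real.log 2 + ℓ / 2 := by
      have h1 : (4 * (D : ℝ)) ^ 2 ≤ 2 ^ 6 * (z0 : ℝ) := by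
        have h2 : (4 * D) ^ 2 ≤ 2 ^ 6 * z0 := by
          have h7 : D ≤ 2 * s := by omega
          calc (4 * D) ^ 2 ≤ (4 * (2 * s)) ^ 2 := Nat.pow_le_pow_left (Nat.mul_le_mul_left _ h7) 2
            _ = 2 ^ 6 * (s * s) := by ring
            _ ≤ 2 ^ 6 * z0 := Nat.mul_le_mul_left _ hs1
        exact_mod_cast h2
      have h2 := Real.log_le_log (by positivity) h1
      rw [Real.log_pow, Real.log_mul (x := (2 : ℝ) ^ 6) (by positivity) (by positivity),
        Real.log_pow] at h2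
      push_cast at h2
      linarith
    -- the triangular number
    have hT : ((J * (J - 1) / 2 : ℕ) : ℝ) ≤ (J : ℝ) * J / 2 := by
      have h1 : 2 * (J * (J - 1) / 2) ≤ J * J :=
        (Nat.mul_div_le _ _).trans (Nat.mul_le_mul_left _ (Nat.sub_le _ _))
      have h2 : (2 : ℝ) * ((J * (J - 1) / 2 : ℕ) : ℝ) ≤ (J : ℝ) * J := by exact_mod_cast h1
      linarith
    have hJl : 4 * (J : ℝ) * Real.log 2 ≤ ℓ := by
      have h1 : ((2 : ℝ) ^ J) ^ 4 ≤ z0 := by exact_mod_cast hu4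
      have h2 := Real.log_le_log (by positivity) h1
      rw [Real.log_pow, Real.log_pow] at h2
      push_cast at h2
      linarith
    have hlJ : ℓ < 4 * ((J : ℝ) + 1) * Real.log 2 := by
      have h1 : z0 < 2 ^ (4 * (J + 1)) := by
        apply Nat.lt_pow_of_log_lt (by norm_num)
        omega
      have h2 : (z0 : ℝ) < 2 ^ (4 * (J + 1)) := by exact_mod_cast h1
      have h3 := Real.log_lt_log hzpos h2
      rw [Real.log_pow] at h3
      push_cast at h3
      linarith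
    -- 8 (J + 1) ≤ z0^{1/8}
    have h8J : Real.log 2 * 3 + Real.log ((J : ℝ) + 1) ≤ ℓ / 8 := by
      obtain ⟨k, hk⟩ : ∃ k, J = k + 25 := ⟨J - 25, by omega⟩
      have h1 : (8 * ((J : ℝ) + 1)) ^ 2 ≤ 2 ^ J := by
        have h2 := levels_aux1 k
        have h3 : (64 : ℝ) * ((k : ℝ) + 26) ^ 2 ≤ 2 ^ (k + 25) := by exact_mod_cast h2
        rw [hk]
        push_cast
        calc (8 * ((k : ℝ) + 25 + 1)) ^ 2 = 64 * ((k : ℝ) + 26) ^ 2 := by ring
          _ ≤ _ := h3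
      have h2 := Real.log_le_log (by positivity) h1
      rw [Real.log_pow, Real.log_pow, Real.log_mul (by norm_num) (by positivity),
        show (8 : ℝ) = 2 ^ 3 by norm_num, Real.log_pow] at h2
      push_cast at h2
      linarith
    have hz1 : ℓ ≤ Real.log ((z0 : ℝ) + 1) := Real.log_le_log hzpos (by linarith)
    have e1 : (J : ℝ) * Real.log (4 * (D : ℝ)) ≤ J * (3 * Real.log 2 + ℓ / 2) :=
      mul_le_mul_of_nonneg_left h4D hJ0
    have e2 : ((J * (J - 1) / 2 : ℕ) : ℝ) * Real.log 2 ≤ J * ℓ / 8 := by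
      calc ((J * (J - 1) / 2 : ℕ) : ℝ) * Real.log 2 ≤ (J : ℝ) * J / 2 * Real.log 2 :=
            mul_le_mul_of_nonneg_right hT hlog2.le
        _ = J * (4 * (J : ℝ) * Real.log 2) / 8 := by ring
        _ ≤ J * ℓ / 8 := by
            apply div_le_div_of_nonneg_right _ (by norm_num)
            exact mul_le_mul_of_nonneg_left hJl hJ0
    have e3 : (J : ℝ) * (Real.log 2 * 3 + Real.log ((J : ℝ) + 1)) ≤ J * (ℓ / 8) :=
      mul_le_mul_of_nonneg_left h8J hJ0
    have e4 : ((J : ℝ) + 2) * ℓ ≤ ((J + 2 : ℕ) : ℝ) * Real.log ((z0 : ℝ) + 1) := by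
      push_cast
      exact mul_le_mul_of_nonneg_left hz1 (by positivity)
    have e5 : ℓ < 3 * ((J : ℝ) + 1) := by
      refine hlJ.trans_le ?_
      nlinarith
    nlinarith [mul_nonneg (by linarith : (0:ℝ) ≤ ℓ) (by linarith : (0:ℝ) ≤ 3 * ((J : ℝ) + 1) - ℓ)]

end Pool.Agent.Lib.MP_ed661f_ag.G
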