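import Mathlib

/-! Choice of the integer parameters of the chain. -/

set_option autoImplicit false

namespace Pool.Agent.Lib.MP_ed661f_ag.G

theorem params_sqrt (n c : ℕ) (hn : 10 ^ 8 ≤ n) (hc : c ≤ 100) :
    ∃ t : ℕ, 100 * t ^ 2 ≤ c * n ∧ c * n < 100 * (t + 1) ^ 2 ∧ 1000 * t ≤ n := by
  have h1 := Nat.sqrt_le' (c * n / 100)
  have h2 := Nat.lt_succ_sqrt' (c * n / 100)
  set t := Nat.sqrt (c * n / 100) with ht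
  have h3 : 100 * t ^ 2 ≤ c * n := by omega
  have h4 : c * n < 100 * (t + 1) ^ 2 := by
    have : c * n / 100 < (t + 1) ^ 2 := h2
    omega
  refine ⟨t, h3, h4, ?_⟩
  by_contra h5
  have h6 : n < 1000 * t := not_le.1 h5
  have h7 : c * n ≤ 100 * n := Nat.mul_le_mul_right n hc
  have h8 : t ^ 2 ≤ n := by omega
  have h9 : n * n < 1000 * t * (1000 * t) := Nat.mul_lt_mul'' h6 h6
  have h10 : 10 ^ 8 * n ≤ n * n := Nat.mul_le_mul_right n hn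
  nlinarith

theorem params_of_large (n : ℕ) (hn : 10 ^ 8 ≤ n) : ∃ a j0 j nb : ℕ,
    a ^ 2 + 2 * j0 + 4 * nb + 2 * j = n ∧ 1000 ≤ a ∧ 45 * a ^ 2 ≤ 100 * j0 ^ 2 ∧
    100 * j0 ^ 2 ≤ 55 * a ^ 2 ∧ 45 * n ≤ 100 * j ^ 2 ∧ 100 * j ^ 2 ≤ 55 * n ∧
    16 * (a ^ 2 + 2 * j0) ≤ 10 * (a ^ 2 + 2 * j0 + 4 * nb) ∧
    3 * (a ^ 2 + 2 * j0 + 4 * nb) ≤ 5 * (a ^ 2 + 2 * j0) ∧ 6 * n ≤ 10 * a ^ 2 ∧
    10 * a ^ 2 ≤ 7 * n := by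
  obtain ⟨t, t1, t2, t3⟩ := params_sqrt n 61 hn (by norm_num)
  obtain ⟨s, s1, s2, s3⟩ := params_sqrt n 49 hn (by norm_num)
  have ht : (t + 1) ^ 2 = t ^ 2 + 2 * t + 1 := by ring
  have hs : (s + 1) ^ 2 = s ^ 2 + 2 * s + 1 := by ring
  -- a
  obtain ⟨a, ha1, ha2, ha3⟩ : ∃ a : ℕ, t ≤ a ∧ a ≤ t + 1 ∧ a % 2 = n % 2 := by
    rcases Nat.mod_two_eq_zero_or_one (n + t) with h | h
    · exact ⟨t, le_rfl, by omega, by omega⟩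
    · exact ⟨t + 1, by omega, le_rfl, by omega⟩
  have a1 : t ^ 2 ≤ a ^ 2 := Nat.pow_le_pow_left ha1 2
  have a2 : a ^ 2 ≤ (t + 1) ^ 2 := Nat.pow_le_pow_left ha2 2
  have a3 : a ^ 2 % 2 = n % 2 := by
    rw [Nat.pow_mod, ha3]
    rcases Nat.mod_two_eq_zero_or_one n with h | h <;> rw [h]
  have t4 : 1000 ≤ t := by
    by_contra h
    have h1 : t ≤ 999 := by omega
    have h2 : (t + 1) ^ 2 ≤ 1000 ^ 2 := Nat.pow_le_pow_left (by omega) 2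
    omega
  -- j0
  set j0 := 7 * a / 10 with hj0
  have j1 : 10 * j0 ≤ 7 * a := by omega
  have j2 : 7 * a ≤ 10 * j0 + 9 := by omega
  -- j
  obtain ⟨j, hj1, hj2, hj3⟩ : ∃ j : ℕ, s ≤ j ∧ j ≤ s + 1 ∧ j % 2 = ((n - a ^ 2) / 2 + j0) % 2 := by
    rcases Nat.mod_two_eq_zero_or_one ((n - a ^ 2) / 2 + j0 + s) with h | h
    · exact ⟨s, le_rfl, by omega, by omega⟩
    · exact ⟨s + 1, by omega, le_rfl, by omega⟩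
  have b1 : s ^ 2 ≤ j ^ 2 := Nat.pow_le_pow_left hj1 2
  have b2 : j ^ 2 ≤ (s + 1) ^ 2 := Nat.pow_le_pow_left hj2 2
  have c1 : a ^ 2 + 2 * j0 + 2 * j ≤ n := by omega
  have c2 : (n - (a ^ 2 + 2 * j0 + 2 * j)) % 4 = 0 := by omega
  refine ⟨a, j0, j, (n - (a ^ 2 + 2 * j0 + 2 * j)) / 4, by omega, by omega, ?_, ?_, by omega,
    by omega, by omega, by omega, by omega, by omega⟩
  · have h1 : (7 * a) * (7 * a) ≤ (10 * j0 + 9) * (10 * j0 + 9) := Nat.mul_le_mul j2 j2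
    have h2 : 1000 * a ≤ a * a := Nat.mul_le_mul_right a (by omega)
    nlinarith
  · have h1 : (10 * j0) * (10 * j0) ≤ (7 * a) * (7 * a) := Nat.mul_le_mul j1 j1
    nlinarith

theorem exists_params : ∃ n0 : ℕ, ∀ n : ℕ, n0 ≤ n → ∃ a j0 j nb : ℕ,
    a ^ 2 + 2 * j0 + 4 * nb + 2 * j = n ∧ 1000 ≤ a ∧ 45 * a ^ 2 ≤ 100 * j0 ^ 2 ∧
    100 * j0 ^ 2 ≤ 55 * a ^ 2 ∧ 45 * n ≤ 100 * j ^ 2 ∧ 100 * j ^ 2 ≤ 55 * n ∧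
    16 * (a ^ 2 + 2 * j0) ≤ 10 * (a ^ 2 + 2 * j0 + 4 * nb) ∧
    3 * (a ^ 2 + 2 * j0 + 4 * nb) ≤ 5 * (a ^ 2 + 2 * j0) ∧ 6 * n ≤ 10 * a ^ 2 ∧
    10 * a ^ 2 ≤ 7 * n := by
  exact ⟨10 ^ 8, params_of_large⟩

end Pool.Agent.Lib.MP_ed661f_ag.G
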