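import Mathlib
import Pool.Agent.Lib.MP_ed661f_ag.G.Cub

/-!
Part G, task N5: the range of the subset sums.
-/

set_option autoImplicit false

namespace Pool.Agent.Lib.MP_ed661f_ag.G

private theorem stepB_log {z : ℝ} (hz : 0 < z) :
    2 * Real.log ((z + 4) / (z + 2)) ≤ Real.log ((z + 5) / (z + 1)) := by
  have h1 : 2 * Real.log ((z + 4) / (z + 2)) = Real.log (((z + 4) / (z + 2)) ^ 2) := by
    rw [Real.log_pow]; norm_num
  rw [h1]
  apply Real.log_le_log (by positivity)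
  rw [div_pow, div_le_div_iff₀ (by positivity) (by positivity)]
  nlinarith

theorem sumB_le (z0 nb : ℕ) (hz : 1 ≤ z0) :
    2 * ∑ b ∈ Finset.range nb, Real.log (((z0 : ℝ) + 4 * b + 4) / (z0 + 4 * b + 2)) ≤
      Real.log (((z0 : ℝ) + 4 * nb + 1) / (z0 + 1)) := by
  have hz' : (1 : ℝ) ≤ z0 := by exact_mod_cast hz
  induction nb with
  | zero => simp [div_self (by positivity : (z0 : ℝ) + 1 ≠ 0)]
  | succ k ih =>
    rw [Finset.sum_range_succ, mul_add]
    have h := stepB_log (z := (z0 : ℝ) + 4 * k) (by positivity)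
    have h2 : Real.log (((z0 : ℝ) + 4 * k + 1) / (z0 + 1)) +
        Real.log (((z0 : ℝ) + 4 * k + 5) / (z0 + 4 * k + 1)) =
        Real.log (((z0 : ℝ) + 4 * (k + 1 : ℕ) + 1) / (z0 + 1)) := by
      rw [← Real.log_mul (by positivity) (by positivity)]
      congr 1
      push_cast
      field_simp
      ring
    rw [← h2]
    exact add_le_add ih h

private theorem stepA_log {z : ℝ} (hz : 0 < z) :
    Real.log ((z + 4) / z) - 4 / z ^ 3 ≤ 2 * Real.log ((z + 3) / (z + 1)) := by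
  have h1 : 2 * Real.log ((z + 3) / (z + 1)) = Real.log (((z + 3) / (z + 1)) ^ 2) := by
    rw [Real.log_pow]; norm_num
  have h2 : ((z + 3) / (z + 1)) ^ 2 =
      ((z + 4) / z) * (((z + 3) ^ 2 * z) / ((z + 1) ^ 2 * (z + 4))) := by
    field_simp
  rw [h1, h2, Real.log_mul (by positivity) (by positivity)]
  have h3 := Real.one_sub_inv_le_log_of_pos
    (x := ((z + 3) ^ 2 * z) / ((z + 1) ^ 2 * (z + 4))) (by positivity)
  have h4 : 1 - (((z + 3) ^ 2 * z) / ((z + 1) ^ 2 * (z + 4)))⁻¹ = -(4 / ((z + 3) ^ 2 * z)) := by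
    field_simp
    ring
  have h5 : 4 / ((z + 3) ^ 2 * z) ≤ 4 / z ^ 3 := by
    apply div_le_div_of_nonneg_left (by norm_num) (by positivity)
    nlinarith [mul_pos hz hz, mul_pos (mul_pos hz hz) hz]
  linarith

theorem sumA_ge (z0 nb : ℕ) (hz : 1000 ≤ z0) (hnb : 4 * nb ≤ z0) :
    Real.log (((z0 : ℝ) + 4 * nb) / z0) - 4 / (z0 : ℝ) ^ 2 ≤
      2 * ∑ b ∈ Finset.range nb, Real.log (((z0 : ℝ) + 4 * b + 3) / (z0 + 4 * b + 1)) := by
  have hz' : (1000 : ℝ) ≤ z0 := by exact_mod_cast hz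
  have key : ∀ k : ℕ, Real.log (((z0 : ℝ) + 4 * k) / z0) - k * (4 / (z0 : ℝ) ^ 3) ≤
      2 * ∑ b ∈ Finset.range k, Real.log (((z0 : ℝ) + 4 * b + 3) / (z0 + 4 * b + 1)) := by
    intro k
    induction k with
    | zero => simp [div_self (by positivity : (z0 : ℝ) ≠ 0)]
    | succ k ih =>
      rw [Finset.sum_range_succ, mul_add]
      have h := stepA_log (z := (z0 : ℝ) + 4 * k) (by positivity)
      have h2 : Real.log (((z0 : ℝ) + 4 * k) / z0) +
          Real.log (((z0 : ℝ) + 4 * k + 4) / (z0 + 4 * k)) =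
          Real.log (((z0 : ℝ) + 4 * (k + 1 : ℕ)) / z0) := by
        rw [← Real.log_mul (by positivity) (by positivity)]
        congr 1
        push_cast
        field_simp
        ring
      have h3 : 4 / ((z0 : ℝ) + 4 * k) ^ 3 ≤ 4 / (z0 : ℝ) ^ 3 := by
        apply div_le_div_of_nonneg_left (by norm_num) (by positivity)
        apply pow_le_pow_left₀ (by positivity)
        have : (0 : ℝ) ≤ k := Nat.cast_nonneg k
        linarith
      rw [← h2]
      push_cast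
      have h4 : ((k : ℝ) + 1) * (4 / (z0 : ℝ) ^ 3) = k * (4 / (z0 : ℝ) ^ 3) + 4 / (z0 : ℝ) ^ 3 := by
        ring
      linarith
  have h1 := key nb
  have h2 : (nb : ℝ) * (4 / (z0 : ℝ) ^ 3) ≤ 4 / (z0 : ℝ) ^ 2 := by
    have hnb' : (4 : ℝ) * nb ≤ z0 := by exact_mod_cast hnb
    have e : 4 / (z0 : ℝ) ^ 2 = z0 * (4 / (z0 : ℝ) ^ 3) := by
      field_simp
    rw [e]
    apply mul_le_mul_of_nonneg_right _ (by positivity)
    have : (0 : ℝ) ≤ nb := Nat.cast_nonneg nb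
    linarith
  linarith

private theorem sum_gz (z0 nb : ℕ) (hz : 1 ≤ z0) :
    ∑ b ∈ Finset.range nb, gz (z0 + 4 * b) =
      ∑ b ∈ Finset.range nb, Real.log (((z0 : ℝ) + 4 * b + 3) / (z0 + 4 * b + 1)) -
      ∑ b ∈ Finset.range nb, Real.log (((z0 : ℝ) + 4 * b + 4) / (z0 + 4 * b + 2)) := by
  have hz' : (1 : ℝ) ≤ z0 := by exact_mod_cast hz
  rw [← Finset.sum_sub_distrib]
  refine Finset.sum_congr rfl fun b _ => ?_
  have hb : (0 : ℝ) ≤ b := Nat.cast_nonneg b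
  rw [gz, ← Real.log_div (by positivity) (by positivity)]
  congr 1
  field_simp

/-- the target lies well inside the range of the subset sums -/
theorem target_range (n a j0 j nb : ℕ) (hz : a ^ 2 + 2 * j0 + 4 * nb + 2 * j = n)
    (ha : 1000 ≤ a) (h1 : 45 * a ^ 2 ≤ 100 * j0 ^ 2) (h2 : 100 * j0 ^ 2 ≤ 55 * a ^ 2)
    (h3 : 45 * n ≤ 100 * j ^ 2) (h4 : 100 * j ^ 2 ≤ 55 * n)
    (h5 : 16 * (a ^ 2 + 2 * j0) ≤ 10 * (a ^ 2 + 2 * j0 + 4 * nb))
    (h6 : 3 * (a ^ 2 + 2 * j0 + 4 * nb) ≤ 5 * (a ^ 2 + 2 * j0)) (z0 : ℕ)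
    (hz0 : z0 = a ^ 2 + 2 * j0) (τ : ℝ)
    (hτ : τ = Real.log (((n : ℝ) - j) / √n) - Real.log (((a : ℝ) ^ 2 + j0) / a) -
      ∑ b ∈ Finset.range nb, Real.log (((z0 : ℝ) + 4 * b + 4) / (z0 + 4 * b + 2))) :
    1 / 40 / (z0 : ℝ) ≤ τ ∧
      τ ≤ ∑ b ∈ Finset.range nb, gz (z0 + 4 * b) - 1 / 40 / (z0 : ℝ) := by
  have hz0big : 1000000 ≤ z0 := by
    rw [hz0]; nlinarith
  have haR : (1000 : ℝ) ≤ a := by exact_mod_cast ha
  have hz0R : (1000000 : ℝ) ≤ z0 := by exact_mod_cast hz0big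
  have hz0e : (z0 : ℝ) = (a : ℝ) ^ 2 + 2 * j0 := by rw [hz0]; push_cast; ring
  have hnR : (n : ℝ) = z0 + 4 * nb + 2 * j := by rw [← hz, hz0]; push_cast; ring
  have hj0nn : (0 : ℝ) ≤ j0 := Nat.cast_nonneg _
  have hjnn : (0 : ℝ) ≤ j := Nat.cast_nonneg _
  have hnbnn : (0 : ℝ) ≤ nb := Nat.cast_nonneg _
  have h1R : 45 * (a : ℝ) ^ 2 ≤ 100 * (j0 : ℝ) ^ 2 := by exact_mod_cast h1
  have h2R : 100 * (j0 : ℝ) ^ 2 ≤ 55 * (a : ℝ) ^ 2 := by exact_mod_cast h2
  have h3R : 45 * (n : ℝ) ≤ 100 * (j : ℝ) ^ 2 := by exact_mod_cast h3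
  have h4R : 100 * (j : ℝ) ^ 2 ≤ 55 * (n : ℝ) := by exact_mod_cast h4
  have h5R : 16 * (z0 : ℝ) ≤ 10 * (z0 + 4 * nb) := by
    rw [← hz0] at h5; exact_mod_cast h5
  have h6R : 3 * ((z0 : ℝ) + 4 * nb) ≤ 5 * z0 := by
    rw [← hz0] at h6; exact_mod_cast h6
  set ze : ℝ := (z0 : ℝ) + 4 * nb with hze
  have hnpos : (0 : ℝ) < n := by rw [hnR]; linarith
  have hapos : (0 : ℝ) < a := by linarith
  -- the end point
  have hnj : (0 : ℝ) < (n : ℝ) - j := by rw [hnR]; linarith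
  have hY : 2 * Real.log (((n : ℝ) - j) / √n) = Real.log (ze + (j : ℝ) ^ 2 / n) := by
    have e : 2 * Real.log (((n : ℝ) - j) / √n) = Real.log ((((n : ℝ) - j) / √n) ^ 2) := by
      rw [Real.log_pow]; norm_num
    rw [e, div_pow, Real.sq_sqrt hnpos.le]
    congr 1
    rw [div_eq_iff hnpos.ne', add_mul, div_mul_cancel₀ _ hnpos.ne']
    have : ze = n - 2 * j := by rw [hnR]; ring
    rw [this]; ring
  have hy0 : 2 * Real.log (((a : ℝ) ^ 2 + j0) / a) = Real.log (z0 + (j0 : ℝ) ^ 2 / (a : ℝ) ^ 2) := by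
    have e : 2 * Real.log (((a : ℝ) ^ 2 + j0) / a) =
        Real.log ((((a : ℝ) ^ 2 + j0) / a) ^ 2) := by
      rw [Real.log_pow]; norm_num
    rw [e, div_pow]
    congr 1
    rw [hz0e]
    field_simp
    ring
  have hth1 : 45 / 100 ≤ (j : ℝ) ^ 2 / n := by
    rw [le_div_iff₀ hnpos]; linarith
  have hth2 : (j : ℝ) ^ 2 / n ≤ 55 / 100 := by
    rw [div_le_iff₀ hnpos]; linarith
  have hph1 : 45 / 100 ≤ (j0 : ℝ) ^ 2 / (a : ℝ) ^ 2 := by
    rw [le_div_iff₀ (by positivity)]; linarith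
  have hph2 : (j0 : ℝ) ^ 2 / (a : ℝ) ^ 2 ≤ 55 / 100 := by
    rw [div_le_iff₀ (by positivity)]; linarith
  set Y : ℝ := ze + (j : ℝ) ^ 2 / n with hYd
  set y0 : ℝ := (z0 : ℝ) + (j0 : ℝ) ^ 2 / (a : ℝ) ^ 2 with hy0d
  have hzepos : 0 < ze := by linarith
  have hB := sumB_le z0 nb (by omega)
  have hA := sumA_ge z0 nb (by omega) (by
    rw [← hz0] at h6; omega)
  rw [sum_gz z0 nb (by omega)]
  set SB := ∑ b ∈ Finset.range nb, Real.log (((z0 : ℝ) + 4 * b + 4) / (z0 + 4 * b + 2)) with hSB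
  set SA := ∑ b ∈ Finset.range nb, Real.log (((z0 : ℝ) + 4 * b + 3) / (z0 + 4 * b + 1)) with hSA
  have h2τ : 2 * τ = Real.log Y - Real.log y0 - 2 * SB := by
    rw [hτ, ← hY, ← hy0]; ring
  have hY1 : ze + 45 / 100 ≤ Y := by rw [hYd]; linarith
  have hY2 : Y ≤ ze + 55 / 100 := by rw [hYd]; linarith
  have hy1 : (z0 : ℝ) + 45 / 100 ≤ y0 := by rw [hy0d]; linarith
  have hy2 : y0 ≤ (z0 : ℝ) + 55 / 100 := by rw [hy0d]; linarith
  have hzei : 1 / ze ≤ 10 / 16 / z0 := by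
    rw [div_div, div_le_div_iff₀ hzepos (by positivity)]
    linarith
  have hzei' : 1 / (ze + 45 / 100) ≤ 1 / ze :=
    div_le_div_of_nonneg_left (by norm_num) hzepos (by linarith)
  have hz2 : 1 / (z0 : ℝ) ^ 2 ≤ 1 / 1000000 * (1 / z0) := by
    have : (1 : ℝ) / z0 ≤ 1 / 1000000 := by
      apply div_le_div_of_nonneg_left (by norm_num) (by norm_num) hz0R
    have e : 1 / (z0 : ℝ) ^ 2 = 1 / z0 * (1 / z0) := by field_simp
    rw [e]
    exact mul_le_mul_of_nonneg_right this (by positivity)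
  have hz1 : (1 - 1 / 1000000) * (1 / (z0 : ℝ)) ≤ 1 / (z0 + 1) := by
    rw [le_div_iff₀ (by positivity)]
    have : (1 : ℝ) / z0 ≤ 1 / 1000000 := by
      apply div_le_div_of_nonneg_left (by norm_num) (by norm_num) hz0R
    have e : (1 - 1 / 1000000) * (1 / (z0 : ℝ)) * (z0 + 1) =
        (1 - 1 / 1000000) * (1 + 1 / z0) := by field_simp
    rw [e]
    nlinarith
  constructor
  · -- lower bound
    have hB' : 2 * SB ≤ Real.log (ze + 1) - Real.log (z0 + 1) := by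
      rw [← Real.log_div (by positivity) (by positivity)]
      exact hB
    have l1 : Real.log (ze + 45 / 100) ≤ Real.log Y := Real.log_le_log (by positivity) hY1
    have l2 : Real.log y0 ≤ Real.log (z0 + 55 / 100) := Real.log_le_log (by positivity) hy2
    have l3 : Real.log (ze + 1) - Real.log (ze + 45 / 100) ≤ 55 / 100 * (1 / (ze + 45 / 100)) := by
      rw [← Real.log_div (by positivity) (by positivity)]
      have := Real.log_le_sub_one_of_pos (x := (ze + 1) / (ze + 45 / 100)) (by positivity)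
      have e : (ze + 1) / (ze + 45 / 100) - 1 = 55 / 100 * (1 / (ze + 45 / 100)) := by
        field_simp; ring
      linarith
    have l4 : 45 / 100 * (1 / ((z0 : ℝ) + 1)) ≤ Real.log (z0 + 1) - Real.log (z0 + 55 / 100) := by
      rw [← Real.log_div (by positivity) (by positivity)]
      have := Real.one_sub_inv_le_log_of_pos (x := ((z0 : ℝ) + 1) / (z0 + 55 / 100))
        (by positivity)
      have e : 1 - (((z0 : ℝ) + 1) / (z0 + 55 / 100))⁻¹ = 45 / 100 * (1 / ((z0 : ℝ) + 1)) := by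
        field_simp; ring
      linarith
    have e1 : 1 / 40 / (z0 : ℝ) = 1 / 40 * (1 / z0) := by ring
    have e2 : 10 / 16 / (z0 : ℝ) = 10 / 16 * (1 / z0) := by ring
    have hp : 0 < 1 / (z0 : ℝ) := by positivity
    rw [e1]
    rw [e2] at hzei
    nlinarith
  · -- upper bound
    have hA' : Real.log ze - Real.log z0 - 4 / (z0 : ℝ) ^ 2 ≤ 2 * SA := by
      rw [← Real.log_div (by positivity) (by positivity)]
      exact hA
    have l1 : Real.log Y ≤ Real.log (ze + 55 / 100) := Real.log_le_log (by linarith) hY2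
    have l2 : Real.log (z0 + 45 / 100) ≤ Real.log y0 := Real.log_le_log (by positivity) hy1
    have l3 : Real.log (ze + 55 / 100) - Real.log ze ≤ 55 / 100 * (1 / ze) := by
      rw [← Real.log_div (by positivity) (by positivity)]
      have := Real.log_le_sub_one_of_pos (x := (ze + 55 / 100) / ze) (by positivity)
      have e : (ze + 55 / 100) / ze - 1 = 55 / 100 * (1 / ze) := by
        field_simp; ring
      linarith
    have l4 : 45 / 100 * (1 / ((z0 : ℝ) + 1)) ≤ Real.log (z0 + 45 / 100) - Real.log z0 := by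
      rw [← Real.log_div (by positivity) (by positivity)]
      have := Real.one_sub_inv_le_log_of_pos (x := ((z0 : ℝ) + 45 / 100) / z0)
        (by positivity)
      have e : 1 - (((z0 : ℝ) + 45 / 100) / z0)⁻¹ = 45 / 100 * (1 / ((z0 : ℝ) + 45 / 100)) := by
        field_simp; ring
      have e' : 1 / ((z0 : ℝ) + 1) ≤ 1 / ((z0 : ℝ) + 45 / 100) :=
        div_le_div_of_nonneg_left (by norm_num) (by positivity) (by linarith)
      linarith
    have e1 : 1 / 40 / (z0 : ℝ) = 1 / 40 * (1 / z0) := by ring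
    have e2 : 10 / 16 / (z0 : ℝ) = 10 / 16 * (1 / z0) := by ring
    have e3 : 4 / (z0 : ℝ) ^ 2 = 4 * (1 / (z0 : ℝ) ^ 2) := by ring
    have hp : 0 < 1 / (z0 : ℝ) := by positivity
    rw [e1]
    rw [e2] at hzei
    rw [e3] at hA'
    nlinarith

end Pool.Agent.Lib.MP_ed661f_ag.G
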