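import Pool.Agent.Lib.MP_ed661f_ag.G.Reach

/-! Every word in the two elementary moves is admissible. -/

set_option autoImplicit false

namespace Pool.Agent.Lib.MP_ed661f_ag.G

/-- the first elementary move -/
theorem reach_alpha {a σ k : ℕ} {x : ℝ} (h : Reach a σ x k) (hx : 0 < x) (z : ℕ)
    (hz : 1000 ≤ z) (hσ : σ ≤ z) (h1 : (z : ℝ) + 5 / 100 ≤ x ^ 2)
    (h2 : x ^ 2 ≤ (z : ℝ) + 95 / 100) :
    Reach a (z + 3) (x * (((z : ℝ) + 3) / (z + 1))) (k + 1 + 1) := by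
  have hzr : (1000 : ℝ) ≤ z := by exact_mod_cast hz
  have s1 : Reach a (z + 1) (((z + 1 : ℕ) : ℝ) / x) (k + 1) := by
    refine Reach.step (z + 1) h (by omega) ?_
    push_cast
    linarith
  have s2 : Reach a (z + 3) (((z + 3 : ℕ) : ℝ) / (((z + 1 : ℕ) : ℝ) / x)) (k + 1 + 1) := by
    refine Reach.step (z + 3) s1 (by omega) ?_
    push_cast
    have : ((z : ℝ) + 1) ^ 2 / x ^ 2 ≤ z + 2 := by
      rw [div_le_iff₀ (by positivity)]
      nlinarith
    rw [div_pow]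
    linarith
  have e : ((z + 3 : ℕ) : ℝ) / (((z + 1 : ℕ) : ℝ) / x) = x * (((z : ℝ) + 3) / (z + 1)) := by
    push_cast
    field_simp
  rw [e] at s2
  exact s2

/-- the second elementary move -/
theorem reach_beta {a σ k : ℕ} {x : ℝ} (h : Reach a σ x k) (hx : 0 < x) (z : ℕ)
    (hz : 1000 ≤ z) (hσ : σ ≤ z) (h1 : (z : ℝ) + 5 / 100 ≤ x ^ 2)
    (h2 : x ^ 2 ≤ (z : ℝ) + 95 / 100) :
    Reach a (z + 4) (x * (((z : ℝ) + 4) / (z + 2))) (k + 1 + 1) := by
  have hzr : (1000 : ℝ) ≤ z := by exact_mod_cast hz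
  have s1 : Reach a (z + 2) (((z + 2 : ℕ) : ℝ) / x) (k + 1) := by
    refine Reach.step (z + 2) h (by omega) ?_
    push_cast
    linarith
  have s2 : Reach a (z + 4) (((z + 4 : ℕ) : ℝ) / (((z + 2 : ℕ) : ℝ) / x)) (k + 1 + 1) := by
    refine Reach.step (z + 4) s1 (by omega) ?_
    push_cast
    have : ((z : ℝ) + 2) ^ 2 / x ^ 2 ≤ z + 396 / 100 := by
      rw [div_le_iff₀ (by positivity)]
      nlinarith
    rw [div_pow]
    linarith
  have e : ((z + 4 : ℕ) : ℝ) / (((z + 2 : ℕ) : ℝ) / x) = x * (((z : ℝ) + 4) / (z + 2)) := by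
    push_cast
    field_simp
  rw [e] at s2
  exact s2

/-- the factor of a move at `z` lies between the two moves -/
theorem factor_bounds {z q : ℝ} (hz : 1000 ≤ z)
    (hq : q = (z + 3) / (z + 1) ∨ q = (z + 4) / (z + 2)) :
    0 < q ∧ q ^ 2 * z ≤ z + 4 ∧ z + 4 + 101 / 100 ≤ q ^ 2 * (z + 101 / 100) := by
  rcases hq with hq | hq
  · refine ⟨by rw [hq]; positivity, ?_, ?_⟩
    · rw [hq, div_pow, div_mul_eq_mul_div, div_le_iff₀ (by positivity)]
      nlinarith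
    · rw [hq, div_pow, div_mul_eq_mul_div, le_div_iff₀ (by positivity)]
      nlinarith
  · refine ⟨by rw [hq]; positivity, ?_, ?_⟩
    · rw [hq, div_pow, div_mul_eq_mul_div, div_le_iff₀ (by positivity)]
      nlinarith
    · rw [hq, div_pow, div_mul_eq_mul_div, le_div_iff₀ (by positivity)]
      nlinarith

theorem word_reach {a σ k : ℕ} {x : ℝ} (h : Reach a σ x k) (hx : 0 < x) (z0 nb : ℕ)
    (hz : 1000 ≤ z0) (hσ : σ ≤ z0) (h1 : (z0 : ℝ) + 45 / 100 ≤ x ^ 2)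
    (h2 : x ^ 2 ≤ (z0 : ℝ) + 55 / 100) (hnb : 3 * (z0 + 4 * nb) ≤ 5 * z0) (E : Finset ℕ) :
    ∃ σ' k' : ℕ, Reach a σ'
      (x * ∏ b ∈ Finset.range nb, (if b ∈ E then ((z0 : ℝ) + 4 * b + 3) / (z0 + 4 * b + 1)
        else ((z0 : ℝ) + 4 * b + 4) / (z0 + 4 * b + 2))) k' ∧
      k' % 2 = k % 2 ∧ σ' ≤ z0 + 4 * nb := by
  have hzr : (1000 : ℝ) ≤ z0 := by exact_mod_cast hz
  have key : ∀ m ≤ nb, ∃ σ' k' : ℕ, Reach a σ'
      (x * ∏ b ∈ Finset.range m, (if b ∈ E then ((z0 : ℝ) + 4 * b + 3) / (z0 + 4 * b + 1)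
        else ((z0 : ℝ) + 4 * b + 4) / (z0 + 4 * b + 2))) k' ∧
      k' % 2 = k % 2 ∧ σ' ≤ z0 + 4 * m ∧
      0 < (x * ∏ b ∈ Finset.range m, (if b ∈ E then ((z0 : ℝ) + 4 * b + 3) / (z0 + 4 * b + 1)
        else ((z0 : ℝ) + 4 * b + 4) / (z0 + 4 * b + 2))) ∧
      (x * ∏ b ∈ Finset.range m, (if b ∈ E then ((z0 : ℝ) + 4 * b + 3) / (z0 + 4 * b + 1)
        else ((z0 : ℝ) + 4 * b + 4) / (z0 + 4 * b + 2))) ^ 2 * z0 ≤
        x ^ 2 * (z0 + 4 * m) ∧
      x ^ 2 * ((z0 : ℝ) + 4 * m + 101 / 100) ≤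
      (x * ∏ b ∈ Finset.range m, (if b ∈ E then ((z0 : ℝ) + 4 * b + 3) / (z0 + 4 * b + 1)
        else ((z0 : ℝ) + 4 * b + 4) / (z0 + 4 * b + 2))) ^ 2 * (z0 + 101 / 100) := by
    intro m
    induction m with
    | zero =>
      intro _
      refine ⟨σ, k, by simpa using h, rfl, by simpa using hσ, by simpa using hx, by simp,
        by simp⟩
    | succ m ih =>
      intro hm
      obtain ⟨s, k', hr, hk, hs, hpos, hup, hlo⟩ := ih (by omega)
      rw [Finset.prod_range_succ, ← mul_assoc]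
      set w := x * ∏ b ∈ Finset.range m,
        (if b ∈ E then ((z0 : ℝ) + 4 * b + 3) / (z0 + 4 * b + 1)
        else ((z0 : ℝ) + 4 * b + 4) / (z0 + 4 * b + 2)) with hw
      set q : ℝ := (if m ∈ E then ((z0 : ℝ) + 4 * m + 3) / (z0 + 4 * m + 1)
        else ((z0 : ℝ) + 4 * m + 4) / (z0 + 4 * m + 2)) with hq
      have hmr : (0 : ℝ) ≤ m := Nat.cast_nonneg m
      have h43 : 3 * ((z0 : ℝ) + 4 * m) ≤ 5 * z0 := by
        have : 3 * (z0 + 4 * m) ≤ 5 * z0 := by omega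
        exact_mod_cast this
      have hz' : (1000 : ℝ) ≤ (z0 : ℝ) + 4 * m := by linarith
      have hyu : w ^ 2 ≤ ((z0 : ℝ) + 4 * m) + 95 / 100 := by
        have h3 : w ^ 2 * z0 ≤ (z0 + 55 / 100) * (z0 + 4 * m) :=
          hup.trans (mul_le_mul_of_nonneg_right h2 (by positivity))
        have h4 : ((z0 : ℝ) + 55 / 100) * (z0 + 4 * m) ≤ ((z0 : ℝ) + 4 * m + 95 / 100) * z0 := by
          nlinarith
        exact le_of_mul_le_mul_right (h3.trans h4) (by linarith)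
      have hyl : ((z0 : ℝ) + 4 * m) + 5 / 100 ≤ w ^ 2 := by
        have h3 : ((z0 : ℝ) + 45 / 100) * ((z0 : ℝ) + 4 * m + 101 / 100) ≤
            w ^ 2 * (z0 + 101 / 100) :=
          (mul_le_mul_of_nonneg_right h1 (by positivity)).trans hlo
        have h4 : ((z0 : ℝ) + 4 * m + 5 / 100) * (z0 + 101 / 100) ≤
            ((z0 : ℝ) + 45 / 100) * ((z0 : ℝ) + 4 * m + 101 / 100) := by
          nlinarith
        exact le_of_mul_le_mul_right (h4.trans h3) (by linarith)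
      have hqor : q = ((z0 : ℝ) + 4 * m + 3) / ((z0 : ℝ) + 4 * m + 1) ∨
          q = ((z0 : ℝ) + 4 * m + 4) / ((z0 : ℝ) + 4 * m + 2) := by
        by_cases hE : m ∈ E
        · left; rw [hq, if_pos hE]
        · right; rw [hq, if_neg hE]
      obtain ⟨hq0, hqu, hql⟩ := factor_bounds hz' hqor
      have hup' : (w * q) ^ 2 * z0 ≤ x ^ 2 * (z0 + 4 * ((m + 1 : ℕ) : ℝ)) := by
        have : (w * q) ^ 2 * z0 = w ^ 2 * z0 * q ^ 2 := by ring
        rw [this]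
        calc w ^ 2 * z0 * q ^ 2 ≤ x ^ 2 * (z0 + 4 * m) * q ^ 2 :=
              mul_le_mul_of_nonneg_right hup (by positivity)
          _ = x ^ 2 * (q ^ 2 * (z0 + 4 * m)) := by ring
          _ ≤ x ^ 2 * (z0 + 4 * m + 4) := mul_le_mul_of_nonneg_left hqu (by positivity)
          _ = x ^ 2 * (z0 + 4 * ((m + 1 : ℕ) : ℝ)) := by push_cast; ring
      have hlo' : x ^ 2 * ((z0 : ℝ) + 4 * ((m + 1 : ℕ) : ℝ) + 101 / 100) ≤
          (w * q) ^ 2 * (z0 + 101 / 100) := by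
        have : (w * q) ^ 2 * (z0 + 101 / 100) = w ^ 2 * (z0 + 101 / 100) * q ^ 2 := by ring
        rw [this]
        calc x ^ 2 * ((z0 : ℝ) + 4 * ((m + 1 : ℕ) : ℝ) + 101 / 100)
            = x ^ 2 * ((z0 : ℝ) + 4 * m + 4 + 101 / 100) := by push_cast; ring
          _ ≤ x ^ 2 * (q ^ 2 * (z0 + 4 * m + 101 / 100)) :=
              mul_le_mul_of_nonneg_left hql (by positivity)
          _ = x ^ 2 * (z0 + 4 * m + 101 / 100) * q ^ 2 := by ring
          _ ≤ w ^ 2 * (z0 + 101 / 100) * q ^ 2 :=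
              mul_le_mul_of_nonneg_right hlo (by positivity)
      have hcast : ((z0 + 4 * m : ℕ) : ℝ) = (z0 : ℝ) + 4 * m := by push_cast; ring
      by_cases hE : m ∈ E
      · have ha := reach_alpha hr hpos (z0 + 4 * m) (by omega) hs (by rw [hcast]; exact hyl)
          (by rw [hcast]; exact hyu)
        rw [hcast] at ha
        refine ⟨z0 + 4 * m + 3, k' + 1 + 1, ?_, by omega, by omega, mul_pos hpos hq0, hup', hlo'⟩
        rw [hq, if_pos hE]
        exact ha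
      · have ha := reach_beta hr hpos (z0 + 4 * m) (by omega) hs (by rw [hcast]; exact hyl)
          (by rw [hcast]; exact hyu)
        rw [hcast] at ha
        refine ⟨z0 + 4 * m + 4, k' + 1 + 1, ?_, by omega, by omega, mul_pos hpos hq0, hup', hlo'⟩
        rw [hq, if_neg hE]
        exact ha
  obtain ⟨σ', k', hr, hk, hs, -⟩ := key nb le_rfl
  exact ⟨σ', k', hr, hk, hs⟩

end Pool.Agent.Lib.MP_ed661f_ag.G
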