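import Pool.Agent.Lib.MP_ed661f_ag.G.Diff
import Pool.Agent.Lib.MP_ed661f_ag.G.CompleteAll
import Pool.Agent.Lib.MP_ed661f_ag.G.Words
import Pool.Agent.Lib.MP_ed661f_ag.G.Range
import Pool.Agent.Lib.MP_ed661f_ag.G.Levels
import Pool.Agent.Lib.MP_ed661f_ag.G.Params

/-! Assembly: existence of the chain. -/

set_option autoImplicit false

namespace Pool.Agent.Lib.MP_ed661f_ag.G

theorem n8_gz_nonneg {z : ℝ} (hz : 0 ≤ z) : 0 ≤ gz z := by
  unfold gz
  apply Real.log_nonneg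
  rw [le_div_iff₀ (by positivity)]
  nlinarith

theorem n8_gz_le {z : ℝ} (hz : 0 < z) : gz z ≤ 2 / z ^ 2 := by
  unfold gz
  have h1 : 0 < (z + 1) * (z + 4) := by positivity
  have h2 : (z + 2) * (z + 3) / ((z + 1) * (z + 4)) = 1 + 2 / ((z + 1) * (z + 4)) := by
    rw [eq_comm, ← sub_eq_zero]
    field_simp
    ring
  have h3 : 0 < (z + 2) * (z + 3) / ((z + 1) * (z + 4)) := by positivity
  have h4 := Real.log_le_sub_one_of_pos h3
  rw [h2] at h4 ⊢
  have h5 : 2 / ((z + 1) * (z + 4)) ≤ 2 / z ^ 2 := by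
    apply div_le_div_of_nonneg_left (by norm_num) (by positivity)
    nlinarith
  linarith

theorem n8_gz_eq {z : ℝ} (hz : 0 ≤ z) :
    gz z = Real.log ((z + 3) / (z + 1)) - Real.log ((z + 4) / (z + 2)) := by
  unfold gz
  rw [← Real.log_div (by positivity) (by positivity)]
  congr 1
  field_simp

theorem n8_log_prod (nb : ℕ) (E : Finset ℕ) (hE : E ⊆ Finset.range nb) (z0 : ℕ) :
    Real.log (∏ b ∈ Finset.range nb, (if b ∈ E then ((z0 : ℝ) + 4 * b + 3) / (z0 + 4 * b + 1)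
        else ((z0 : ℝ) + 4 * b + 4) / (z0 + 4 * b + 2))) =
      ∑ b ∈ Finset.range nb, Real.log (((z0 : ℝ) + 4 * b + 4) / (z0 + 4 * b + 2)) +
        ∑ b ∈ E, gz (z0 + 4 * b) := by
  rw [Real.log_prod]
  · have h1 : ∑ b ∈ E, gz ((z0 : ℝ) + 4 * b) =
        ∑ b ∈ Finset.range nb, if b ∈ E then gz ((z0 : ℝ) + 4 * b) else 0 := by
      rw [← Finset.sum_filter]
      apply Finset.sum_congr _ fun _ _ => rfl
      ext b
      simp only [Finset.mem_filter]
      constructor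
      · intro h
        exact ⟨hE h, h⟩
      · intro h
        exact h.2
    rw [h1, ← Finset.sum_add_distrib]
    apply Finset.sum_congr rfl
    intro b _
    split_ifs with h
    · rw [n8_gz_eq (by positivity)]
      ring
    · rw [add_zero]
  · intro b _
    split_ifs <;> positivity

theorem n8_final {n z0 : ℕ} (hn : 2 ^ 101 ≤ n) (hz : 6 * n ≤ 10 * z0) {η : ℝ} (h0 : 0 ≤ η)
    (hη : η ≤ Real.exp (-(Real.log z0) ^ 2 / 12)) :
    Real.exp η ≤ 1 + Real.exp (-(Real.log n) ^ 2 / 13) := by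
  have hn' : (2 : ℝ) ^ 101 ≤ n := by exact_mod_cast hn
  have hz' : 6 * (n : ℝ) ≤ 10 * z0 := by exact_mod_cast hz
  have hnpos : (0 : ℝ) < n := lt_of_lt_of_le (by positivity) hn'
  have hlog : 70 ≤ Real.log n := by
    have h1 : Real.log ((2 : ℝ) ^ 101) ≤ Real.log n := Real.log_le_log (by positivity) hn'
    rw [Real.log_pow] at h1
    have h2 := Real.log_two_gt_d9
    push_cast at h1
    linarith
  have hlz : Real.log n - 1 ≤ Real.log z0 := by
    have h1 : Real.log (n * (6 / 10)) ≤ Real.log z0 := Real.log_le_log (by positivity) (by linarith)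
    rw [Real.log_mul hnpos.ne' (by norm_num)] at h1
    have h2 : -1 ≤ Real.log (6 / 10) := by
      rw [Real.le_log_iff_exp_le (by norm_num), Real.exp_neg]
      have h3 := Real.exp_one_gt_d9
      rw [inv_le_comm₀ (Real.exp_pos 1) (by norm_num)]
      linarith
    linarith
  set l := Real.log n with hl
  have h1 : (l - 1) ^ 2 ≤ (Real.log z0) ^ 2 := by
    apply pow_le_pow_left₀ (by linarith) hlz
  have h2 : -(Real.log z0) ^ 2 / 12 ≤ -l ^ 2 / 13 - 1 := by nlinarith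
  have h3 : η ≤ Real.exp (-l ^ 2 / 13) * Real.exp (-1) := by
    rw [← Real.exp_add]
    refine hη.trans (Real.exp_le_exp.2 ?_)
    linarith
  have h4 : Real.exp (-1) ≤ 1 / 2 := by
    rw [Real.exp_neg, ← one_div]
    apply one_div_le_one_div_of_le (by norm_num)
    have h3 := Real.exp_one_gt_d9
    linarith
  have h5 : Real.exp (-l ^ 2 / 13) ≤ 1 := by
    rw [Real.exp_le_one_iff]
    nlinarith
  have h6 := Real.exp_pos (-l ^ 2 / 13)
  have h7 : η ≤ Real.exp (-l ^ 2 / 13) / 2 := by nlinarith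
  have h8 : η ≤ 1 := by linarith
  have h9 : Real.exp η ≤ 1 + 2 * η := by
    have h10 := Real.abs_exp_sub_one_le (x := η) (by rw [abs_of_nonneg h0]; exact h8)
    rw [abs_of_nonneg h0, abs_of_nonneg (by linarith [Real.add_one_le_exp η])] at h10
    linarith
  linarith

theorem chain_of_large (n : ℕ) (hn2 : 2 ^ 101 ≤ n) : ∃ (a σ k : ℕ) (x : ℝ), Reach a σ x k ∧
    k % 2 = 0 ∧ σ ≤ n ∧ a ^ 2 ≤ n ∧ 6 * n ≤ 10 * a ^ 2 ∧ √n ≤ x ∧
    x ≤ √n * (1 + Real.exp (-(Real.log n) ^ 2 / 13)) := by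
  obtain ⟨a, j0, j, nb, q1, q2, q3, q4, q5, q6, q7, q8, q9, q10⟩ := params_of_large n
    (le_trans (by norm_num) hn2)
  obtain ⟨z0, hz0⟩ : ∃ z0, z0 = a ^ 2 + 2 * j0 := ⟨_, rfl⟩
  obtain ⟨J, hJ⟩ : ∃ J, J = Nat.log 2 z0 / 4 := ⟨_, rfl⟩
  obtain ⟨D, hD⟩ : ∃ D, D = Nat.sqrt z0 + 1 := ⟨_, rfl⟩
  have ha2 : 1000 * 1000 ≤ a ^ 2 := by
    rw [pow_two]
    exact Nat.mul_le_mul q2 q2
  have hj0 : 1 ≤ j0 := by
    rcases Nat.eq_zero_or_pos j0 with h | h
    · rw [h] at q3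
      norm_num at q3
      omega
    · exact h
  have hj : 2 ≤ j := by
    by_contra h
    have h1 : j ≤ 1 := by omega
    have h2 : j ^ 2 ≤ 1 ^ 2 := Nat.pow_le_pow_left h1 2
    omega
  have hz100 : 2 ^ 100 ≤ z0 := by
    have : 2 ^ 101 = 2 * 2 ^ 100 := by norm_num
    omega
  have hz6 : 6 * n ≤ 10 * z0 := by omega
  have q7' : 16 * z0 ≤ 10 * (z0 + 4 * nb) := by rw [hz0]; exact q7
  have q8' : 3 * (z0 + 4 * nb) ≤ 5 * z0 := by rw [hz0]; exact q8
  obtain ⟨mx, hmx⟩ : ∃ mx : ℕ → ℝ, mx = fun j => ((j + 1).factorial : ℝ) *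
      (2 * (4 * (D : ℝ)) ^ j * 2 ^ (j * (j - 1) / 2)) / ((z0 : ℝ) + 1) ^ (j + 2) := ⟨_, rfl⟩
  obtain ⟨mn, hmn⟩ : ∃ mn : ℕ → ℝ, mn = fun j => ((j + 1).factorial : ℝ) *
      (2 * (4 * (D : ℝ)) ^ j * 2 ^ (j * (j - 1) / 2)) / ((z0 : ℝ) + 4 * nb + 4) ^ (j + 2) :=
    ⟨_, rfl⟩
  obtain ⟨lev1, lev2, lev3⟩ := levels z0 nb J D hz100 hJ hD q7' q8' mx mn hmx hmn
  have hD1 : 1 ≤ D := by omega
  -- complete
  set h : ℕ → ℝ := fun b => gz ((z0 : ℝ) + 4 * b) with hh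
  have hh0 : ∀ b, 0 ≤ h b := fun b => n8_gz_nonneg (by positivity)
  have hz0pos : (0 : ℝ) < z0 := by
    have : 0 < z0 := lt_of_lt_of_le (by positivity) hz100
    exact_mod_cast this
  obtain ⟨lo, hi, hcomp, hlo, hhi⟩ := complete_all hh0 D J nb mx mn (by
      intro i b _ _
      refine (cub_bounds z0 D i b).2.trans ?_
      rw [hmx]
      apply div_le_div_of_nonneg_left (by positivity) (by positivity)
      apply pow_le_pow_left₀ (by positivity)
      have : (0 : ℝ) ≤ b := by positivity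
      linarith) (by
      intro i b _ hb
      refine le_trans ?_ (cub_bounds z0 D i b).1
      rw [hmn]
      have hb' : (b : ℝ) + (2 ^ i - 1) * D < nb := by
        have h1 : ((b + (2 ^ i - 1) * D : ℕ) : ℝ) < nb := by exact_mod_cast hb
        rw [Nat.cast_add, Nat.cast_mul, Nat.cast_sub (Nat.one_le_two_pow)] at h1
        push_cast at h1
        exact h1
      have h2 : (0 : ℝ) ≤ (2 : ℝ) ^ i - 1 := by
        have : (1 : ℝ) ≤ (2 : ℝ) ^ i := one_le_pow₀ (by norm_num)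
        linarith
      have h3 : (0 : ℝ) ≤ D := by positivity
      apply div_le_div_of_nonneg_left (by positivity) (by positivity)
      apply pow_le_pow_left₀ (by positivity)
      nlinarith) (by
      intro i
      rw [hmn]
      positivity) lev1 (by omega) hD1
  -- the target
  obtain ⟨τ, hτ⟩ : ∃ τ : ℝ, τ = Real.log (((n : ℝ) - j) / √n) -
      Real.log (((a : ℝ) ^ 2 + j0) / a) -
      ∑ b ∈ Finset.range nb, Real.log (((z0 : ℝ) + 4 * b + 4) / (z0 + 4 * b + 2)) := ⟨_, rfl⟩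
  obtain ⟨tr1, tr2⟩ := target_range n a j0 j nb q1 q2 q3 q4 q5 q6 q7 q8 z0 hz0 τ hτ
  set W := (2 ^ (J + 1) - 2) * D with hW
  have hW1 : 100 * W ≤ z0 := by
    have : W ≤ 2 ^ (J + 1) * D := Nat.mul_le_mul_right D (Nat.sub_le _ _)
    omega
  have htop : ∑ b ∈ Finset.Ico (nb - W) nb, h b ≤ 1 / 40 / (z0 : ℝ) := by
    have e1 : ∑ b ∈ Finset.Ico (nb - W) nb, h b ≤
        ∑ b ∈ Finset.Ico (nb - W) nb, (2 / (z0 : ℝ) ^ 2) := by
      apply Finset.sum_le_sum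
      intro b _
      refine (n8_gz_le (by positivity)).trans ?_
      apply div_le_div_of_nonneg_left (by norm_num) (by positivity)
      apply pow_le_pow_left₀ (by positivity)
      have : (0 : ℝ) ≤ b := by positivity
      linarith
    rw [Finset.sum_const, Nat.card_Ico, nsmul_eq_mul] at e1
    have e2 : (((nb - (nb - W) : ℕ) : ℝ)) ≤ z0 / 100 := by
      have : nb - (nb - W) ≤ W := by omega
      have h3 : (((nb - (nb - W) : ℕ) : ℝ)) ≤ W := by exact_mod_cast this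
      have h4 : 100 * (W : ℝ) ≤ z0 := by exact_mod_cast hW1
      linarith
    have e3 : (((nb - (nb - W) : ℕ) : ℝ)) * (2 / (z0 : ℝ) ^ 2) ≤ z0 / 100 * (2 / (z0 : ℝ) ^ 2) :=
      mul_le_mul_of_nonneg_right e2 (by positivity)
    have e4 : (z0 : ℝ) / 100 * (2 / (z0 : ℝ) ^ 2) = 1 / 50 / z0 := by
      field_simp
      norm_num
    have e5 : 1 / 50 / (z0 : ℝ) ≤ 1 / 40 / z0 := by
      apply div_le_div_of_nonneg_right (by norm_num) hz0pos.le
    linarith
  have hsplit : ∑ b ∈ Finset.range nb, h b =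
      ∑ b ∈ Finset.range (nb - W), h b + ∑ b ∈ Finset.Ico (nb - W) nb, h b :=
    (Finset.sum_range_add_sum_Ico h (Nat.sub_le _ _)).symm
  obtain ⟨E, hE, he1, he2⟩ := hcomp τ (hlo.trans (htop.trans tr1)) (by linarith)
  -- the word
  have hapos : (0 : ℝ) < a := by
    have : 0 < a := by omega
    exact_mod_cast this
  have hnpos : (0 : ℝ) < n := by
    have : 0 < n := by omega
    exact_mod_cast this
  have hj0' : (1 : ℝ) ≤ j0 := by exact_mod_cast hj0
  have R1 : Reach a (a ^ 2 + j0) (((a ^ 2 + j0 : ℕ) : ℝ) / a) 1 := by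
    apply Reach.step (a ^ 2 + j0) Reach.start (by omega)
    push_cast
    linarith
  have hx1 : (0 : ℝ) < ((a ^ 2 + j0 : ℕ) : ℝ) / a := by positivity
  have hsq : (((a ^ 2 + j0 : ℕ) : ℝ) / a) ^ 2 = (z0 : ℝ) + (j0 : ℝ) ^ 2 / (a : ℝ) ^ 2 := by
    rw [hz0]
    push_cast
    field_simp
    ring
  have q3' : 45 * (a : ℝ) ^ 2 ≤ 100 * (j0 : ℝ) ^ 2 := by exact_mod_cast q3
  have q4' : 100 * (j0 : ℝ) ^ 2 ≤ 55 * (a : ℝ) ^ 2 := by exact_mod_cast q4
  have hθ1 : 45 / 100 ≤ (j0 : ℝ) ^ 2 / (a : ℝ) ^ 2 := by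
    rw [le_div_iff₀ (by positivity)]
    linarith
  have hθ2 : (j0 : ℝ) ^ 2 / (a : ℝ) ^ 2 ≤ 55 / 100 := by
    rw [div_le_iff₀ (by positivity)]
    linarith
  obtain ⟨σ', k', R2, hk', hσ'⟩ := word_reach R1 hx1 z0 nb (by
      have : 1000 ≤ 2 ^ 100 := by norm_num
      omega) (by omega) (by rw [hsq]; linarith) (by rw [hsq]; linarith) q8' E
  set x := ((a ^ 2 + j0 : ℕ) : ℝ) / a *
    ∏ b ∈ Finset.range nb, (if b ∈ E then ((z0 : ℝ) + 4 * b + 3) / (z0 + 4 * b + 1)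
        else ((z0 : ℝ) + 4 * b + 4) / (z0 + 4 * b + 2)) with hx
  have hPpos : 0 < ∏ b ∈ Finset.range nb, (if b ∈ E then ((z0 : ℝ) + 4 * b + 3) / (z0 + 4 * b + 1)
        else ((z0 : ℝ) + 4 * b + 4) / (z0 + 4 * b + 2)) := by
    apply Finset.prod_pos
    intro b _
    split_ifs <;> positivity
  have hxpos : 0 < x := mul_pos hx1 hPpos
  have hlogx : Real.log x = Real.log (((a : ℝ) ^ 2 + j0) / a) +
      (∑ b ∈ Finset.range nb, Real.log (((z0 : ℝ) + 4 * b + 4) / (z0 + 4 * b + 2)) +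
        ∑ b ∈ E, gz (z0 + 4 * b)) := by
    rw [hx, Real.log_mul hx1.ne' hPpos.ne', n8_log_prod nb E hE z0]
    push_cast
    ring
  have hjn : (j : ℝ) < n := by
    have : j < n := by omega
    exact_mod_cast this
  have hsn : 0 < √(n : ℝ) := Real.sqrt_pos.2 hnpos
  have htgt : 0 < ((n : ℝ) - j) / √n := div_pos (by linarith) hsn
  have hup : Real.log x ≤ Real.log (((n : ℝ) - j) / √n) := by
    rw [hlogx]
    linarith
  have hdn : Real.log (((n : ℝ) - j) / √n) - mx J ≤ Real.log x := by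
    rw [hlogx]
    linarith
  have hxle : x ≤ ((n : ℝ) - j) / √n := (Real.log_le_log_iff hxpos htgt).1 hup
  have hxge : ((n : ℝ) - j) / √n ≤ x * Real.exp (mx J) := by
    rw [← Real.log_le_log_iff htgt (by positivity), Real.log_mul hxpos.ne' (Real.exp_pos _).ne',
      Real.log_exp]
    linarith
  -- the last step
  have hlast : x ^ 2 + 1 / 100 ≤ ((n - j : ℕ) : ℝ) := by
    have h1 : x ^ 2 ≤ (((n : ℝ) - j) / √n) ^ 2 := pow_le_pow_left₀ hxpos.le hxle 2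
    rw [div_pow, Real.sq_sqrt hnpos.le] at h1
    have h2 : ((n : ℝ) - j) ^ 2 / n = n - 2 * j + (j : ℝ) ^ 2 / n := by
      field_simp
      ring
    have q6' : 100 * (j : ℝ) ^ 2 ≤ 55 * n := by exact_mod_cast q6
    have h3 : (j : ℝ) ^ 2 / n ≤ 55 / 100 := by
      rw [div_le_iff₀ hnpos]
      linarith
    have h4 : (2 : ℝ) ≤ j := by exact_mod_cast hj
    rw [Nat.cast_sub (by omega)]
    linarith
  have R3 : Reach a (n - j) (((n - j : ℕ) : ℝ) / x) (k' + 1) :=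
    Reach.step (n - j) R2 (by omega) hlast
  have hcast : ((n - j : ℕ) : ℝ) = (n : ℝ) - j := Nat.cast_sub (by omega)
  refine ⟨a, n - j, k' + 1, _, R3, by omega, Nat.sub_le _ _, by omega, by omega, ?_, ?_⟩
  · rw [hcast, le_div_iff₀ hxpos]
    rw [le_div_iff₀ hsn] at hxle
    linarith
  · rw [hcast, div_le_iff₀ hxpos]
    have hmx0 : 0 ≤ mx J := by
      rw [hmx]
      positivity
    have h1 := n8_final hn2 hz6 hmx0 lev3
    rw [div_le_iff₀ hsn] at hxge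
    calc (n : ℝ) - j ≤ x * Real.exp (mx J) * √n := hxge
      _ ≤ x * (1 + Real.exp (-(Real.log n) ^ 2 / 13)) * √n := by gcongr
      _ = √n * (1 + Real.exp (-(Real.log n) ^ 2 / 13)) * x := by ring

theorem exists_chain : ∃ n0 : ℕ, ∀ n : ℕ, n0 ≤ n → ∃ (a σ k : ℕ) (x : ℝ), Reach a σ x k ∧
    k % 2 = 0 ∧ σ ≤ n ∧ a ^ 2 ≤ n ∧ 6 * n ≤ 10 * a ^ 2 ∧ √n ≤ x ∧
    x ≤ √n * (1 + Real.exp (-(Real.log n) ^ 2 / 13)) :=
  ⟨2 ^ 101, chain_of_large⟩

end Pool.Agent.Lib.MP_ed661f_ag.G
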