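import Pool.Agent.Lib.MP_ed661f_ag.G.Sym
import Pool.Agent.Lib.MP_ed661f_ag.G.Collide
import Pool.Agent.Lib.MP_ed661f_ag.G.Chain
import Pool.Agent.Lib.MP_ed661f_ag.G.ExistsChain

/-!
The Seshadri constants of the plane with an error term smaller than every power.
-/

set_option autoImplicit false

namespace Pool.Agent.Lib.MP_ed661f_ag.G

/-- every chain of contact orders gives a lower bound for the Seshadri constant -/
theorem le_eps_of_reach {a n σ k : ℕ} {x : ℝ} (h : Reach a σ x k) (ha : 1 ≤ a) (han : a ≤ n)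
    (hσ : σ ≤ n) : min x (n / x) / n ≤ A.eps n := by
  refine le_eps_of_uniform (ha.trans han) fun m d hd => ?_
  obtain ⟨ζ, hζ⟩ := good_of_reach h ha han hσ hd
  exact gen_of_good hζ

/-- **main theorem**: `ε(n)² ≥ (1 / n) (1 - exp (-(log n)² / 14))` for all `n ≥ 2 ^ 101`. -/
theorem main_of_large (n : ℕ) (hn : 2 ^ 101 ≤ n) :
    Real.sqrt ((1 - Real.exp (-(Real.log n) ^ 2 / 14)) / n) ≤ A.eps n := by
  have hn2 : 10 ^ 6 ≤ n := le_trans (by norm_num) hn
  obtain ⟨a, σ, k, x, hr, -, hσ, han, h6, hx1, hx2⟩ := chain_of_large n hn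
  have hnR : (10 : ℝ) ^ 6 ≤ n := by exact_mod_cast hn2
  have hnpos : (0 : ℝ) < n := by linarith [show (0 : ℝ) < 10 ^ 6 by norm_num]
  have ha : 1 ≤ a := by
    by_contra hcon
    have : a = 0 := by omega
    subst this
    omega
  have han' : a ≤ n := by nlinarith
  refine le_trans ?_ (le_eps_of_reach hr ha han' hσ)
  set s := √(n : ℝ) with hs
  have hs0 : 0 < s := Real.sqrt_pos.2 hnpos
  have hss : s * s = n := Real.mul_self_sqrt hnpos.le
  have hx0 : 0 < x := lt_of_lt_of_le hs0 hx1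
  have hmin : min x (n / x) = n / x := by
    apply min_eq_right
    rw [div_le_iff₀ hx0, ← hss]
    exact mul_le_mul hx1 hx1 hs0.le hx0.le
  rw [hmin]
  set L := Real.log n with hL
  have hLlb : 13 ≤ L := by
    rw [hL, Real.le_log_iff_exp_le hnpos]
    refine le_trans ?_ hnR
    have h1 : Real.exp 1 < 2.7182818286 := Real.exp_one_lt_d9
    have h2 : Real.exp 13 = Real.exp 1 ^ 13 := by
      rw [← Real.exp_nat_mul]
      norm_num
    rw [h2]
    calc Real.exp 1 ^ 13 ≤ (2.7182818286 : ℝ) ^ 13 :=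
          pow_le_pow_left₀ (Real.exp_pos _).le h1.le _
      _ ≤ 10 ^ 6 := by norm_num
  set e := Real.exp (-L ^ 2 / 13) with he
  have he0 : 0 < e := Real.exp_pos _
  have hE : 2 * e ≤ Real.exp (-L ^ 2 / 14) := by
    have h2 : Real.exp (-L ^ 2 / 14) = e * Real.exp (L ^ 2 / 182) := by
      rw [he, ← Real.exp_add]
      congr 1
      ring
    have h3 : (L ^ 2 / 182 : ℝ) + 1 ≤ Real.exp (L ^ 2 / 182) := Real.add_one_le_exp _
    have h4 : (2 : ℝ) ≤ Real.exp (L ^ 2 / 182) := by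
      have h5 : (182 : ℝ) ≤ L ^ 2 + 13 := by nlinarith
      have h6 : Real.exp (L ^ 2 / 182) ≥ 1 + L ^ 2 / 182 + (L ^ 2 / 182) ^ 2 / 2 :=
        Real.quadratic_le_exp_of_nonneg (by positivity)
      have h7 : (169 / 182 : ℝ) ≤ L ^ 2 / 182 := by
        have : (169 : ℝ) ≤ L ^ 2 := by nlinarith
        linarith
      nlinarith
    rw [h2]
    nlinarith
  rw [div_div, mul_comm x (n : ℝ), ← div_div, div_self hnpos.ne']
  refine Real.sqrt_le_iff.2 ⟨by positivity, ?_⟩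
  have h1 : (1 - 2 * e) * x ^ 2 ≤ n := by
    have h2 : x ^ 2 ≤ (s * (1 + e)) ^ 2 := pow_le_pow_left₀ hx0.le hx2 2
    have h3 : (s * (1 + e)) ^ 2 = n * (1 + e) ^ 2 := by
      rw [mul_pow, sq s, hss]
    rcases le_or_gt (1 - 2 * e) 0 with h4 | h4
    · have : (1 - 2 * e) * x ^ 2 ≤ 0 := mul_nonpos_of_nonpos_of_nonneg h4 (by positivity)
      linarith
    · have h5 : (1 - 2 * e) * (1 + e) ^ 2 ≤ 1 := by nlinarith [mul_pos he0 he0]
      calc (1 - 2 * e) * x ^ 2 ≤ (1 - 2 * e) * (n * (1 + e) ^ 2) := by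
            rw [← h3]
            exact mul_le_mul_of_nonneg_left h2 h4.le
        _ = n * ((1 - 2 * e) * (1 + e) ^ 2) := by ring
        _ ≤ n * 1 := mul_le_mul_of_nonneg_left h5 hnpos.le
        _ = n := mul_one _
  rw [one_div, inv_pow, div_le_iff₀ hnpos]
  rw [inv_mul_eq_div, le_div_iff₀ (by positivity)]
  have h2 : (1 - Real.exp (-L ^ 2 / 14)) * x ^ 2 ≤ (1 - 2 * e) * x ^ 2 :=
    mul_le_mul_of_nonneg_right (by linarith) (by positivity)
  linarith

theorem main : ∃ n0 : ℕ, ∀ n : ℕ, n0 ≤ n →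
    Real.sqrt ((1 - Real.exp (-(Real.log n) ^ 2 / 14)) / n) ≤ A.eps n :=
  ⟨2 ^ 101, main_of_large⟩

end Pool.Agent.Lib.MP_ed661f_ag.G
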