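import Pool.Agent.Lib.MP_ed661f_ag.G.Defs
import Pool.Agent.Lib.MP_ed661f_ag.A.Param
import Pool.Agent.Lib.MP_6b2d39_ag.Transfer

/-!
From a curvilinear scheme to general points.
-/

set_option autoImplicit false

open Polynomial

namespace Pool.Agent.Lib.MP_ed661f_ag.G

open Pool.Agent.Lib.MP_6b2d39_ag

namespace Points

/-! ### From one tuple of points to general points -/

/-- the conditions -/
private abbrev Jx (n m : ℕ) : Type := {t : Fin n × ℕ × ℕ // t.2.1 + t.2.2 < m}

/-- the rows of the matrix of conditions -/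
private def row {R : Type*} [CommRing R] {n m d : ℕ} (x y : Fin n → R) (j : Jx n m)
    (i : Transfer.Ix d) : R :=
  Transfer.entry (x j.1.1) (y j.1.1) j.1.2.1 j.1.2.2 i.1.1 i.1.2

private theorem map_minor {R R' : Type*} [CommRing R] [CommRing R'] {n m d : ℕ} (φ : R →+* R')
    (x y : Fin n → R) (a : Transfer.Ix d → Jx n m) :
    φ (Matrix.of fun i i' => row x y (a i) i').det =
      (Matrix.of fun i i' => row (fun v => φ (x v)) (fun v => φ (y v)) (a i) i').det := by
  rw [RingHom.map_det]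
  congr 1
  ext i i'
  simp [row, Transfer.map_entry]

theorem gen_of_points {n m d : ℕ} (x y : Fin n → ℂ)
    (h : ∀ c : Transfer.Ix d → ℂ, (∀ v a b, a + b < m →
      ∑ i : Transfer.Ix d, Transfer.entry (x v) (y v) a b i.1.1 i.1.2 * c i = 0) → c = 0) :
    A.Gen d (fun _ : Fin n => m) := by
  obtain ⟨a, ha⟩ := Transfer.exists_minor (K := ℂ) (I := Transfer.Ix d) (J := Jx n m)
    (row x y) (fun c hc => h c fun v a b hab => hc ⟨(v, a, b), hab⟩)
  -- the universal minor
  let Xu : Fin n → MvPolynomial (Fin n × Fin 2) ℂ := fun v => MvPolynomial.X (v, 0)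
  let Yu : Fin n → MvPolynomial (Fin n × Fin 2) ℂ := fun v => MvPolynomial.X (v, 1)
  refine ⟨(Matrix.of fun i i' => row Xu Yu (a i) i').det, ?_, ?_⟩
  · intro h0
    apply ha
    have h1 := map_minor (MvPolynomial.eval (fun q : Fin n × Fin 2 =>
      if q.2 = 0 then x q.1 else y q.1)) Xu Yu a
    rw [h0, map_zero] at h1
    rw [h1]
    congr 1
    ext i i'
    simp [Xu, Yu]
  · intro p hp
    rw [map_minor] at hp
    rw [eq_bot_iff]
    intro f hf
    rw [fatSystem, Submodule.mem_inf, Submodule.mem_iInf] at hf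
    obtain ⟨hfd, hfm⟩ := hf
    have hc := Transfer.eq_zero_of_minor _ a hp (fun i => f.coeff (Transfer.ex i)) (by
      rintro ⟨⟨v, a, b⟩, hab⟩
      have h3 := Transfer.coeff_Th_eq_sum hfd (p v 0) (p v 1) a b
      have h5 := hfm v
      have h6 : p v = ![p v 0, p v 1] := by
        ext i
        fin_cases i <;> rfl
      rw [Submodule.restrictScalars_mem, h6] at h5
      have h7 := Transfer.Th_mem_wt _ _ _ h5 a b hab
      rw [h3] at h7
      rw [← h7]
      refine Finset.sum_congr rfl fun i _ => ?_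
      simp only [row, Xu, Yu, MvPolynomial.eval_X])
    rw [Submodule.mem_bot, Transfer.eq_sum_monomial hfd]
    refine Finset.sum_eq_zero fun i _ => ?_
    rw [show f.coeff (Transfer.ex i) = 0 from congrFun hc i, map_zero]

/-! ### Multiplicity `m` at a point of the curve -/

/-- the coefficient of order `j` is divisible by `p ^ (m - j)` -/
private def wt (p : ℂ[X]) (m : ℕ) : Ideal ℂ[X][X] where
  carrier := {g | ∀ j, p ^ (m - j) ∣ g.coeff j}
  add_mem' {f g} hf hg j := by
    rw [coeff_add]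
    exact dvd_add (hf j) (hg j)
  zero_mem' j := by simp
  smul_mem' c f hf j := by
    rw [smul_eq_mul, coeff_mul]
    refine Finset.dvd_sum fun q hq => ?_
    rw [Finset.HasAntidiagonal.mem_antidiagonal] at hq
    exact Dvd.dvd.mul_left ((pow_dvd_pow p (by omega)).trans (hf q.2)) _

private theorem mem_wt {p : ℂ[X]} {m : ℕ} {g : ℂ[X][X]} :
    g ∈ wt p m ↔ ∀ j, p ^ (m - j) ∣ g.coeff j := Iff.rfl

private theorem mul_mem_wt {p : ℂ[X]} {m k : ℕ} {f g : ℂ[X][X]} (hf : f ∈ wt p m)
    (hg : g ∈ wt p k) : f * g ∈ wt p (m + k) := by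
  intro j
  rw [coeff_mul]
  refine Finset.dvd_sum fun q hq => ?_
  rw [Finset.HasAntidiagonal.mem_antidiagonal] at hq
  refine (pow_dvd_pow p (show m + k - j ≤ (m - q.1) + (k - q.2) by omega)).trans ?_
  rw [pow_add]
  exact mul_dvd_mul (hf q.1) (hg q.2)

private theorem pow_mem_wt {p : ℂ[X]} {f : ℂ[X][X]} (hf : f ∈ wt p 1) (m : ℕ) :
    f ^ m ∈ wt p m := by
  induction m with
  | zero =>
    intro j
    simp
  | succ m ih =>
    rw [pow_succ]
    exact mul_mem_wt ih hf

private theorem wt_mono {p : ℂ[X]} {m k : ℕ} (h : k ≤ m) {f : ℂ[X][X]} (hf : f ∈ wt p m) :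
    f ∈ wt p k := fun j => (pow_dvd_pow p (by omega)).trans (hf j)

/-- binomial expansion with a fixed range -/
private theorem add_pow' {R : Type*} [CommRing R] (u α : R) {s d : ℕ} (hs : s ≤ d) :
    (u + α) ^ s = ∑ a ∈ Finset.range (d + 1), u ^ a * (α ^ (s - a) * (s.choose a : R)) := by
  rw [add_pow]
  have h1 : Finset.range (s + 1) ⊆ Finset.range (d + 1) := by
    intro a
    simp only [Finset.mem_range]
    omega
  rw [← Finset.sum_subset h1]
  · refine Finset.sum_congr rfl fun a _ => ?_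
    ring
  · intro a _ ha
    rw [Finset.mem_range, not_lt] at ha
    rw [Nat.choose_eq_zero_of_lt (by omega)]
    simp

/-- the Taylor expansion along the curve -/
private theorem expand (x ξ : ℂ[X]) (x0 y0 : ℂ) {s t d : ℕ} (hs : s ≤ d) (ht : t ≤ d) :
    (C (x ^ s) * (C ξ + X) ^ t : ℂ[X][X]) =
      ∑ a ∈ Finset.range (d + 1), ∑ b ∈ Finset.range (d + 1),
        C (C (Transfer.entry x0 y0 a b s t)) *
          (C (x - C x0) ^ a * (C ξ + X - C (C y0)) ^ b) := by
  have h1 : (C (x ^ s) : ℂ[X][X]) = (C (x - C x0) + C (C x0)) ^ s := by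
    rw [← C_add, ← C_pow, sub_add_cancel]
  have h2 : (C ξ + X : ℂ[X][X]) = (C ξ + X - C (C y0)) + C (C y0) := by ring
  rw [h1]
  conv_lhs => rw [h2]
  rw [add_pow' _ _ hs, add_pow' _ _ ht, Finset.sum_mul_sum]
  refine Finset.sum_congr rfl fun a _ => Finset.sum_congr rfl fun b _ => ?_
  simp only [Transfer.entry, C_mul, C_pow, map_natCast]
  ring

/-- the conditions of multiplicity `m` at a point of the curve imply divisibility -/
private theorem dvd_of_conditions {d m : ℕ} (x ξ : ℂ[X]) (τ : ℂ) (c : Transfer.Ix d → ℂ)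
    (h : ∀ a b, a + b < m →
      ∑ i : Transfer.Ix d, Transfer.entry (x.eval τ) (ξ.eval τ) a b i.1.1 i.1.2 * c i = 0)
    (j : ℕ) :
    (X - C τ) ^ (m - j) ∣
      ∑ i : Transfer.Ix d, C (c i) * (C (x ^ (i.1.1 : ℕ)) * (C ξ + X) ^ (i.1.2 : ℕ) :
        ℂ[X][X]).coeff j := by
  have hu : (C (x - C (x.eval τ)) : ℂ[X][X]) ∈ wt (X - C τ) 1 := by
    intro j
    rw [coeff_C]
    split_ifs with hj
    · subst hj
      rw [Nat.sub_zero, pow_one]
      exact X_sub_C_dvd_sub_C_eval
    · exact dvd_zero _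
  have hv : (C ξ + X - C (C (ξ.eval τ)) : ℂ[X][X]) ∈ wt (X - C τ) 1 := by
    intro j
    rcases j with _ | j
    · simp only [coeff_sub, coeff_add, coeff_C_zero, coeff_X_zero, add_zero, Nat.sub_zero, pow_one]
      exact X_sub_C_dvd_sub_C_eval
    · rw [show 1 - (j + 1) = 0 by omega, pow_zero]
      exact one_dvd _
  have key : (∑ i : Transfer.Ix d, C (C (c i)) *
      (C (x ^ (i.1.1 : ℕ)) * (C ξ + X) ^ (i.1.2 : ℕ)) : ℂ[X][X]) =
      ∑ a ∈ Finset.range (d + 1), ∑ b ∈ Finset.range (d + 1),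
        C (C (∑ i : Transfer.Ix d,
          Transfer.entry (x.eval τ) (ξ.eval τ) a b i.1.1 i.1.2 * c i)) *
          (C (x - C (x.eval τ)) ^ a * (C ξ + X - C (C (ξ.eval τ))) ^ b) := by
    have h1 : ∀ i : Transfer.Ix d, (C (C (c i)) *
        (C (x ^ (i.1.1 : ℕ)) * (C ξ + X) ^ (i.1.2 : ℕ)) : ℂ[X][X]) =
        ∑ a ∈ Finset.range (d + 1), ∑ b ∈ Finset.range (d + 1),
          C (C (Transfer.entry (x.eval τ) (ξ.eval τ) a b i.1.1 i.1.2 * c i)) *
          (C (x - C (x.eval τ)) ^ a * (C ξ + X - C (C (ξ.eval τ))) ^ b) := by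
      intro i
      rw [expand x ξ (x.eval τ) (ξ.eval τ) (Nat.lt_succ_iff.1 i.1.1.2)
        (Nat.lt_succ_iff.1 i.1.2.2), Finset.mul_sum]
      refine Finset.sum_congr rfl fun a _ => ?_
      rw [Finset.mul_sum]
      refine Finset.sum_congr rfl fun b _ => ?_
      simp only [C_mul]
      ring
    rw [Finset.sum_congr rfl fun i _ => h1 i, Finset.sum_comm]
    refine Finset.sum_congr rfl fun a _ => ?_
    rw [Finset.sum_comm]
    refine Finset.sum_congr rfl fun b _ => ?_
    rw [← Finset.sum_mul, map_sum, map_sum]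
  have hmem : (∑ i : Transfer.Ix d, C (C (c i)) *
      (C (x ^ (i.1.1 : ℕ)) * (C ξ + X) ^ (i.1.2 : ℕ)) : ℂ[X][X]) ∈ wt (X - C τ) m := by
    rw [key]
    refine Ideal.sum_mem _ fun a _ => Ideal.sum_mem _ fun b _ => ?_
    by_cases hab : a + b < m
    · rw [h a b hab]
      simp
    · refine Ideal.mul_mem_left _ _ (wt_mono (not_lt.1 hab) ?_)
      exact mul_mem_wt (pow_mem_wt hu a) (pow_mem_wt hv b)
  have h2 := hmem j
  rw [finsetSum_coeff] at h2
  simpa only [coeff_C_mul] using h2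

/-! ### The specialisation -/

/-- the coefficients of the remainder modulo `X ^ k` -/
private theorem coeff_modByMonic_X_pow (p : ℂ[X]) {k i : ℕ} (hi : i < k) :
    (p %ₘ X ^ k).coeff i = p.coeff i := by
  have h1 := modByMonic_add_div p (X ^ k)
  conv_rhs => rw [← h1]
  rw [coeff_add, coeff_X_pow_mul', if_neg (by omega), add_zero]

/-- the polynomial of the points -/
private noncomputable def PP {R : Type*} [CommRing R] (n : ℕ) (s : R) : R[X] :=
  ∏ v : Fin n, (X - C (s * ((v : ℕ) : R)))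

private theorem monic_PP {R : Type*} [CommRing R] (n : ℕ) (s : R) : (PP n s).Monic :=
  monic_prod_of_monic _ _ fun _ _ => monic_X_sub_C _

private theorem map_PP {R R' : Type*} [CommRing R] [CommRing R'] (φ : R →+* R') (n : ℕ) (s : R) :
    (PP n s).map φ = PP n (φ s) := by
  simp [PP, Polynomial.map_prod]

private theorem PP_zero {R : Type*} [CommRing R] (n : ℕ) : PP n (0 : R) = X ^ n := by
  simp [PP]

/-- the rows of the matrix of conditions -/
private noncomputable def rw' {R : Type*} [CommRing R] (φ : ℂ →+* R) {d : ℕ} (n m : ℕ)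
    (x ξ : ℂ[X]) (s : R) (t : ℕ × ℕ) (i : Transfer.Ix d) : R :=
  (((C (x ^ (i.1.1 : ℕ)) * (C ξ + X) ^ (i.1.2 : ℕ) : ℂ[X][X]).coeff t.2).map φ %ₘ
    (PP n s) ^ (m - t.2)).coeff t.1

private theorem map_rw' {R R' : Type*} [CommRing R] [CommRing R'] (φ : ℂ →+* R) (ψ : R →+* R')
    {d : ℕ} (n m : ℕ) (x ξ : ℂ[X]) (s : R) (t : ℕ × ℕ) (i : Transfer.Ix d) :
    ψ (rw' φ n m x ξ s t i) = rw' (ψ.comp φ) n m x ξ (ψ s) t i := by
  rw [rw', rw', ← coeff_map, map_modByMonic _ ((monic_PP n s).pow _), Polynomial.map_map,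
    Polynomial.map_pow, map_PP]

/-- linearity of the remainder -/
private theorem sum_rw' {d : ℕ} (n m : ℕ) (x ξ : ℂ[X]) (s : ℂ) (t : ℕ × ℕ)
    (c : Transfer.Ix d → ℂ) :
    ∑ i, rw' (RingHom.id ℂ) n m x ξ s t i * c i =
      ((∑ i : Transfer.Ix d, C (c i) * (C (x ^ (i.1.1 : ℕ)) * (C ξ + X) ^ (i.1.2 : ℕ) :
        ℂ[X][X]).coeff t.2) %ₘ (PP n s) ^ (m - t.2)).coeff t.1 := by
  rw [← modByMonicHom_apply, map_sum, finsetSum_coeff]
  refine Finset.sum_congr rfl fun i _ => ?_
  rw [← smul_eq_C_mul, map_smul, coeff_smul, modByMonicHom_apply, rw', Polynomial.map_id,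
    smul_eq_mul, mul_comm]

/-- the exponents -/
private def emb {d : ℕ} (i : Transfer.Ix d) : ℕ × ℕ := ((i.1.1 : ℕ), (i.1.2 : ℕ))

private theorem emb_injective {d : ℕ} : Function.Injective (emb (d := d)) := by
  intro i j h
  have h0 := congrArg (fun n : ℕ × ℕ => n.1) h
  have h1 := congrArg (fun n : ℕ × ℕ => n.2) h
  exact Subtype.ext (Prod.ext (Fin.ext h0) (Fin.ext h1))

private theorem simplex_eq (d : ℕ) : simplex (d + 1) = Finset.univ.image (emb (d := d)) := by
  ext α
  rw [mem_simplex, Finset.mem_image]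
  constructor
  · intro h
    exact ⟨⟨(⟨α.1, by omega⟩, ⟨α.2, by omega⟩), by simp only; omega⟩, Finset.mem_univ _, rfl⟩
  · rintro ⟨i, -, rfl⟩
    have h1 := i.2
    simp only [emb]
    omega

private theorem sum_simplex {M : Type*} [AddCommMonoid M] (d : ℕ) (g : ℕ × ℕ → M) :
    ∑ α ∈ simplex (d + 1), g α = ∑ i : Transfer.Ix d, g (emb i) := by
  rw [simplex_eq, Finset.sum_image (fun i _ j _ h => emb_injective h)]

end Points

open Points in
theorem gen_of_good {n m d : ℕ} {μ : ℂ} {ζ : ℂ[X]} (hμ : μ ≠ 0)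
    (h : Good (simplex (d + 1)) (1 + C μ * X) ζ (fun i j => i + n * j < n * m)) :
    A.Gen d (fun _ : Fin n => m) := by
  have _ := hμ
  -- a nonzero minor at `s = 0`
  obtain ⟨a, ha⟩ := Transfer.exists_minor (K := ℂ) (I := Transfer.Ix d) (J := ℕ × ℕ)
    (rw' (RingHom.id ℂ) n m (1 + C μ * X) ζ 0) (by
      intro c hc
      have h1 := h (Function.extend emb c 0) (by
        intro i j hij
        have h2 := hc (i, j)
        rw [sum_rw', PP_zero, ← pow_mul] at h2
        have hj : j < m := by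
          by_contra hj
          rw [not_lt] at hj
          have := Nat.mul_le_mul_left n hj
          omega
        have hi : i < n * (m - j) := by
          rw [Nat.mul_sub]
          omega
        rw [coeff_modByMonic_X_pow _ hi, finsetSum_coeff] at h2
        rw [coeff_F, sum_simplex, ← h2]
        refine Finset.sum_congr rfl fun k _ => ?_
        rw [emb_injective.extend_apply]
        exact (coeff_C_mul _).symm)
      ext i
      have h5 := h1 (emb i) (by
        rw [simplex_eq]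
        exact Finset.mem_image_of_mem _ (Finset.mem_univ _))
      rw [emb_injective.extend_apply] at h5
      rw [h5]
      rfl)
  -- a nonzero `s` with a nonzero minor
  obtain ⟨s, hs0, hs⟩ : ∃ s : ℂ, s ≠ 0 ∧
      (Matrix.of fun i i' => rw' (RingHom.id ℂ) n m (1 + C μ * X) ζ s (a i) i').det ≠ 0 := by
    let D : ℂ[X] := (Matrix.of fun i i' : Transfer.Ix d =>
      rw' (C : ℂ →+* ℂ[X]) n m (1 + C μ * X) ζ (X : ℂ[X]) (a i) i').det
    have hD : ∀ s : ℂ, D.eval s =
        (Matrix.of fun i i' => rw' (RingHom.id ℂ) n m (1 + C μ * X) ζ s (a i) i').det := by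
      intro s
      change (evalRingHom s) D = _
      rw [RingHom.map_det]
      congr 1
      ext i i'
      rw [RingHom.mapMatrix_apply, Matrix.map_apply, Matrix.of_apply, Matrix.of_apply, map_rw']
      have h6 : (evalRingHom s).comp (C : ℂ →+* ℂ[X]) = RingHom.id ℂ := by
        ext z
        simp
      rw [h6, coe_evalRingHom, eval_X]
    have hD0 : D ≠ 0 := by
      intro h0
      apply ha
      rw [← hD 0, h0, eval_zero]
    have hDX : D * X ≠ 0 := mul_ne_zero hD0 X_ne_zero
    obtain ⟨s, hs⟩ : ∃ s : ℂ, (D * X).eval s ≠ 0 := by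
      by_contra hne
      push Not at hne
      exact hDX (Polynomial.funext fun s => by rw [hne s, eval_zero])
    rw [eval_mul, eval_X] at hs
    refine ⟨s, right_ne_zero_of_mul hs, ?_⟩
    rw [← hD s]
    exact left_ne_zero_of_mul hs
  -- the points
  refine gen_of_points (fun v => (1 + C μ * X : ℂ[X]).eval (s * ((v : ℕ) : ℂ)))
    (fun v => ζ.eval (s * ((v : ℕ) : ℂ))) ?_
  intro c hc
  refine Transfer.eq_zero_of_minor _ a hs c ?_
  intro t
  rw [sum_rw']
  have hdvd : (PP n s) ^ (m - t.2) ∣ ∑ i : Transfer.Ix d, C (c i) *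
      (C ((1 + C μ * X) ^ (i.1.1 : ℕ)) * (C ζ + X) ^ (i.1.2 : ℕ) : ℂ[X][X]).coeff t.2 := by
    rw [PP, ← Finset.prod_pow]
    refine Finset.prod_dvd_of_coprime ?_ ?_
    · intro v _ w _ hvw
      have hinj : Function.Injective (fun v : Fin n => s * ((v : ℕ) : ℂ)) := by
        intro v w hvw
        have h1 := mul_left_cancel₀ hs0 hvw
        exact Fin.ext (by exact_mod_cast h1)
      exact (pairwise_coprime_X_sub_C hinj hvw).pow
    · intro v _
      exact dvd_of_conditions _ _ _ c (hc v) _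
  rw [(modByMonic_eq_zero_iff_dvd ((monic_PP n s).pow _)).2 hdvd, coeff_zero]

end Pool.Agent.Lib.MP_ed661f_ag.G
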