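import Pool.Agent.Lib.MP_ed661f_ag.G.Region

/-!
The first region of the multi-level germ criterion.
-/

set_option autoImplicit false

namespace Pool.Agent.Lib.MP_ed661f_ag.G

namespace Start

/-- a line which meets the simplex in more than `b` points -/
theorem line {a N E b : ℕ} (ha : 2 ≤ a)
    (h : b < ((simplex N).filter fun u => u.1 + a * u.2 = E).card) :
    b ≤ E / a ∧ E % a + (E / a - b) + a * b < N := by
  by_contra hcon
  have hE := Nat.div_add_mod E a
  set q := E / a with hq
  set r := E % a with hr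
  have hinj : Set.InjOn Prod.snd
      ((((simplex N).filter fun u => u.1 + a * u.2 = E) : Finset (ℕ × ℕ)) : Set (ℕ × ℕ)) := by
    rintro ⟨x, y⟩ hx ⟨x', y'⟩ hx' hxy
    simp only [Finset.coe_filter, Set.mem_ofPred_eq] at hx hx'
    simp only at hxy
    subst hxy
    have : x = x' := by
      have := hx.2.trans hx'.2.symm
      omega
    rw [this]
  have hle : ∀ u ∈ ((simplex N).filter fun u => u.1 + a * u.2 = E), u.2 ≤ q := by
    rintro ⟨x, y⟩ hu
    rw [Finset.mem_filter] at hu
    simp only at hu ⊢
    rw [hq, Nat.le_div_iff_mul_le (by omega)]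
    have := hu.2
    nlinarith [this]
  rw [← Finset.card_image_of_injOn hinj] at h
  by_cases hb : b ≤ q
  · have hN : N ≤ r + (q - b) + a * b := by
      by_contra h1
      exact hcon ⟨hb, by omega⟩
    have hsub : (((simplex N).filter fun u => u.1 + a * u.2 = E).image Prod.snd) ⊆
        Finset.Ioc (q - b) q := by
      intro k hk
      rw [Finset.mem_image] at hk
      obtain ⟨u, hu, rfl⟩ := hk
      have h1 := hle u hu
      rw [Finset.mem_filter, mem_simplex] at hu
      rw [Finset.mem_Ioc]
      refine ⟨?_, h1⟩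
      by_contra h2
      push Not at h2
      obtain ⟨t, ht⟩ : ∃ t, q - b = u.2 + t := ⟨q - b - u.2, by omega⟩
      have h3 : q = u.2 + t + b := by omega
      have h4 : u.1 + a * u.2 = a * (u.2 + t + b) + r := by rw [hu.2, ← hE, h3]
      have h5 : u.1 = a * t + a * b + r := by
        have : a * (u.2 + t + b) = a * u.2 + a * t + a * b := by ring
        omega
      have h6 : t ≤ a * t := Nat.le_mul_of_pos_left t (by omega)
      omega
    have := Finset.card_le_card hsub
    rw [Nat.card_Ioc] at this
    omega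
  · have hsub : (((simplex N).filter fun u => u.1 + a * u.2 = E).image Prod.snd) ⊆
        Finset.range (q + 1) := by
      intro k hk
      rw [Finset.mem_image] at hk
      obtain ⟨u, hu, rfl⟩ := hk
      have h1 := hle u hu
      rw [Finset.mem_range]
      omega
    have := Finset.card_le_card hsub
    rw [Finset.card_range] at this
    omega

/-- the number of points of height `b` -/
theorem card_row {a N b : ℕ} (ha : 2 ≤ a) :
    ((Phi a (simplex N)).filter fun u => u.2 = b).card ≤
      ∑ i ∈ Finset.range a, (N - a * b - i) := by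
  have hmem : ∀ u ∈ (Phi a (simplex N)).filter fun u => u.2 = b,
      b ≤ u.1 / a ∧ u.1 % a + (u.1 / a - b) + a * b < N ∧ u.2 = b := by
    intro u hu
    rw [Finset.mem_filter, mem_Phi] at hu
    obtain ⟨h1, h2⟩ := hu
    rw [h2] at h1
    exact ⟨(line ha h1).1, (line ha h1).2, h2⟩
  calc ((Phi a (simplex N)).filter fun u => u.2 = b).card
      = (((Phi a (simplex N)).filter fun u => u.2 = b).image
          (fun u => (⟨u.1 % a, u.1 / a - b⟩ : Σ _ : ℕ, ℕ))).card := by
        rw [Finset.card_image_of_injOn]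
        intro u hu v hv huv
        have h1 := hmem u hu
        have h2 := hmem v hv
        simp only [Sigma.mk.injEq, heq_eq_eq] at huv
        have h3 : u.1 / a = v.1 / a := by omega
        have h4 : u.1 = v.1 := by
          rw [← Nat.div_add_mod u.1 a, ← Nat.div_add_mod v.1 a, h3, huv.1]
        exact Prod.ext h4 (by rw [h1.2.2, h2.2.2])
    _ ≤ ((Finset.range a).sigma fun i => Finset.range (N - a * b - i)).card := by
        refine Finset.card_le_card ?_
        intro x hx
        rw [Finset.mem_image] at hx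
        obtain ⟨u, hu, rfl⟩ := hx
        have h1 := hmem u hu
        rw [Finset.mem_sigma, Finset.mem_range, Finset.mem_range]
        exact ⟨Nat.mod_lt _ (by omega), by simp only; omega⟩
    _ = ∑ i ∈ Finset.range a, (N - a * b - i) := by
        rw [Finset.card_sigma]
        simp

theorem sum_le_of_le {M : ℕ} : ∀ k ≤ M,
    2 * (∑ i ∈ Finset.range k, (M - i)) + k * k = 2 * k * M + k := by
  intro k
  induction k with
  | zero => simp
  | succ k ih =>
    intro hk
    rw [Finset.sum_range_succ]
    have h := ih (by omega)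
    obtain ⟨t, rfl⟩ : ∃ t, M = k + t := ⟨M - k, by omega⟩
    have : k + t - k = t := by omega
    rw [this]
    nlinarith [h]

theorem sum_of_ge {M t : ℕ} :
    2 * (∑ i ∈ Finset.range (M + t), (M - i)) = M * (M + 1) := by
  induction t with
  | zero =>
    have := sum_le_of_le M le_rfl
    rw [add_zero]
    nlinarith [this]
  | succ t ih =>
    rw [← add_assoc, Finset.sum_range_succ, mul_add, ih]
    have : M - (M + t) = 0 := by omega
    rw [this]
    simp

end Start

theorem start_region {a N : ℕ} (ha : 2 ≤ a) (hN : a ≤ N) :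
    Reg 0 ((a : ℝ) * (N - (a - 1) / 2) - 1) (((N : ℝ) - 1) / a) (Psi (Phi a (simplex N))) := by
  intro s hs
  rw [mem_Psi] at hs
  have h1 := lt_of_lt_of_le hs (Start.card_row (b := s.2) (N := N) ha)
  set c := s.1 with hc
  set b := s.2 with hb
  have haR : (2 : ℝ) ≤ a := by exact_mod_cast ha
  have hNR : (a : ℝ) ≤ N := by exact_mod_cast hN
  have hN1 : (0 : ℝ) < N - 1 := by linarith
  have hb0 : (0 : ℝ) ≤ b := by positivity
  refine ⟨by rw [zero_mul]; positivity, ?_⟩
  rw [sub_zero, div_div_eq_mul_div, div_mul_eq_mul_div]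
  rw [← le_sub_iff_add_le', div_le_iff₀ hN1]
  rcases Nat.lt_or_ge (N - a * b) a with hM | hM
  · obtain ⟨t, ht⟩ : ∃ t, a = (N - a * b) + t := ⟨a - (N - a * b), by omega⟩
    set M := N - a * b with hMdef
    have h2 : 2 * (∑ i ∈ Finset.range a, (M - i)) = M * (M + 1) := by
      conv_lhs => rw [ht]
      exact Start.sum_of_ge
    have hM1 : 1 ≤ M := by
      by_contra h0
      have h00 : M * (M + 1) = 0 := by
        have : M = 0 := by omega
        rw [this, zero_mul]
      omega
    have h3 : N = M + a * b := by omega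
    have h4 : 2 * c + 2 ≤ M * (M + 1) := by omega
    have h4R : 2 * (c : ℝ) + 2 ≤ M * (M + 1) := by exact_mod_cast h4
    have h3R : (N : ℝ) = M + a * b := by exact_mod_cast h3
    have hM1R : (1 : ℝ) ≤ M := by exact_mod_cast hM1
    have hMaR : (M : ℝ) + 1 ≤ a := by exact_mod_cast hM
    have h5 : ((M : ℝ) + 2) * (N - 1) ≤ 2 * ((a : ℝ) * (N - (a - 1) / 2) - 1) := by
      nlinarith [mul_nonneg (sub_nonneg.2 hMaR) hN1.le,
        mul_nonneg (by linarith : (0 : ℝ) ≤ a - 1) (by linarith : (0 : ℝ) ≤ (N : ℝ) - a + 1)]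
    have h6 : ((M : ℝ) - 1) * (((M : ℝ) + 2) * (N - 1)) ≤
        (M - 1) * (2 * ((a : ℝ) * (N - (a - 1) / 2) - 1)) :=
      mul_le_mul_of_nonneg_left h5 (by linarith)
    have h7 : (N : ℝ) - 1 = (M - 1) + a * b := by rw [h3R]; ring
    have h8 : (2 * (c : ℝ)) * (N - 1) ≤ ((M : ℝ) - 1) * ((M : ℝ) + 2) * (N - 1) := by
      refine mul_le_mul_of_nonneg_right ?_ hN1.le
      nlinarith
    generalize (a : ℝ) * (N - (a - 1) / 2) - 1 = W at *
    have h9 : (c : ℝ) * (N - 1) ≤ (M - 1) * W := by linarith
    have h10 : W * (N - 1) = (M - 1) * W + W * a * b := by rw [h7]; ring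
    linarith
  · have h2 := Start.sum_le_of_le a hM
    set M := N - a * b with hMdef
    have hle : a * b ≤ N := by omega
    have h3 : N = M + a * b := by omega
    have h3R : (N : ℝ) = M + a * b := by exact_mod_cast h3
    have h4 : 2 * c + 2 + a * a ≤ 2 * a * M + a := by omega
    have h4R : 2 * (c : ℝ) + 2 + a * a ≤ 2 * a * M + a := by exact_mod_cast h4
    have h5 : ((a : ℝ) * (N - (a - 1) / 2) - 1) ≤ a * (N - 1) := by nlinarith
    have h6 : ((a : ℝ) * (N - (a - 1) / 2) - 1) * b * a ≤ a * (N - 1) * b * a := by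
      have := mul_le_mul_of_nonneg_right h5 (mul_nonneg hb0 (by linarith : (0 : ℝ) ≤ a))
      nlinarith [this]
    have h7 : (c : ℝ) ≤ ((a : ℝ) * (N - (a - 1) / 2) - 1) - a * a * b := by
      rw [h3R]
      nlinarith [h4R]
    have h8 : a * a * b * ((N : ℝ) - 1) ≤ ((((a : ℝ) * (N - (a - 1) / 2) - 1)) - c) * (N - 1) :=
      mul_le_mul_of_nonneg_right (by linarith) hN1.le
    nlinarith [h6, h8]

end Pool.Agent.Lib.MP_ed661f_ag.G
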