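import Mathlib
import Pool.Agent.Lib.MP_ed661f_ag.G.Defs
import Pool.Agent.Lib.MP_ed661f_ag.G.Abstract

/-! The two compression steps for germs. -/

set_option autoImplicit false

open Polynomial

namespace Pool.Agent.Lib.MP_ed661f_ag.G

private theorem sum_Phi {K : Type*} [Field K] (ρ : ℕ) (S : Finset (ℕ × ℕ)) (f : ℕ × ℕ → K) :
    ∑ s ∈ Phi ρ S, f s = ∑ E ∈ S.image (fun s => s.1 + ρ * s.2),
      ∑ i ∈ Finset.range (S.filter fun s => s.1 + ρ * s.2 = E).card, f (E, i) := by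
  rw [Phi, Finset.sum_biUnion]
  · refine Finset.sum_congr rfl fun E _ => ?_
    rw [Finset.sum_image]
    intro i _ i' _ h
    exact (Prod.mk.inj h).2
  · intro E _ E' _ hE
    rw [Function.onFun, Finset.disjoint_left]
    intro s hs hs'
    rw [Finset.mem_image] at hs hs'
    obtain ⟨i, _, rfl⟩ := hs
    obtain ⟨i', _, h⟩ := hs'
    exact hE (Prod.mk.inj h).1.symm

private theorem sum_Psi {K : Type*} [Field K] (S : Finset (ℕ × ℕ)) (f : ℕ × ℕ → K) :
    ∑ s ∈ Psi S, f s = ∑ b ∈ S.image Prod.snd,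
      ∑ i ∈ Finset.range (S.filter fun s => s.2 = b).card, f (i, b) := by
  rw [Psi, Finset.sum_biUnion]
  · refine Finset.sum_congr rfl fun E _ => ?_
    rw [Finset.sum_image]
    intro i _ i' _ h
    exact (Prod.mk.inj h).1
  · intro E _ E' _ hE
    rw [Function.onFun, Finset.disjoint_left]
    intro s hs hs'
    rw [Finset.mem_image] at hs hs'
    obtain ⟨i, _, rfl⟩ := hs
    obtain ⟨i', _, h⟩ := hs'
    exact hE (Prod.mk.inj h).2.symm

/-- special position with respect to the curve `y = x ^ ρ` -/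
theorem stepA {K : Type*} [Field K] [CharZero K] {S : Finset (ℕ × ℕ)} {x ξ : K[X]} {e ρ : ℕ}
    (hx : X ^ e ∣ x) {I I' : ℕ → ℕ → Prop}
    (hI : ∀ i j i', I' i j → i' + e * ρ * j ≤ i → I i' j) (h : Good (Phi ρ S) x ξ I') :
    ∃ l : K, l ≠ 0 ∧ Good S x (x ^ ρ * (1 + C l * ξ)) I := by
  classical
  obtain ⟨l, hl, hl2⟩ := abstract_step (K := K) S (fun s => s.1 + ρ * s.2) (fun s => s.2)
    (by
      intro s _ s' _ h1 h2
      replace h1 : s.1 + ρ * s.2 = s'.1 + ρ * s'.2 := h1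
      replace h2 : s.2 = s'.2 := h2
      rw [h2] at h1
      exact Prod.ext (by omega) h2)
    (fun (p : {p : ℕ × ℕ // I' p.1 p.2}) E i =>
      ((C (x ^ E) * (C ξ + X) ^ i : K[X][X]).coeff p.1.2).coeff p.1.1)
    (by
      intro a ha E hE i hi
      have h1 := h (fun s => a s.1 s.2) (by
        intro i' j' hij
        rw [coeff_F, sum_Phi]
        rw [← ha ⟨(i', j'), hij⟩]
        refine Finset.sum_congr rfl fun E' _ => Finset.sum_congr rfl fun i'' _ => ?_
        exact mul_comm _ _) (E, i) (mem_Phi.2 hi)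
      exact h1)
  refine ⟨l, hl, fun c hc => hl2 c ?_⟩
  rintro ⟨⟨i, j⟩, hij⟩
  have hcomp : (F S c x (x ^ ρ * (1 + C l * ξ))).comp (C (C l * x ^ ρ) * X) =
      ∑ s ∈ S, C (C (c s)) * ∑ i ∈ Finset.range (s.2 + 1),
        C (C (((s.2).choose i : K) * l ^ i)) *
          (C (x ^ (s.1 + ρ * s.2)) * (C ξ + X) ^ i) := by
    rw [F, Polynomial.sum_comp]
    refine Finset.sum_congr rfl fun s _ => ?_
    rw [mul_comp, C_comp, pow_comp, add_comp, C_comp, X_comp]
    have h1 : (C (x ^ ρ * (1 + C l * ξ)) + C (C l * x ^ ρ) * X : K[X][X]) =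
        C (x ^ ρ) * (C (C l) * (C ξ + X) + 1) := by
      simp only [C_mul, C_add, C_1]
      ring
    rw [h1, mul_pow, add_pow, Finset.mul_sum, Finset.mul_sum, Finset.mul_sum]
    refine Finset.sum_congr rfl fun i _ => ?_
    rw [pow_add, pow_mul, mul_pow, one_pow]
    simp only [C_mul, C_pow, map_natCast]
    ring
  have h2 : ((F S c x (x ^ ρ * (1 + C l * ξ))).comp (C (C l * x ^ ρ) * X)).coeff j =
      (F S c x (x ^ ρ * (1 + C l * ξ))).coeff j * (C l * x ^ ρ) ^ j := by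
    rw [comp_C_mul_X_coeff]
  have h3 : (((F S c x (x ^ ρ * (1 + C l * ξ))).coeff j) * (C l * x ^ ρ) ^ j).coeff i = 0 := by
    rw [coeff_mul]
    refine Finset.sum_eq_zero fun q hq => ?_
    replace hq : q.1 + q.2 = i := Finset.HasAntidiagonal.mem_antidiagonal.1 hq
    rcases lt_or_ge q.2 (e * ρ * j) with h4 | h4
    · have h5 : X ^ (e * ρ * j) ∣ (C l * x ^ ρ) ^ j := by
        have h6 : (X ^ e : K[X]) ^ (ρ * j) ∣ x ^ (ρ * j) := pow_dvd_pow_of_dvd hx _
        rw [← pow_mul, ← mul_assoc, pow_mul x] at h6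
        rw [mul_pow]
        exact Dvd.dvd.mul_left h6 _
      rw [(X_pow_dvd_iff.1 h5) _ h4, mul_zero]
    · rw [hc q.1 j (hI i j q.1 hij (by omega)), zero_mul]
  rw [← h2, hcomp] at h3
  rw [finsetSum_coeff, finsetSum_coeff] at h3
  rw [← h3]
  refine Finset.sum_congr rfl fun s _ => ?_
  rw [coeff_C_mul, coeff_C_mul, finsetSum_coeff, finsetSum_coeff]
  congr 1
  refine Finset.sum_congr rfl fun i _ => ?_
  simp only [coeff_C_mul]

/-- moving the centre to `x = 1` -/
theorem stepB {K : Type*} [Field K] [CharZero K] {S : Finset (ℕ × ℕ)} {ξ : K[X]}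
    {I : ℕ → ℕ → Prop} (h : Good (Psi S) X ξ I) :
    ∃ μ : K, μ ≠ 0 ∧ Good S (1 + C μ * X) ξ I := by
  classical
  obtain ⟨l, hl, hl2⟩ := abstract_step (K := K) S (fun s => s.2) (fun s => s.1)
    (by
      intro s _ s' _ h1 h2
      exact Prod.ext h2 h1)
    (fun (p : {p : ℕ × ℕ // I p.1 p.2}) b i =>
      ((C (X ^ i) * (C ξ + X) ^ b : K[X][X]).coeff p.1.2).coeff p.1.1)
    (by
      intro a ha b hb i hi
      have h1 := h (fun s => a s.2 s.1) (by
        intro i' j' hij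
        rw [coeff_F, sum_Psi]
        rw [← ha ⟨(i', j'), hij⟩]
        refine Finset.sum_congr rfl fun E' _ => Finset.sum_congr rfl fun i'' _ => ?_
        exact mul_comm _ _) (i, b) (mem_Psi.2 hi)
      exact h1)
  refine ⟨l, hl, fun c hc => hl2 c ?_⟩
  rintro ⟨⟨i, j⟩, hij⟩
  have h3 := hc i j hij
  have hF : F S c (1 + C l * X) ξ = ∑ s ∈ S, C (C (c s)) * ∑ i ∈ Finset.range (s.1 + 1),
        C (C (((s.1).choose i : K) * l ^ i)) * (C (X ^ i) * (C ξ + X) ^ s.2) := by
    rw [F]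
    refine Finset.sum_congr rfl fun s _ => ?_
    rw [add_comm (1 : K[X]), add_pow, Finset.mul_sum, Finset.mul_sum]
    rw [map_sum, Finset.sum_mul]
    refine Finset.sum_congr rfl fun i _ => ?_
    rw [mul_pow, one_pow]
    simp only [C_mul, C_pow, map_natCast, C_1]
    ring
  rw [hF, finsetSum_coeff, finsetSum_coeff] at h3
  rw [← h3]
  refine Finset.sum_congr rfl fun s _ => ?_
  rw [coeff_C_mul, coeff_C_mul, finsetSum_coeff, finsetSum_coeff]
  congr 1
  refine Finset.sum_congr rfl fun i _ => ?_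
  simp only [coeff_C_mul]

theorem good_monomial {K : Type*} [Field K] {S : Finset (ℕ × ℕ)} {I : ℕ → ℕ → Prop}
    (h : ∀ s ∈ S, I s.1 s.2) : Good S (X : K[X]) 0 I := by
  intro c hc s hs
  have h1 := hc s.1 s.2 (h s hs)
  rw [coeff_F, Finset.sum_eq_single s] at h1
  · rw [C_0, zero_add, coeff_C_mul, coeff_X_pow, if_pos rfl, mul_one, coeff_X_pow, if_pos rfl,
      mul_one] at h1
    exact h1
  · intro u _ hu
    rw [C_0, zero_add, coeff_C_mul, coeff_X_pow]
    by_cases h2 : s.2 = u.2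
    · rw [if_pos h2, mul_one, coeff_X_pow, if_neg, mul_zero]
      intro h3
      exact hu (Prod.ext h3.symm h2.symm)
    · rw [if_neg h2, mul_zero, coeff_zero, mul_zero]
  · intro h2
    exact absurd hs h2

end Pool.Agent.Lib.MP_ed661f_ag.G
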