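import Pool.Agent.Lib.MP_ed661f_ag.A.Param

/-!
From uniform systems to all curves: multiply the conjugates of a curve under the automorphisms of
`ℂ` which rotate the points.
-/

open MvPolynomial

namespace Pool.Agent.Lib.MP_ed661f_ag.G

open Pool.Agent.Lib.MP_ed661f_ag.E Pool.Agent.Lib.MP_ed661f_ag.A Pool.Agent.Lib.MP_6b2d39_ag

private theorem sy_map_tay (φ : ℂ ≃+* ℂ) (p : Fin 2 → ℂ) (f : MvPolynomial (Fin 2) ℂ) :
    map (φ : ℂ →+* ℂ) (tay p f) = tay (fun c => φ (p c)) (map (φ : ℂ →+* ℂ) f) := by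
  induction f using MvPolynomial.induction_on with
  | C a => simp [tay]
  | add f g hf hg =>
    simp only [tay, map_add] at hf hg ⊢
    rw [hf, hg]
  | mul_X f j hf =>
    simp only [tay] at hf ⊢
    simp only [map_mul, map_X, aeval_X, map_add, map_C] at hf ⊢
    rw [hf]
    rfl

private theorem sy_map_ne {φ : ℂ ≃+* ℂ} {f : MvPolynomial (Fin 2) ℂ} (hf : f ≠ 0) :
    map (φ : ℂ →+* ℂ) f ≠ 0 := by
  intro h
  exact hf (map_injective _ φ.injective (by rw [h, map_zero]))

private theorem sy_mlt (φ : ℂ ≃+* ℂ) (p : Fin 2 → ℂ) {f : MvPolynomial (Fin 2) ℂ} (hf : f ≠ 0) :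
    mlt (fun c => φ (p c)) (map (φ : ℂ →+* ℂ) f) = mlt p f := by
  have key : ∀ m, m ≤ mlt (fun c => φ (p c)) (map (φ : ℂ →+* ℂ) f) ↔ m ≤ mlt p f := by
    intro m
    rw [le_mlt_iff (sy_map_ne hf), le_mlt_iff hf]
    refine forall_congr' fun e => forall_congr' fun _ => ?_
    rw [← sy_map_tay, coeff_map]
    constructor
    · intro h
      exact φ.injective (by simpa using h)
    · intro h
      rw [h]; simp
  exact le_antisymm ((key _).1 le_rfl) ((key _).2 le_rfl)

private theorem sy_deg (φ : ℂ ≃+* ℂ) (f : MvPolynomial (Fin 2) ℂ) :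
    (map (φ : ℂ →+* ℂ) f).totalDegree = f.totalDegree := by
  unfold totalDegree
  rw [support_map_of_injective f φ.injective]

/-- the product of the conjugates of a curve under the rotations of the points -/
theorem sum_mlt_le {n : ℕ} [NeZero n] {p : Fin n → Fin 2 → ℂ}
    (haut : ∀ k : Fin n, ∃ φ : ℂ ≃+* ℂ, ∀ l c, φ (p l c) = p (l + k) c)
    {f : MvPolynomial (Fin 2) ℂ} (hf : f ≠ 0) :
    fatSystem (n * f.totalDegree) (fun _ : Fin n => ∑ i, mlt (p i) f) p ≠ ⊥ := by
  classical
  choose φ hφ using haut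
  obtain ⟨F, hF⟩ : ∃ F : Fin n → MvPolynomial (Fin 2) ℂ, F = fun k => map (φ k : ℂ →+* ℂ) f :=
    ⟨_, rfl⟩
  have hF0 : ∀ k, F k ≠ 0 := fun k => by
    rw [hF]
    exact sy_map_ne hf
  have hm : ∀ k l, mlt (p (l + k)) (F k) = mlt (p l) f := by
    intro k l
    rw [← sy_mlt (φ k) (p l) hf, hF]
    congr 1
    funext c
    exact (hφ k l c).symm
  have hmem : (∏ k, F k) ∈ fatSystem (n * f.totalDegree)
      (fun _ : Fin n => ∑ i, mlt (p i) f) p := by
    refine mem_fatSystem (Finset.prod_ne_zero_iff.mpr fun k _ => hF0 k) ?_ ?_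
    · refine (totalDegree_finset_prod _ _).trans ?_
      have h1 : ∀ k, (F k).totalDegree = f.totalDegree := fun k => by rw [hF]; exact sy_deg _ _
      simp only [h1, Finset.sum_const, Finset.card_univ, Fintype.card_fin, smul_eq_mul]
      exact le_rfl
    · intro l
      rw [mlt_prod _ _ hF0]
      refine le_of_eq ?_
      refine Fintype.sum_equiv (Equiv.subLeft l) _ _ fun k => ?_
      rw [← hm (l - k) k, add_sub_cancel]
      rfl
  intro hbot
  rw [hbot] at hmem
  exact (Finset.prod_ne_zero_iff.mpr fun k _ => hF0 k) (by simpa using hmem)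

/-- **from uniform systems to all curves**: if the uniform systems with multiplicity `m` and degree
`d < y m` are empty for general points, then the Seshadri constant is at least `y / n`. -/
theorem le_eps_of_uniform {n : ℕ} (hn : 1 ≤ n) {y : ℝ}
    (h : ∀ m d : ℕ, (d : ℝ) < y * m → Gen d (fun _ : Fin n => m)) : y / n ≤ eps n := by
  classical
  have : NeZero n := ⟨by omega⟩
  obtain ⟨t, ht, hempty⟩ := exists_points n
  obtain ⟨p, hp⟩ : ∃ p : Fin n → Fin 2 → ℂ, p = fun i c => t (i, c) := ⟨_, rfl⟩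
  rw [← hp] at hempty
  have hpt : ∀ i c, p i c = t (i, c) := fun i c => by rw [hp]
  have hinj : Function.Injective p := by
    intro i j hij
    have h1 : t (i, 0) = t (j, 0) := by
      rw [← hpt, ← hpt, hij]
    exact (Prod.mk.inj (ht.injective h1)).1
  refine le_eps hn hinj fun f hf => ?_
  have haut : ∀ k : Fin n, ∃ φ : ℂ ≃+* ℂ, ∀ l c, φ (p l c) = p (l + k) c := by
    intro k
    obtain ⟨φ, hφ⟩ := exists_aut ht ((Equiv.addRight k).prodCongr (Equiv.refl (Fin 2)))
    refine ⟨φ, fun l c => ?_⟩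
    rw [hpt, hpt, hφ]
    rfl
  have h1 := sum_mlt_le haut hf
  by_contra hcon
  rw [not_le] at hcon
  refine h1 (hempty _ _ (h _ _ ?_))
  have hn0 : (0 : ℝ) < n := by exact_mod_cast hn
  push_cast
  calc (n : ℝ) * f.totalDegree < n * ((∑ i, (mlt (p i) f : ℝ)) * (y / n)) :=
        mul_lt_mul_of_pos_left hcon hn0
    _ = y * ∑ i, (mlt (p i) f : ℝ) := by
        field_simp

end Pool.Agent.Lib.MP_ed661f_ag.G
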